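import Pool.Agent.TC.L2
import Pool.Agent.TC.L6

/-!
# Free Ising two-point functions in cubes, slabs and shells: definitions (S1, block B2)

`cf S β u v` (Pool.Agent.TC) is the two-point function of the Ising model on the finite set `S` of
vertices of `ℤ^d` with free boundary conditions, coupling `β`.
-/

set_option autoImplicit false

namespace Pool.Agent.Slb

open Finset Pool.Agent.SRC Pool.Agent.TC

variable {d : ℕ}

/-- The box with lower corner `a` and sides `n` (numbers of vertices). -/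
noncomputable def bo (a : Vx d) (n : Fin d → ℕ) : Finset (Vx d) :=
  Fintype.piFinset (fun k => Finset.Ico (a k) (a k + n k))

lemma mem_bo {a : Vx d} {n : Fin d → ℕ} {x : Vx d} :
    x ∈ bo a n ↔ ∀ k, a k ≤ x k ∧ x k < a k + n k := by
  simp [bo, Fintype.mem_piFinset, Finset.mem_Ico]

lemma card_bo (a : Vx d) (n : Fin d → ℕ) : ((bo a n).card : ℝ) = ∏ k, (n k : ℝ) := by
  unfold bo
  rw [Fintype.card_piFinset]
  push_cast
  refine Finset.prod_congr rfl fun k _ => ?_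
  simp

/-- `⟨σ_i M_A⟩`, `M_A` the sum of the spins in `A` -/
noncomputable def mm (S : Finset (Vx d)) (β : ℝ) (A : Finset (Vx d)) (i : Vx d) : ℝ :=
  ∑ x ∈ A, cf S β i x

/-- `⟨M_A M_B⟩` -/
noncomputable def kk (S : Finset (Vx d)) (β : ℝ) (A B : Finset (Vx d)) : ℝ :=
  ∑ x ∈ A, mm S β B x

/-- the four-point function -/
noncomputable def c4 (S : Finset (Vx d)) (β : ℝ) (u v w x : Vx d) : ℝ :=
  av S (edg S) β (fun T => spin T u * spin T v * (spin T w * spin T x))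

/-- the centred cube -/
noncomputable def cb (o : Vx d) (R : ℕ) : Finset (Vx d) :=
  Finset.Icc (fun k => o k - (R : ℤ)) (fun k => o k + (R : ℤ))

/-- the cubic shell of thickness `K` around the cube of radius `r` -/
noncomputable def shell (o : Vx d) (r K : ℕ) : Finset (Vx d) := cb o (r + K) \ cb o r

/-! ## Interfaces -/

/-- Long range order in free cubes, averaged. -/
def LRO (d : ℕ) (β : ℝ) : Prop :=
  ∃ c : ℝ, 0 < c ∧ ∃ R0 : ℕ, ∀ R : ℕ, R0 ≤ R →
    c * (R : ℝ) ^ d ≤ ∑ y ∈ cb (0 : Vx d) R, cf (cb (0 : Vx d) R) β 0 y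

/-- Long range order in free cubes, pointwise up to the corners. -/
def CUBE (d : ℕ) (β : ℝ) : Prop :=
  ∃ c : ℝ, 0 < c ∧ ∀ (a : Vx d) (n : ℕ), 1 ≤ n → ∀ x ∈ bo a (fun _ => n), ∀ y ∈ bo a (fun _ => n),
    c ≤ cf (bo a (fun _ => n)) β x y

/-- Long range order in free slabs of thickness `K`. -/
def SLAB (d : ℕ) (β : ℝ) : Prop :=
  ∃ c : ℝ, 0 < c ∧ ∃ K : ℕ, 2 ≤ K ∧ ∀ (k0 : Fin d) (a : Vx d) (L : ℕ), K ≤ L →
    ∀ x ∈ bo a (fun k => if k = k0 then K else L), ∀ y ∈ bo a (fun k => if k = k0 then K else L),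
      c ≤ cf (bo a (fun k => if k = k0 then K else L)) β x y

/-- Long range order in free cubic shells of thickness `K`. -/
def SHELL (d : ℕ) (β : ℝ) : Prop :=
  ∃ c : ℝ, 0 < c ∧ ∃ K : ℕ, 1 ≤ K ∧ ∀ (o : Vx d) (r : ℕ),
    ∀ x ∈ shell o r K, ∀ y ∈ shell o r K, c ≤ cf (shell o r K) β x y

/-- Long range order in the free shells of thickness `K` around boxes of bounded aspect ratio. -/
def SHELLP (d : ℕ) (β : ℝ) : Prop :=
  ∃ K : ℕ, 2 ≤ K ∧ ∀ M : ℕ, ∃ c : ℝ, 0 < c ∧ ∀ (a b : Vx d) (L : ℕ), K ≤ L →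
    (∀ k, (L : ℤ) ≤ b k - a k ∧ b k - a k ≤ (M : ℤ) * L) →
    ∀ x ∈ Finset.Icc (fun k => a k - (K : ℤ)) (fun k => b k + (K : ℤ)) \ Finset.Icc a b,
    ∀ y ∈ Finset.Icc (fun k => a k - (K : ℤ)) (fun k => b k + (K : ℤ)) \ Finset.Icc a b,
      c ≤ cf (Finset.Icc (fun k => a k - (K : ℤ)) (fun k => b k + (K : ℤ)) \ Finset.Icc a b) β x y

/-! ## Boxes with a set `P` of long directions

`Db P q a s`: side `s` (from `a k`) in the directions `k ∈ P`, and `[0, 4q)` in the other ones.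
`Cb P q a s`: side `s` (from `a k`) in the directions `k ∈ P`, and the core `[q, 3q)` in the others. -/

noncomputable def Db (P : Finset (Fin d)) (q : ℕ) (a : Vx d) (s : ℕ) : Finset (Vx d) :=
  bo (fun k => if k ∈ P then a k else 0) (fun k => if k ∈ P then s else 4 * q)

noncomputable def Cb (P : Finset (Fin d)) (q : ℕ) (a : Vx d) (s : ℕ) : Finset (Vx d) :=
  bo (fun k => if k ∈ P then a k else (q : ℤ)) (fun k => if k ∈ P then s else 2 * q)

/-- `⟨M_A²⟩ ≥ u |A|²` for the core pieces of side `2t` in the domains of side `4t` -/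
def UU (P : Finset (Fin d)) (q : ℕ) (β u : ℝ) (t : ℕ) : Prop :=
  ∀ a : Vx d, u * ((Cb P q a (2 * t)).card : ℝ) ^ 2 ≤
    kk (Db P q (fun k => a k - (t : ℤ)) (4 * t)) β (Cb P q a (2 * t)) (Cb P q a (2 * t))

/-- `⟨σ_i M_A⟩ ≥ c |A|` for every `i ∈ A`, `A` a core piece of side `2t` in the domain of side `4t` -/
def MB (P : Finset (Fin d)) (q : ℕ) (β c : ℝ) (t : ℕ) : Prop :=
  ∀ a : Vx d, ∀ i ∈ Cb P q a (2 * t), c * ((Cb P q a (2 * t)).card : ℝ) ≤
    mm (Db P q (fun k => a k - (t : ℤ)) (4 * t)) β (Cb P q a (2 * t)) i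

lemma mem_Db {P : Finset (Fin d)} {q : ℕ} {a : Vx d} {s : ℕ} {x : Vx d} :
    x ∈ Db P q a s ↔ ∀ k, (k ∈ P → a k ≤ x k ∧ x k < a k + s) ∧ (k ∉ P → 0 ≤ x k ∧ x k < 4 * q) := by
  unfold Db
  rw [mem_bo]
  refine forall_congr' fun k => ?_
  by_cases h : k ∈ P
  · simp [h]
  · simp [h]

lemma mem_Cb {P : Finset (Fin d)} {q : ℕ} {a : Vx d} {s : ℕ} {x : Vx d} :
    x ∈ Cb P q a s ↔ ∀ k, (k ∈ P → a k ≤ x k ∧ x k < a k + s) ∧
      (k ∉ P → (q : ℤ) ≤ x k ∧ x k < 3 * q) := by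
  unfold Cb
  rw [mem_bo]
  refine forall_congr' fun k => ?_
  by_cases h : k ∈ P
  · simp [h]
  · simp only [h, if_false, not_false_eq_true, false_imp_iff, true_imp_iff, true_and]
    push_cast
    constructor
    · rintro ⟨h1, h2⟩
      exact ⟨h1, by linarith⟩
    · rintro ⟨h1, h2⟩
      exact ⟨h1, by linarith⟩

lemma card_Cb (P : Finset (Fin d)) (q : ℕ) (a : Vx d) (s : ℕ) :
    ((Cb P q a s).card : ℝ) = (s : ℝ) ^ P.card * (2 * q : ℝ) ^ (d - P.card) := by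
  unfold Cb
  rw [card_bo]
  have h1 : ∀ k : Fin d, (((if k ∈ P then s else 2 * q : ℕ)) : ℝ) =
      if k ∈ P then (s : ℝ) else (2 * q : ℝ) := by
    intro k
    split_ifs <;> push_cast <;> rfl
  simp only [h1]
  rw [Finset.prod_ite]
  simp only [Finset.prod_const]
  congr 2
  · congr 1
    ext k
    simp
  · have h2 : (Finset.univ.filter (fun k : Fin d => k ∉ P)) = Pᶜ := by
      ext k
      simp
    rw [h2, Finset.card_compl, Fintype.card_fin]

lemma mem_cb {o : Vx d} {R : ℕ} {x : Vx d} : x ∈ cb o R ↔ ∀ k, o k - R ≤ x k ∧ x k ≤ o k + R := by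
  unfold cb
  rw [Finset.mem_Icc]
  constructor
  · rintro ⟨h1, h2⟩ k
    exact ⟨h1 k, h2 k⟩
  · intro h
    exact ⟨fun k => (h k).1, fun k => (h k).2⟩

end Pool.Agent.Slb
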