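import Pool.Agent.Slb.Cube

/-!
# Slb: slabs (rows s1..s10)

`hC` is `CUBE` with the constant `c1` made explicit.
-/

set_option autoImplicit false

namespace Pool.Agent.Slb

open Finset Pool.Agent.SRC Pool.Agent.TC

variable {d : ℕ}

/-- `CUBE` with its constant -/
def CU (d : ℕ) (β c1 : ℝ) : Prop :=
  ∀ (a : Vx d) (n : ℕ), 1 ≤ n → ∀ x ∈ bo a (fun _ => n), ∀ y ∈ bo a (fun _ => n),
    c1 ≤ cf (bo a (fun _ => n)) β x y

/-! ## row s1 -/

private theorem s1_kk {β : ℝ} (hβ : 0 ≤ β) {c1 : ℝ} (hC : CU d β c1) {D A : Finset (Vx d)}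
    {a' : Vx d} {n : ℕ} (hn : 1 ≤ n) (hA : A ⊆ bo a' (fun _ => n)) (hD : bo a' (fun _ => n) ⊆ D) :
    c1 * (A.card : ℝ) ^ 2 ≤ kk D β A A := by
  have h1 : ∀ x ∈ A, ∀ y ∈ A, c1 ≤ cf D β x y := fun x hx y hy =>
    (hC a' n hn x (hA hx) y (hA hy)).trans
      (cf_mono _ _ hD β β hβ le_rfl x y (hA hx) (hA hy))
  unfold kk mm
  have h2 : ∑ x ∈ A, ∑ _y ∈ A, c1 ≤ ∑ x ∈ A, ∑ y ∈ A, cf D β x y :=
    Finset.sum_le_sum fun x hx => Finset.sum_le_sum fun y hy => h1 x hx y hy
  refine le_trans (le_of_eq ?_) h2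
  rw [Finset.sum_const, Finset.sum_const, nsmul_eq_mul, nsmul_eq_mul]
  ring

/-- The core piece of side `2 q` (resp. `4 q`) is contained in a cube of side `4 q` of the domain. -/
theorem uu_base (P : Finset (Fin d)) (q : ℕ) (hq : 1 ≤ q) (β : ℝ) (hβ : 0 ≤ β) (c1 : ℝ)
    (hC : CU d β c1) : UU P q β c1 q ∧ UU P q β c1 (2 * q) := by
  constructor
  · intro a
    refine s1_kk hβ hC (a' := fun k => if k ∈ P then a k - (q : ℤ) else 0) (n := 4 * q)
      (by omega) ?_ ?_
    · intro x hx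
      rw [mem_Cb] at hx
      rw [mem_bo]
      intro k
      have h := hx k
      by_cases hk : k ∈ P
      · have h1 := h.1 hk
        rw [if_pos hk]
        push_cast at h1 ⊢
        constructor <;> linarith [h1.1, h1.2]
      · have h1 := h.2 hk
        rw [if_neg hk]
        push_cast
        constructor <;> linarith [h1.1, h1.2]
    · intro x hx
      rw [mem_bo] at hx
      rw [mem_Db]
      intro k
      have h := hx k
      constructor
      · intro hk
        rw [if_pos hk] at h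
        exact h
      · intro hk
        rw [if_neg hk] at h
        push_cast at h
        constructor <;> linarith [h.1, h.2]
  · intro a
    refine s1_kk hβ hC (a' := fun k => if k ∈ P then a k else 0) (n := 4 * q)
      (by omega) ?_ ?_
    · intro x hx
      rw [mem_Cb] at hx
      rw [mem_bo]
      intro k
      have h := hx k
      by_cases hk : k ∈ P
      · have h1 := h.1 hk
        rw [if_pos hk]
        push_cast at h1 ⊢
        constructor <;> linarith [h1.1, h1.2]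
      · have h1 := h.2 hk
        rw [if_neg hk]
        push_cast
        constructor <;> linarith [h1.1, h1.2]
    · intro x hx
      rw [mem_bo] at hx
      rw [mem_Db]
      intro k
      have h := hx k
      constructor
      · intro hk
        rw [if_pos hk] at h
        push_cast at h ⊢
        constructor <;> linarith [h.1, h.2]
      · intro hk
        rw [if_neg hk] at h
        push_cast at h
        constructor <;> linarith [h.1, h.2]

/-! ## row s2 -/

/-- `mb_of_point` with `4 t`. Given `i = (p, z)`: `mm_exists` for the piece `A'' = Cb P q a (2 t)` (any `a`,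
e.g. `a = 0`) in `D'' = Db P q (a - t) (4 t)` gives `i0 = (p0, z0)` with `mm D'' A'' i0 ≥ u |A''|`. Translate by
`b = p - p0` in the directions of `P` (`cf_Db_add`): `D'' + b ⊆ Lam P q i (4 t)`, `A'' + b ⊆ Ysh P q i (4 t)`;
`cf i y ≥ cf i (p, z0) · cf (p, z0) y ≥ c1 cf D'' i0 (y - b)` (`cf_mul_le`, `hC` for the cube of side `4 q` with
lower corner `(p, 0)`, `cf_mono`). `|A''| = (2 t)^|P| (2 q)^(d - |P|)`. -/
theorem mb_of_uu (P : Finset (Fin d)) (q : ℕ) (hq : 1 ≤ q) (β : ℝ) (hβ : 0 ≤ β) (c1 u : ℝ)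
    (hc1 : 0 ≤ c1) (hu : 0 ≤ u) (hC : CU d β c1) (t : ℕ) (ht : q ≤ t) (hU : UU P q β u t) :
    MB P q β (c1 * u / 8 ^ d) (4 * t) := by
  classical
  have ht1 : 1 ≤ t := hq.trans ht
  refine mb_of_point P q hq β hβ (4 * t) (by omega) _ ?_
  intro i hi
  set A : Finset (Vx d) := Cb P q (0 : Vx d) (2 * t) with hA
  set D : Finset (Vx d) := Db P q (fun k => (0 : Vx d) k - (t : ℤ)) (4 * t) with hD
  have hAne : A.Nonempty := by
    refine ⟨fun k => if k ∈ P then 0 else (q : ℤ), ?_⟩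
    rw [hA, mem_Cb]
    intro k
    refine ⟨fun hk => ?_, fun hk => ?_⟩
    · simp only [hk, if_true, Pi.zero_apply]
      push_cast
      exact ⟨trivial, by omega⟩
    · simp only [hk, if_false]
      omega
  obtain ⟨i0, hi0, hsum⟩ := mm_exists D β u hAne (hU 0)
  have hi0' := hi0
  rw [hA, mem_Cb] at hi0'
  -- the translation
  obtain ⟨b, hb⟩ : ∃ b : Vx d, b = fun k => if k ∈ P then i k - i0 k else 0 := ⟨_, rfl⟩
  have hbP : ∀ k, k ∉ P → b k = 0 := fun k hk => by rw [hb]; simp [hk]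
  have hbP' : ∀ k, k ∈ P → b k = i k - i0 k := fun k hk => by rw [hb]; simp [hk]
  obtain ⟨j, hj⟩ : ∃ j : Vx d, j = i0 + b := ⟨_, rfl⟩
  have hjP : ∀ k, k ∈ P → j k = i k := fun k hk => by
    rw [hj, Pi.add_apply, hbP' k hk]; ring
  have hjQ : ∀ k, k ∉ P → j k = i0 k := fun k hk => by
    rw [hj, Pi.add_apply, hbP k hk, add_zero]
  -- inclusions
  have hsub1 : Db P q (fun k => (fun k => (0 : Vx d) k - (t : ℤ)) k + b k) (4 * t) ⊆
      Lam P q i (4 * t) := by
    intro x hx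
    rw [mem_Db] at hx
    unfold Lam
    rw [mem_Db]
    intro k
    refine ⟨fun hk => ?_, fun hk => (hx k).2 hk⟩
    have h1 := (hx k).1 hk
    have h2 := (hi0' k).1 hk
    simp only [Pi.zero_apply] at h1 h2
    rw [hbP' k hk] at h1
    push_cast at h1 h2 ⊢
    omega
  have hsub2 : ∀ x ∈ A, x + b ∈ Ysh P q i (4 * t) := by
    intro x hx
    rw [hA, mem_Cb] at hx
    unfold Ysh
    rw [mem_Cb]
    intro k
    refine ⟨fun hk => ?_, fun hk => ?_⟩
    · have h1 := (hx k).1 hk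
      have h2 := (hi0' k).1 hk
      simp only [Pi.zero_apply] at h1 h2
      rw [Pi.add_apply, hbP' k hk]
      have h3 : ((2 * (4 * t) - 1 : ℕ) : ℤ) = 8 * (t : ℤ) - 1 := by omega
      rw [h3]
      push_cast at h1 h2 ⊢
      omega
    · rw [Pi.add_apply, hbP k hk, add_zero]
      exact (hx k).2 hk
  have hAD : A ⊆ D := by
    intro x hx
    rw [hA, mem_Cb] at hx
    rw [hD, mem_Db]
    intro k
    refine ⟨fun hk => ?_, fun hk => ?_⟩
    · have h1 := (hx k).1 hk
      simp only [Pi.zero_apply] at h1 ⊢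
      push_cast at h1 ⊢
      omega
    · have h1 := (hx k).2 hk
      omega
  -- the cube of side `4 q`
  obtain ⟨a', ha'⟩ : ∃ a' : Vx d, a' = fun k => if k ∈ P then i k else 0 := ⟨_, rfl⟩
  have hcube : bo a' (fun _ => 4 * q) ⊆ Lam P q i (4 * t) := by
    intro x hx
    rw [mem_bo] at hx
    unfold Lam
    rw [mem_Db]
    intro k
    have h1 := hx k
    refine ⟨fun hk => ?_, fun hk => ?_⟩
    · rw [ha'] at h1
      simp only [hk, if_true] at h1
      push_cast at h1 ⊢
      omega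
    · rw [ha'] at h1
      simp only [hk, if_false] at h1
      push_cast at h1 ⊢
      omega
  have hic : i ∈ bo a' (fun _ => 4 * q) := by
    rw [mem_bo]
    intro k
    rw [ha']
    by_cases hk : k ∈ P
    · simp only [hk, if_true]
      push_cast
      omega
    · have h1 := hi k hk
      simp only [hk, if_false]
      push_cast
      omega
  have hjc : j ∈ bo a' (fun _ => 4 * q) := by
    rw [mem_bo]
    intro k
    rw [ha']
    by_cases hk : k ∈ P
    · rw [hjP k hk]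
      simp only [hk, if_true]
      push_cast
      omega
    · have h1 := (hi0' k).2 hk
      rw [hjQ k hk]
      simp only [hk, if_false]
      push_cast
      omega
  have hij : c1 ≤ cf (Lam P q i (4 * t)) β i j :=
    (hC a' (4 * q) (by omega) i hic j hjc).trans
      (cf_mono _ _ hcube β β hβ le_rfl i j hic hjc)
  -- one term
  have hterm : ∀ x ∈ A, c1 * cf D β i0 x ≤ cf (Lam P q i (4 * t)) β i (x + b) := by
    intro x hx
    have h1 : cf D β i0 x ≤ cf (Lam P q i (4 * t)) β j (x + b) := by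
      have h2 := cf_Db_add P q (fun k => (0 : Vx d) k - (t : ℤ)) b hbP (4 * t) β i0 x
      rw [hD, ← h2, hj]
      refine cf_mono _ _ hsub1 β β hβ le_rfl _ _ ?_ ?_
      · have h3 := hAD hi0
        rw [hD, mem_Db] at h3
        rw [mem_Db]
        intro k
        refine ⟨fun hk => ?_, fun hk => ?_⟩
        · have h4 := (h3 k).1 hk
          simp only [Pi.add_apply] at h4 ⊢
          constructor
          · linarith [h4.1]
          · linarith [h4.2]
        · rw [Pi.add_apply, hbP k hk, add_zero]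
          exact (h3 k).2 hk
      · have h3 := hAD hx
        rw [hD, mem_Db] at h3
        rw [mem_Db]
        intro k
        refine ⟨fun hk => ?_, fun hk => ?_⟩
        · have h4 := (h3 k).1 hk
          simp only [Pi.add_apply] at h4 ⊢
          constructor
          · linarith [h4.1]
          · linarith [h4.2]
        · rw [Pi.add_apply, hbP k hk, add_zero]
          exact (h3 k).2 hk
    have h2 : 0 ≤ cf D β i0 x := cf_nonneg _ _ hβ _ _
    calc c1 * cf D β i0 x ≤ c1 * cf (Lam P q i (4 * t)) β j (x + b) :=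
          mul_le_mul_of_nonneg_left h1 hc1
      _ ≤ cf (Lam P q i (4 * t)) β i j * cf (Lam P q i (4 * t)) β j (x + b) :=
          mul_le_mul_of_nonneg_right hij (h2.trans h1)
      _ ≤ cf (Lam P q i (4 * t)) β i (x + b) := cf_mul_le _ _ hβ _ _ _
  have hfin : c1 * (u * (A.card : ℝ)) ≤ ∑ y ∈ Ysh P q i (4 * t), cf (Lam P q i (4 * t)) β i y := by
    calc c1 * (u * (A.card : ℝ)) ≤ c1 * mm D β A i0 := mul_le_mul_of_nonneg_left hsum hc1
      _ = ∑ x ∈ A, c1 * cf D β i0 x := by unfold mm; rw [Finset.mul_sum]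
      _ ≤ ∑ x ∈ A, cf (Lam P q i (4 * t)) β i (x + b) := Finset.sum_le_sum hterm
      _ = ∑ y ∈ A.image (fun x => x + b), cf (Lam P q i (4 * t)) β i y := by
          rw [Finset.sum_image]
          intro x _ y _ hxy
          exact add_right_cancel hxy
      _ ≤ ∑ y ∈ Ysh P q i (4 * t), cf (Lam P q i (4 * t)) β i y := by
          refine Finset.sum_le_sum_of_subset_of_nonneg ?_ (fun y _ _ => cf_nonneg _ _ hβ _ _)
          intro y hy
          obtain ⟨x, hx, rfl⟩ := Finset.mem_image.1 hy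
          exact hsub2 x hx
  refine le_trans ?_ hfin
  rw [hA, card_Cb]
  have h8 : (0 : ℝ) < 8 ^ d := by positivity
  have hPd : P.card ≤ d := by
    have h1 := Finset.card_le_univ P
    rwa [Fintype.card_fin] at h1
  have h9 : (8 : ℝ) ^ P.card ≤ 8 ^ d := pow_le_pow_right₀ (by norm_num) hPd
  have hX : (0 : ℝ) ≤ (t : ℝ) ^ P.card * (2 * q : ℝ) ^ (d - P.card) := by positivity
  have hL : (2 : ℝ) ^ P.card * (c1 * u / 8 ^ d) *
      ((2 * ((4 * t : ℕ) : ℝ)) ^ P.card * (2 * q : ℝ) ^ (d - P.card)) =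
      c1 * u * (2 ^ P.card * ((8 : ℝ) ^ P.card / 8 ^ d)) *
        ((t : ℝ) ^ P.card * (2 * q : ℝ) ^ (d - P.card)) := by
    push_cast
    rw [show (2 : ℝ) * (4 * t) = 8 * t by ring, mul_pow 8 (t : ℝ)]
    field_simp
  have hR : c1 * (u * (((2 * t : ℕ) : ℝ) ^ P.card * (2 * q : ℝ) ^ (d - P.card))) =
      c1 * u * (2 ^ P.card * 1) * ((t : ℝ) ^ P.card * (2 * q : ℝ) ^ (d - P.card)) := by
    push_cast
    rw [mul_pow 2 (t : ℝ)]
    ring
  rw [hL, hR]
  refine mul_le_mul_of_nonneg_right ?_ hX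
  refine mul_le_mul_of_nonneg_left ?_ (mul_nonneg hc1 hu)
  refine mul_le_mul_of_nonneg_left ?_ (by positivity)
  rw [div_le_one h8]
  exact h9

/-! ## row s3 -/

/-- lower corner of the piece with index `E` -/
private def s3_a (a : Vx d) (t : ℕ) (E : Finset (Fin d)) : Vx d :=
  fun k => if k ∈ E then a k + 2 * (t : ℤ) else a k

private lemma s3_a_mem (a : Vx d) (t : ℕ) (E : Finset (Fin d)) (k : Fin d) (h : k ∈ E) :
    s3_a a t E k = a k + 2 * (t : ℤ) := by
  simp [s3_a, h]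

private lemma s3_a_not (a : Vx d) (t : ℕ) (E : Finset (Fin d)) (k : Fin d) (h : k ∉ E) :
    s3_a a t E k = a k := by
  simp [s3_a, h]

private lemma s3_fil (P : Finset (Fin d)) (q : ℕ) (a : Vx d) (t : ℕ) (E : Finset (Fin d))
    (hE : E ⊆ P) : Cb P q (s3_a a t E) (2 * t) =
      (Cb P q a (2 * (2 * t))).filter
        (fun x => P.filter (fun k => a k + 2 * (t : ℤ) ≤ x k) = E) := by
  ext x
  rw [mem_filter, mem_Cb, mem_Cb]
  constructor
  · intro h
    refine ⟨fun k => ⟨fun hk => ?_, (h k).2⟩, ?_⟩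
    · have h1 := (h k).1 hk
      by_cases hkE : k ∈ E
      · rw [s3_a_mem a t E k hkE] at h1
        push_cast at h1 ⊢
        omega
      · rw [s3_a_not a t E k hkE] at h1
        push_cast at h1 ⊢
        omega
    · ext k
      rw [mem_filter]
      constructor
      · rintro ⟨hk, h2⟩
        by_contra hkE
        have h1 := (h k).1 hk
        rw [s3_a_not a t E k hkE] at h1
        push_cast at h1
        omega
      · intro hkE
        have h1 := (h k).1 (hE hkE)
        rw [s3_a_mem a t E k hkE] at h1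
        exact ⟨hE hkE, h1.1⟩
  · rintro ⟨h, h2⟩ k
    refine ⟨fun hk => ?_, (h k).2⟩
    have h1 := (h k).1 hk
    by_cases hkE : k ∈ E
    · rw [s3_a_mem a t E k hkE]
      rw [← h2, mem_filter] at hkE
      have h3 := hkE.2
      push_cast at h1 ⊢
      omega
    · rw [s3_a_not a t E k hkE]
      have h3 : ¬ (a k + 2 * (t : ℤ) ≤ x k) := by
        intro h3
        apply hkE
        rw [← h2, mem_filter]
        exact ⟨hk, h3⟩
      push_cast at h1 ⊢
      omega

private lemma s3_sum (P : Finset (Fin d)) (q : ℕ) (a : Vx d) (t : ℕ) (f : Vx d → ℝ) :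
    ∑ E ∈ P.powerset, ∑ x ∈ Cb P q (s3_a a t E) (2 * t), f x =
      ∑ x ∈ Cb P q a (2 * (2 * t)), f x := by
  rw [← Finset.sum_fiberwise_of_maps_to (s := Cb P q a (2 * (2 * t))) (t := P.powerset)
    (g := fun x => P.filter (fun k => a k + 2 * (t : ℤ) ≤ x k))
    (fun x _ => by rw [mem_powerset]; exact filter_subset _ _) f]
  refine sum_congr rfl fun E hE => ?_
  rw [s3_fil P q a t E (mem_powerset.mp hE)]

private lemma s3_dom (P : Finset (Fin d)) (q : ℕ) (a : Vx d) (t : ℕ) (E : Finset (Fin d)) :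
    Db P q (fun k => s3_a a t E k - (t : ℤ)) (4 * t) ⊆
      Db P q (fun k => a k - ((2 * t : ℕ) : ℤ)) (4 * (2 * t)) := by
  intro x hx
  rw [mem_Db] at hx ⊢
  intro k
  refine ⟨fun hk => ?_, (hx k).2⟩
  have h1 := (hx k).1 hk
  by_cases hkE : k ∈ E
  · rw [s3_a_mem a t E k hkE] at h1
    push_cast at h1 ⊢
    omega
  · rw [s3_a_not a t E k hkE] at h1
    push_cast at h1 ⊢
    omega

private lemma s3_core (P : Finset (Fin d)) (q : ℕ) (a : Vx d) (t : ℕ) :
    Cb P q a (2 * t) ⊆ Db P q (fun k => a k - (t : ℤ)) (4 * t) := by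
  intro x hx
  rw [mem_Cb] at hx
  rw [mem_Db]
  intro k
  refine ⟨fun hk => ?_, fun hk => ?_⟩
  · have h1 := (hx k).1 hk
    push_cast at h1 ⊢
    omega
  · have h1 := (hx k).2 hk
    omega

private lemma s3_mv (S A' : Finset (Vx d)) (AE : Finset (Fin d) → Finset (Vx d))
    (I : Finset (Finset (Fin d))) (b0 b1 : ℝ) (hb0 : 0 ≤ b0) (hb : b0 < b1) (η : ℝ) (hη : 0 < η)
    (hpc : ∀ E ∈ I, ∀ b, b0 ≤ b → ∃ D : ℝ,
      HasDerivAt (fun b => kk S b (AE E) A' / (((AE E).card : ℝ) * (A'.card : ℝ))) D b ∧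
      0 ≤ 1 - cor S b (AE E) A' ^ 2 ∧ 1 - cor S b (AE E) A' ^ 2 ≤ η * D) :
    ∃ b ∈ Set.Icc b0 b1, ∑ E ∈ I, Real.sqrt (1 - cor S b (AE E) A' ^ 2) ≤
      (∑ _E ∈ I, Real.sqrt η) / Real.sqrt (b1 - b0) := by
  refine mean_val I b0 b1 hb
    (fun E b => kk S b (AE E) A' / (((AE E).card : ℝ) * (A'.card : ℝ)))
    (fun E b => deriv (fun b => kk S b (AE E) A' / (((AE E).card : ℝ) * (A'.card : ℝ))) b)
    (fun E b => 1 - cor S b (AE E) A' ^ 2) (fun _ => η) (fun _ _ => hη) ?_ ?_ ?_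
  · intro E hE b hbI
    obtain ⟨D, hD, _, _⟩ := hpc E hE b hbI.1
    exact hD.differentiableAt.hasDerivAt
  · intro E hE b hbI
    have h0 : 0 ≤ b := le_trans hb0 hbI.1
    have h1 : 0 ≤ kk S b (AE E) A' := kk_nonneg S b h0 _ _
    have h2 : kk S b (AE E) A' ≤ ((AE E).card : ℝ) * (A'.card : ℝ) := kk_le S b _ _
    have h3 : 0 ≤ ((AE E).card : ℝ) * (A'.card : ℝ) := by positivity
    exact ⟨div_nonneg h1 h3, div_le_one_of_le₀ h2 h3⟩
  · intro E hE b hbI
    obtain ⟨D, hD, h1, h2⟩ := hpc E hE b hbI.1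
    refine ⟨h1, ?_⟩
    have h3 : deriv (fun b => kk S b (AE E) A' / (((AE E).card : ℝ) * (A'.card : ℝ))) b = D :=
      hD.deriv
    rw [← h3] at h2
    exact h2

private lemma s3_end {ι : Type} (I : Finset ι) (cd V K r : ι → ℝ) (u δ V' C' : ℝ) (hu : 0 < u)
    (hδ : δ ≤ 1) (hV' : 0 < V') (hcd : ∀ E ∈ I, 0 < cd E) (hV : ∀ E ∈ I, u * cd E ^ 2 ≤ V E)
    (hK : ∀ E ∈ I, K E = r E * (Real.sqrt (V E) * Real.sqrt V'))
    (hr : ∀ E ∈ I, 1 - δ ≤ r E) (hr0 : ∀ E ∈ I, 0 ≤ r E) (hs : ∑ E ∈ I, K E = V')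
    (hcs : ∑ E ∈ I, cd E = C') : (1 - δ) ^ 2 * u * C' ^ 2 ≤ V' := by
  have hsV : 0 < Real.sqrt V' := Real.sqrt_pos.mpr hV'
  have hsu : 0 ≤ Real.sqrt u := Real.sqrt_nonneg u
  have h7 : 0 ≤ 1 - δ := by linarith
  have hterm : ∀ E ∈ I, (1 - δ) * Real.sqrt u * Real.sqrt V' * cd E ≤ K E := by
    intro E hE
    have h1 := hV E hE
    have hcp := hcd E hE
    have h5 : Real.sqrt u * cd E ≤ Real.sqrt (V E) := by
      have h6 := Real.sqrt_le_sqrt h1
      rw [Real.sqrt_mul hu.le, Real.sqrt_sq hcp.le] at h6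
      exact h6
    have h8 := hr E hE
    have h9 := hr0 E hE
    have h10 : 0 ≤ (Real.sqrt u * cd E) * Real.sqrt V' :=
      mul_nonneg (mul_nonneg hsu hcp.le) hsV.le
    rw [hK E hE]
    calc (1 - δ) * Real.sqrt u * Real.sqrt V' * cd E
        = (1 - δ) * ((Real.sqrt u * cd E) * Real.sqrt V') := by ring
      _ ≤ r E * ((Real.sqrt u * cd E) * Real.sqrt V') :=
          mul_le_mul_of_nonneg_right h8 h10
      _ ≤ r E * (Real.sqrt (V E) * Real.sqrt V') :=
          mul_le_mul_of_nonneg_left (mul_le_mul_of_nonneg_right h5 hsV.le) h9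
  have hC : 0 ≤ C' := by
    rw [← hcs]
    exact Finset.sum_nonneg fun E hE => (hcd E hE).le
  have hfin : (1 - δ) * Real.sqrt u * C' ≤ Real.sqrt V' := by
    have h1 := Finset.sum_le_sum hterm
    rw [hs, ← Finset.mul_sum, hcs] at h1
    have h2 : Real.sqrt V' * Real.sqrt V' = V' := Real.mul_self_sqrt hV'.le
    have h3 : (1 - δ) * Real.sqrt u * C' * Real.sqrt V' ≤ Real.sqrt V' * Real.sqrt V' := by
      rw [h2]
      linarith
    exact le_of_mul_le_mul_right h3 hsV
  have h0 : 0 ≤ (1 - δ) * Real.sqrt u * C' := mul_nonneg (mul_nonneg h7 hsu) hC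
  have h10 := pow_le_pow_left₀ h0 hfin 2
  rw [Real.sq_sqrt hV'.le, mul_pow, mul_pow, Real.sq_sqrt hu.le] at h10
  exact h10

/-- `A' = Cb P q a (4 t)` is the disjoint union of the `2^|P|` pieces `A_e = Cb P q (a + 2 t e) (2 t)`,
`e ∈ {0, 1}^P`, with `kk A_e A_e ≥ u |A_e|²` (in the domain `D'` of `A'`, by `kk_dom`). `pair_cor` for the pairs
`(A_e, A')` with `N = 4 t`, `v = u`, `η = 4 / (c³ u t)`, and `mean_val` (or the mean value theorem for the sum):
at some `β` in `[b0, b1]`: `∑_e √(1 - cor²) ≤ 2^d √(η / (b1 - b0))`. So `1 - cor² ≤ 4^d η / (b1 - b0) ≤ δ`,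
`cor ≥ 1 - δ`, `V' = ∑_e kk A_e A' ≥ (1 - δ) √V' ∑_e √V_e ≥ (1 - δ) √V' √u |A'|`, hence
`V' ≥ (1 - δ)² u |A'|²`. -/
theorem uu_step (P : Finset (Fin d)) (hP : 2 ≤ P.card) (q : ℕ) (hq : 1 ≤ q) (b0 b1 : ℝ)
    (hb0 : 0 ≤ b0) (hb : b0 < b1) (c u δ : ℝ) (hc : 0 < c) (hu : 0 < u) (t : ℕ) (ht : q ≤ t)
    (hU : UU P q b0 u t) (hM : MB P q b0 c (2 * t)) (hδ1 : δ ≤ 1)
    (hδ : 4 ^ d * 4 ≤ δ * (c ^ 3 * u * t * (b1 - b0))) : UU P q b1 ((1 - δ) ^ 2 * u) (2 * t) := by
  classical
  intro a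
  have ht1 : 1 ≤ t := le_trans hq ht
  have htR : (1 : ℝ) ≤ (t : ℝ) := by exact_mod_cast ht1
  have hqR : (1 : ℝ) ≤ (q : ℝ) := by exact_mod_cast hq
  set A' := Cb P q a (2 * (2 * t)) with hA'
  set S := Db P q (fun k => a k - ((2 * t : ℕ) : ℤ)) (4 * (2 * t)) with hS
  set AE : Finset (Fin d) → Finset (Vx d) := fun E => Cb P q (s3_a a t E) (2 * t) with hAE
  have hA'S : A' ⊆ S := s3_core P q a (2 * t)
  have hsub : ∀ E ∈ P.powerset, AE E ⊆ A' := by
    intro E hE
    rw [hAE]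
    simp only
    rw [s3_fil P q a t E (mem_powerset.mp hE)]
    exact filter_subset _ _
  -- cardinalities
  set m : ℝ := (2 * (t : ℝ)) ^ P.card * (2 * (q : ℝ)) ^ (d - P.card) with hm
  have hcE : ∀ E, ((AE E).card : ℝ) = m := by
    intro E
    rw [hAE]
    simp only
    rw [card_Cb]
    push_cast
    rfl
  have hm4 : 4 * (t : ℝ) ^ 2 ≤ m := by
    have h1 : (2 * (t : ℝ)) ^ 2 ≤ (2 * (t : ℝ)) ^ P.card :=
      pow_le_pow_right₀ (by linarith) hP
    have h2 : (1 : ℝ) ≤ (2 * (q : ℝ)) ^ (d - P.card) := one_le_pow₀ (by linarith)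
    have h3 : 0 ≤ (2 * (t : ℝ)) ^ P.card := by positivity
    nlinarith [h1, h2, h3]
  have hmpos : 0 < m := by nlinarith [hm4, htR]
  have hne : ∀ E, (AE E).Nonempty := by
    intro E
    rw [← Finset.card_pos]
    have h1 : (0 : ℝ) < ((AE E).card : ℝ) := by rw [hcE E]; exact hmpos
    exact_mod_cast h1
  -- lower bounds at all `b ≥ b0`
  have hV : ∀ E ∈ P.powerset, ∀ b, b0 ≤ b → u * ((AE E).card : ℝ) ^ 2 ≤ kk S b (AE E) (AE E) := by
    intro E _ b hbb
    have h1 := hU (s3_a a t E)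
    exact le_trans h1 (kk_dom (s3_dom P q a t E) hb0 hbb (s3_core P q _ t) (s3_core P q _ t))
  have hmm : ∀ b, b0 ≤ b → ∀ i ∈ A', c * (A'.card : ℝ) ≤ mm S b A' i := by
    intro b hbb i hi
    exact le_trans (hM a i hi) (mm_dom (Subset.refl _) hb0 hbb hA'S (hA'S hi))
  have hbb1 : 0 < b1 - b0 := by linarith
  set η : ℝ := 4 / (c ^ 3 * u * t) with hη
  have hcut : 0 < c ^ 3 * u * t := by positivity
  have hηpos : 0 < η := by rw [hη]; positivity
  have hpc : ∀ E ∈ P.powerset, ∀ b, b0 ≤ b → ∃ D : ℝ,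
      HasDerivAt (fun b => kk S b (AE E) A' / (((AE E).card : ℝ) * (A'.card : ℝ))) D b ∧
      0 ≤ 1 - cor S b (AE E) A' ^ 2 ∧ 1 - cor S b (AE E) A' ^ 2 ≤ η * D := by
    intro E hE b hbb
    refine pair_cor S b (le_trans hb0 hbb) (fun k => if k ∈ P then a k else (q : ℤ))
      (fun k => if k ∈ P then 2 * (2 * t) else 2 * q) (4 * t) ?_ (AE E) (hsub E hE) (hne E) hA'S
      c u hc hu (hmm b hbb) (hV E hE b hbb) η ?_
    · intro k
      split_ifs <;> omega
    · rw [hcE E, hη]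
      have h1 : 4 / (c ^ 3 * u * t) * (c ^ 3 * u * m) = 4 * m / t := by
        field_simp
      rw [h1, le_div_iff₀ (by linarith)]
      push_cast
      nlinarith [hm4]
  obtain ⟨b, hbI, hbs⟩ := s3_mv S A' AE P.powerset b0 b1 hb0 hb η hηpos hpc
  have hb0' : b0 ≤ b := hbI.1
  have hbn : 0 ≤ b := le_trans hb0 hb0'
  -- every correlation is at least `1 - δ`
  have hcor : ∀ E ∈ P.powerset, 1 - δ ≤ cor S b (AE E) A' := by
    intro E hE
    obtain ⟨D, _, h1, _⟩ := hpc E hE b hb0'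
    have h2 : Real.sqrt (1 - cor S b (AE E) A' ^ 2) ≤
        ∑ E ∈ P.powerset, Real.sqrt (1 - cor S b (AE E) A' ^ 2) :=
      Finset.single_le_sum (f := fun E => Real.sqrt (1 - cor S b (AE E) A' ^ 2))
        (fun E _ => Real.sqrt_nonneg _) hE
    have h3 : Real.sqrt (1 - cor S b (AE E) A' ^ 2) ≤
        (2 ^ P.card * Real.sqrt η) / Real.sqrt (b1 - b0) := by
      refine le_trans (le_trans h2 hbs) (le_of_eq ?_)
      simp only [Finset.sum_const, Finset.card_powerset, nsmul_eq_mul]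
      push_cast
      rfl
    have h4 : 1 - cor S b (AE E) A' ^ 2 ≤ (2 ^ P.card) ^ 2 * η / (b1 - b0) := by
      have h5 := pow_le_pow_left₀ (Real.sqrt_nonneg _) h3 2
      rw [Real.sq_sqrt h1, div_pow, mul_pow, Real.sq_sqrt hηpos.le, Real.sq_sqrt hbb1.le] at h5
      exact h5
    have h6 : ((2 : ℝ) ^ P.card) ^ 2 ≤ 4 ^ d := by
      rw [← pow_mul, mul_comm, pow_mul]
      norm_num
      exact pow_le_pow_right₀ (by norm_num) (card_finset_fin_le P)
    have h7 : (2 ^ P.card) ^ 2 * η / (b1 - b0) ≤ δ := by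
      rw [div_le_iff₀ hbb1, hη]
      have h8 : ((2 : ℝ) ^ P.card) ^ 2 * (4 / (c ^ 3 * u * t)) ≤
          4 ^ d * (4 / (c ^ 3 * u * t)) :=
        mul_le_mul_of_nonneg_right h6 (by positivity)
      refine le_trans h8 ?_
      rw [mul_div_assoc', div_le_iff₀ hcut]
      linarith
    have h9 := cor_le_one S b (AE E) A'
    have h10 := cor_nonneg S b hbn (AE E) A'
    nlinarith [h4, h7, h9, h10]
  -- positivity
  have hE0 : (∅ : Finset (Fin d)) ∈ P.powerset := empty_mem_powerset P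
  have hV'pos : 0 < kk S b A' A' := by
    have h1 := hV ∅ hE0 b hb0'
    have h2 : kk S b (AE ∅) (AE ∅) ≤ kk S b A' A' := kk_mono S b hbn (hsub ∅ hE0) (hsub ∅ hE0)
    have h3 : 0 < u * ((AE ∅).card : ℝ) ^ 2 := by
      rw [hcE]
      exact mul_pos hu (pow_pos hmpos 2)
    linarith
  have hVsum : ∑ E ∈ P.powerset, kk S b (AE E) A' = kk S b A' A' := by
    unfold kk
    exact s3_sum P q a t (fun x => mm S b A' x)
  have hcsum : ∑ E ∈ P.powerset, ((AE E).card : ℝ) = (A'.card : ℝ) := by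
    have h1 := s3_sum P q a t (fun _ => (1 : ℝ))
    simpa using h1
  have hfin := s3_end P.powerset (fun E => ((AE E).card : ℝ)) (fun E => kk S b (AE E) (AE E))
    (fun E => kk S b (AE E) A') (fun E => cor S b (AE E) A') u δ (kk S b A' A') (A'.card : ℝ)
    hu hδ1 hV'pos (fun E _ => by rw [hcE]; exact hmpos) (fun E hE => hV E hE b hb0')
    (fun E hE => by
      have h1 := hV E hE b hb0'
      have h0 : 0 < u * ((AE E).card : ℝ) ^ 2 := by
        rw [hcE]
        exact mul_pos hu (pow_pos hmpos 2)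
      have h2 : 0 < kk S b (AE E) (AE E) := lt_of_lt_of_le h0 h1
      unfold cor
      rw [div_mul_cancel₀]
      exact (mul_pos (Real.sqrt_pos.mpr h2) (Real.sqrt_pos.mpr hV'pos)).ne')
    hcor (fun E _ => cor_nonneg S b hbn (AE E) A') hVsum hcsum
  exact le_trans hfin (kk_dom (Subset.refl _) hbn hbI.2 hA'S hA'S)

/-! ## row s4 -/

private lemma s4_sub (P : Finset (Fin d)) (q : ℕ) (a : Vx d) (t : ℕ) :
    Cb P q a (2 * t) ⊆ Db P q (fun k => a k - (t : ℤ)) (4 * t) := by
  intro x hx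
  rw [mem_Cb] at hx
  rw [mem_Db]
  intro k
  obtain ⟨h1, h2⟩ := hx k
  refine ⟨fun hk => ?_, fun hk => ?_⟩
  · obtain ⟨h3, h4⟩ := h1 hk
    push_cast at h4 ⊢
    constructor <;> linarith
  · obtain ⟨h3, h4⟩ := h2 hk
    constructor <;> linarith

/-- Monotonicity of `UU` and `MB` in `β` and in the constant. -/
lemma uu_mono (P : Finset (Fin d)) (q : ℕ) (b b' : ℝ) (hb : 0 ≤ b) (hb' : b ≤ b') (u u' : ℝ)
    (hu : u' ≤ u) (t : ℕ) (h : UU P q b u t) : UU P q b' u' t := by
  intro a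
  have hs := s4_sub P q a t
  refine le_trans (mul_le_mul_of_nonneg_right hu (by positivity)) ((h a).trans ?_)
  exact kk_dom (Finset.Subset.refl _) hb hb' hs hs

lemma mb_mono (P : Finset (Fin d)) (q : ℕ) (b b' : ℝ) (hb : 0 ≤ b) (hb' : b ≤ b') (c c' : ℝ)
    (hc : c' ≤ c) (t : ℕ) (h : MB P q b c t) : MB P q b' c' t := by
  intro a i hi
  have hs := s4_sub P q a t
  refine le_trans (mul_le_mul_of_nonneg_right hc (by positivity)) ((h a i hi).trans ?_)
  exact mm_dom (Finset.Subset.refl _) hb hb' hs (hs hi)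

lemma cu_mono (b b' : ℝ) (hb : 0 ≤ b) (hb' : b ≤ b') (c1 : ℝ) (h : CU d b c1) : CU d b' c1 := by
  intro a n hn x hx y hy
  exact (h a n hn x hx y hy).trans (cf_mono _ _ (Finset.Subset.refl _) _ _ hb hb' _ _ hx hy)

/-! ## row s5: all scales -/

/-- `ε_j = (b1 - b0) / 4 · (3/4)^j`, `β_j = b0 + ∑_{i<j} ε_i ≤ b1`, `δ_j = C / (q (3/2)^j)` with
`C = 4^{d+1} / (c³ (c1/2) (b1 - b0) / 4)`, `c = c1 (c1/2) / 8^d`. Claim `UU P q β_j u_j (q 2^j)` and
`UU P q β_j u_j (q 2^{j+1})` with `u_j = c1 (1 - 2 ∑_{i<j} δ_i) ≥ c1 / 2` (`q` large): `uu_base`, `mb_of_uu`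
(`MB (4 q 2^j)` from `UU (q 2^j)`), `uu_step`. -/
theorem uu_all (P : Finset (Fin d)) (hP : 2 ≤ P.card) (b0 b1 : ℝ) (hb0 : 0 ≤ b0) (hb : b0 < b1)
    (c1 : ℝ) (hc1 : 0 < c1) (hC : CU d b0 c1) :
    ∃ q0 : ℕ, 1 ≤ q0 ∧ ∀ q : ℕ, q0 ≤ q → ∀ j : ℕ, UU P q b1 (c1 / 2) (q * 2 ^ j) := by
  have hbb : 0 < b1 - b0 := by linarith
  obtain ⟨c, hcdef⟩ : ∃ c : ℝ, c = c1 * (c1 / 2) / 8 ^ d := ⟨_, rfl⟩
  have hc : 0 < c := by rw [hcdef]; positivity
  obtain ⟨D, hD, hDeq⟩ : ∃ D : ℝ, 0 < D ∧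
      D * (c ^ 3 * (c1 / 2) * ((b1 - b0) / 2)) = 4 ^ d * 4 := by
    refine ⟨4 ^ d * 4 / (c ^ 3 * (c1 / 2) * ((b1 - b0) / 2)), by positivity, ?_⟩
    exact div_mul_cancel₀ _ (by positivity)
  obtain ⟨q0, hq0⟩ := exists_nat_ge (12 * D)
  refine ⟨max 1 q0, le_max_left _ _, fun q hq j => ?_⟩
  have hq1 : 1 ≤ q := (le_max_left _ _).trans hq
  have hqR : (1 : ℝ) ≤ q := by exact_mod_cast hq1
  have hqpos : (0 : ℝ) < q := by linarith
  have hqD : 12 * D ≤ q := by
    refine hq0.trans ?_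
    exact_mod_cast (le_max_right _ _).trans hq
  obtain ⟨r, hrdef⟩ : ∃ r : ℝ, r = D / q := ⟨_, rfl⟩
  have hr0 : 0 < r := by rw [hrdef]; positivity
  have hr1 : 12 * r ≤ 1 := by
    rw [hrdef, ← mul_div_assoc, div_le_one hqpos]
    exact hqD
  obtain ⟨β, hβ⟩ : ∃ β : ℕ → ℝ, ∀ j, β j = b0 + (b1 - b0) * (1 - (3 / 4) ^ j) :=
    ⟨fun j => b0 + (b1 - b0) * (1 - (3 / 4) ^ j), fun _ => rfl⟩
  obtain ⟨u, hu⟩ : ∃ u : ℕ → ℝ, ∀ j, u j = c1 * (1 - 6 * r * (1 - (2 / 3) ^ j)) :=
    ⟨fun j => c1 * (1 - 6 * r * (1 - (2 / 3) ^ j)), fun _ => rfl⟩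
  have p34 : ∀ j : ℕ, (0 : ℝ) < (3 / 4) ^ j ∧ ((3 : ℝ) / 4) ^ j ≤ 1 := fun j =>
    ⟨by positivity, pow_le_one₀ (by norm_num) (by norm_num)⟩
  have p23 : ∀ j : ℕ, (0 : ℝ) < (2 / 3) ^ j ∧ ((2 : ℝ) / 3) ^ j ≤ 1 := fun j =>
    ⟨by positivity, pow_le_one₀ (by norm_num) (by norm_num)⟩
  have hβ0 : ∀ j, b0 ≤ β j := fun j => by
    rw [hβ]
    have h1 := mul_nonneg hbb.le (sub_nonneg.2 (p34 j).2)
    linarith
  have hβ1 : ∀ j, β j ≤ b1 := fun j => by
    rw [hβ]
    have h1 := mul_nonneg hbb.le (p34 j).1.le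
    linarith
  have hβs : ∀ j, β (j + 1) - β j = (b1 - b0) / 4 * (3 / 4) ^ j := fun j => by
    rw [hβ, hβ, pow_succ]
    ring
  have hβlt : ∀ j, β j < β (j + 1) := fun j => by
    have h1 := hβs j
    have h2 : 0 < (b1 - b0) / 4 * (3 / 4) ^ j := mul_pos (by linarith) (p34 j).1
    linarith
  have hule : ∀ j, u j ≤ c1 := fun j => by
    rw [hu]
    have h1 : 0 ≤ 6 * r * (1 - (2 / 3) ^ j) :=
      mul_nonneg (by linarith) (sub_nonneg.2 (p23 j).2)
    nlinarith
  have huge : ∀ j, c1 / 2 ≤ u j := fun j => by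
    rw [hu]
    have h1 : 6 * r * (1 - (2 / 3) ^ j) ≤ 1 / 2 := by
      have h2 : (1 : ℝ) - (2 / 3) ^ j ≤ 1 := by linarith [(p23 j).1]
      have h3 : 0 ≤ (1 : ℝ) - (2 / 3) ^ j := sub_nonneg.2 (p23 j).2
      nlinarith
    nlinarith
  have hus : ∀ j, u (j + 1) = u j - 2 * c1 * (r * (2 / 3) ^ j) := fun j => by
    rw [hu, hu, pow_succ]
    ring
  have key : ∀ j, UU P q (β j) (u j) (q * 2 ^ j) ∧ UU P q (β j) (u j) (q * 2 ^ (j + 1)) := by
    intro j
    induction j with
    | zero =>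
      have h1 : β 0 = b0 := by rw [hβ]; ring
      have h2 : u 0 = c1 := by rw [hu]; ring
      have h3 := uu_base P q hq1 b0 hb0 c1 hC
      rw [h1, h2, pow_zero, mul_one, zero_add, pow_one, mul_comm q 2]
      exact h3
    | succ j ih =>
      obtain ⟨ih1, ih2⟩ := ih
      have hj0 : 0 ≤ β j := hb0.trans (hβ0 j)
      have hCj : CU d (β j) c1 := cu_mono b0 (β j) hb0 (hβ0 j) c1 hC
      have hqt : q ≤ q * 2 ^ j := Nat.le_mul_of_pos_right q (by positivity)
      have hqt' : q ≤ q * 2 ^ (j + 1) := Nat.le_mul_of_pos_right q (by positivity)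
      have hu0 : 0 < u j := lt_of_lt_of_le (by linarith) (huge j)
      have hM := mb_of_uu P q hq1 (β j) hj0 c1 (u j) hc1.le hu0.le hCj (q * 2 ^ j) hqt ih1
      have hM2 : MB P q (β j) c (2 * (q * 2 ^ (j + 1))) := by
        have h1 : 2 * (q * 2 ^ (j + 1)) = 4 * (q * 2 ^ j) := by
          rw [pow_succ]
          ring
        rw [h1]
        refine mb_mono P q (β j) (β j) hj0 le_rfl _ _ ?_ _ hM
        rw [hcdef]
        have h2 := mul_le_mul_of_nonneg_left (huge j) hc1.le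
        exact div_le_div_of_nonneg_right h2 (by positivity)
      have hδ1 : r * (2 / 3) ^ j ≤ 1 := by
        have h1 := mul_le_mul_of_nonneg_left (p23 j).2 hr0.le
        linarith
      have hδ : (4 : ℝ) ^ d * 4 ≤ r * (2 / 3) ^ j *
          (c ^ 3 * u j * ((q * 2 ^ (j + 1) : ℕ) : ℝ) * (β (j + 1) - β j)) := by
        rw [hβs, ← hDeq]
        push_cast
        have h1 : r * (2 / 3) ^ j * (c ^ 3 * u j * (q * 2 ^ (j + 1)) * ((b1 - b0) / 4 * (3 / 4) ^ j))
            = (r * q) * (c ^ 3 * u j * ((b1 - b0) / 2)) * ((2 / 3) ^ j * 2 ^ j * (3 / 4) ^ j) := by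
          rw [pow_succ]
          ring
        have h2 : ((2 : ℝ) / 3) ^ j * 2 ^ j * (3 / 4) ^ j = 1 := by
          rw [← mul_pow, ← mul_pow]
          norm_num
        have h3 : r * q = D := by
          rw [hrdef]
          exact div_mul_cancel₀ _ hqpos.ne'
        rw [h1, h2, h3, mul_one]
        refine mul_le_mul_of_nonneg_left ?_ hD.le
        refine mul_le_mul_of_nonneg_right ?_ (by linarith)
        exact mul_le_mul_of_nonneg_left (huge j) (by positivity)
      have hS := uu_step P hP q hq1 (β j) (β (j + 1)) hj0 (hβlt j) c (u j) (r * (2 / 3) ^ j) hc hu0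
        (q * 2 ^ (j + 1)) hqt' ih2 hM2 hδ1 hδ
      have hule2 : u (j + 1) ≤ (1 - r * (2 / 3) ^ j) ^ 2 * u j := by
        rw [hus]
        have h1 : 0 ≤ r * (2 / 3) ^ j := mul_nonneg hr0.le (p23 j).1.le
        have h2 := mul_le_mul_of_nonneg_left (hule j) h1
        have h3 := mul_nonneg (mul_nonneg h1 h1) hu0.le
        nlinarith
      refine ⟨?_, ?_⟩
      · refine uu_mono P q (β j) (β (j + 1)) hj0 (hβlt j).le (u j) (u (j + 1)) ?_ _ ih2
        rw [hus]
        have h1 : 0 ≤ 2 * c1 * (r * (2 / 3) ^ j) :=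
          mul_nonneg (by linarith) (mul_nonneg hr0.le (p23 j).1.le)
        linarith
      · have h1 : q * 2 ^ (j + 1 + 1) = 2 * (q * 2 ^ (j + 1)) := by
          rw [pow_succ _ (j + 1)]
          ring
        rw [h1]
        exact uu_mono P q (β (j + 1)) (β (j + 1)) (hb0.trans (hβ0 _)) le_rfl _ _ hule2 _ hS
  exact uu_mono P q (β j) b1 (hb0.trans (hβ0 j)) (hβ1 j) (u j) (c1 / 2) (huge j) _ (key j).1

/-! ## row s6: walks in a slab -/

private lemma s6_step (P : Finset (Fin d)) (q : ℕ) (hq : 1 ≤ q) (β : ℝ) (hβ : 0 ≤ β) (c1 : ℝ)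
    (hC : CU d β c1) (n : ℕ) (hn : 4 * q ≤ n) (x y : Vx d)
    (hx : x ∈ Db P q 0 n) (hy : y ∈ Db P q 0 n) (h : ∀ k ∈ P, |x k - y k| ≤ q) :
    c1 ≤ cf (Db P q 0 n) β x y := by
  classical
  rw [mem_Db] at hx hy
  obtain ⟨a, ha⟩ : ∃ a : Vx d, a = fun k =>
      if k ∈ P then min (min (x k) (y k)) ((n : ℤ) - 4 * q) else 0 := ⟨_, rfl⟩
  have hsub : bo a (fun _ => 4 * q) ⊆ Db P q 0 n := by
    intro z hz
    rw [mem_bo] at hz
    rw [mem_Db]
    intro k
    have h1 := hz k
    rw [ha] at h1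
    refine ⟨fun hk => ?_, fun hk => ?_⟩
    · have h2 := (hx k).1 hk
      have h3 := (hy k).1 hk
      simp only [hk, if_true] at h1
      simp only [Pi.zero_apply] at h2 h3 ⊢
      push_cast at h1
      omega
    · simp only [hk, if_false] at h1
      push_cast at h1
      omega
  have hxa : x ∈ bo a (fun _ => 4 * q) := by
    rw [mem_bo]
    intro k
    rw [ha]
    by_cases hk : k ∈ P
    · have h2 := (hx k).1 hk
      have h3 := (hy k).1 hk
      have h4 := abs_le.1 (h k hk)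
      simp only [hk, if_true]
      simp only [Pi.zero_apply] at h2 h3
      push_cast
      omega
    · have h2 := (hx k).2 hk
      simp only [hk, if_false]
      push_cast
      omega
  have hya : y ∈ bo a (fun _ => 4 * q) := by
    rw [mem_bo]
    intro k
    rw [ha]
    by_cases hk : k ∈ P
    · have h2 := (hx k).1 hk
      have h3 := (hy k).1 hk
      have h4 := abs_le.1 (h k hk)
      simp only [hk, if_true]
      simp only [Pi.zero_apply] at h2 h3
      push_cast
      omega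
    · have h2 := (hy k).2 hk
      simp only [hk, if_false]
      push_cast
      omega
  exact (hC a (4 * q) (by omega) x hxa y hya).trans (cf_mono _ _ hsub β β hβ le_rfl x y hxa hya)

/-- Coordinates outside `P` jump in one step; the others move by at most `q` in every step; two
consecutive points are in a cube of side `4 q` of the slab. -/
theorem walk (P : Finset (Fin d)) (q : ℕ) (hq : 1 ≤ q) (β : ℝ) (hβ : 0 ≤ β) (c1 : ℝ)
    (hc1 : 0 ≤ c1) (hC : CU d β c1) (n : ℕ) (hn : 4 * q ≤ n) (w : ℕ) (x y : Vx d)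
    (hx : x ∈ Db P q 0 n) (hy : y ∈ Db P q 0 n) (h : ∀ k ∈ P, |x k - y k| ≤ w * q) :
    c1 ^ (w + 1) ≤ cf (Db P q 0 n) β x y := by
  classical
  induction w generalizing x with
  | zero =>
    rw [zero_add, pow_one]
    refine s6_step P q hq β hβ c1 hC n hn x y hx hy fun k hk => ?_
    have h1 := h k hk
    simp only [Nat.cast_zero, zero_mul] at h1
    exact h1.trans (Int.natCast_nonneg q)
  | succ w ih =>
    obtain ⟨z, hz⟩ : ∃ z : Vx d, z = fun k =>
        if k ∈ P then max (x k - q) (min (x k + q) (y k)) else y k := ⟨_, rfl⟩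
    have hzP : ∀ k ∈ P, z k = max (x k - q) (min (x k + q) (y k)) := fun k hk => by
      rw [hz]; simp [hk]
    have hzQ : ∀ k, k ∉ P → z k = y k := fun k hk => by rw [hz]; simp [hk]
    have hx' := hx
    have hy' := hy
    rw [mem_Db] at hx' hy'
    have hzD : z ∈ Db P q 0 n := by
      rw [mem_Db]
      intro k
      refine ⟨fun hk => ?_, fun hk => ?_⟩
      · have h2 := (hx' k).1 hk
        have h3 := (hy' k).1 hk
        rw [hzP k hk]
        simp only [Pi.zero_apply] at h2 h3 ⊢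
        omega
      · rw [hzQ k hk]
        exact (hy' k).2 hk
    have h1 : c1 ≤ cf (Db P q 0 n) β x z := by
      refine s6_step P q hq β hβ c1 hC n hn x z hx hzD fun k hk => ?_
      rw [hzP k hk, abs_le]
      omega
    have h2 : c1 ^ (w + 1) ≤ cf (Db P q 0 n) β z y := by
      refine ih z hzD fun k hk => ?_
      have h3 := abs_le.1 (h k hk)
      have h4 : (((w + 1 : ℕ) : ℤ)) * (q : ℤ) = w * q + q := by push_cast; ring
      rw [h4] at h3
      have h5 : 0 ≤ (w : ℤ) * q := by positivity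
      rw [hzP k hk, abs_le]
      obtain ⟨m, hm⟩ : ∃ m : ℤ, m = (w : ℤ) * q := ⟨_, rfl⟩
      rw [← hm] at h3 h5 ⊢
      omega
    calc c1 ^ (w + 1 + 1) = c1 * c1 ^ (w + 1) := pow_succ' _ _
      _ ≤ cf (Db P q 0 n) β x z * cf (Db P q 0 n) β z y :=
          mul_le_mul h1 h2 (pow_nonneg hc1 _) (hc1.trans h1)
      _ ≤ cf (Db P q 0 n) β x y := cf_mul_le _ _ hβ _ _ _

/-! ## row s7 -/

private lemma s7_ne (P : Finset (Fin d)) (q : ℕ) (hq : 1 ≤ q) (a : Vx d) (s : ℕ) (hs : 1 ≤ s) :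
    (Cb P q a s).Nonempty := by
  refine ⟨fun k => if k ∈ P then a k else (q : ℤ), ?_⟩
  rw [mem_Cb]
  intro k
  by_cases hk : k ∈ P
  · simp only [hk, if_true, true_imp_iff, not_true_eq_false, false_imp_iff, and_true]
    constructor
    · exact le_refl _
    · have : (1 : ℤ) ≤ s := by exact_mod_cast hs
      linarith
  · simp only [hk, if_false, false_imp_iff, not_false_eq_true, true_imp_iff, true_and]
    have : (1 : ℤ) ≤ q := by exact_mod_cast hq
    constructor
    · exact le_refl _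
    · linarith

/-- `whit` with `t = 4 q` (`MB` from `uu_all`, `mb_of_uu`), `kk_exists`, `lr_dist`, `walk` with `w = 24`. -/
theorem slab_pow (P : Finset (Fin d)) (hP : 2 ≤ P.card) (b0 b1 : ℝ) (hb0 : 0 ≤ b0) (hb : b0 < b1)
    (c1 : ℝ) (hc1 : 0 < c1) (hC : CU d b0 c1) : ∃ c : ℝ, 0 < c ∧ ∃ q0 : ℕ, 1 ≤ q0 ∧
      ∀ q : ℕ, q0 ≤ q → ∀ J : ℕ, ∀ x ∈ Db P q 0 (8 * (4 * q * 2 ^ J)),
        ∀ y ∈ Db P q 0 (8 * (4 * q * 2 ^ J)), c ≤ cf (Db P q 0 (8 * (4 * q * 2 ^ J))) b1 x y := by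
  set bm : ℝ := (b0 + b1) / 2 with hbm
  have h0m : b0 < bm := by rw [hbm]; linarith
  have hm1 : bm < b1 := by rw [hbm]; linarith
  have hbm0 : 0 ≤ bm := by linarith
  have hb10 : 0 ≤ b1 := by linarith
  obtain ⟨q1, hq1, hU⟩ := uu_all P hP b0 bm hb0 h0m c1 hc1 hC
  have hCm : CU d bm c1 := cu_mono b0 bm hb0 h0m.le c1 hC
  have hC1 : CU d b1 c1 := cu_mono b0 b1 hb0 hb.le c1 hC
  set c : ℝ := c1 * (c1 / 2) / 8 ^ d with hc
  have hcpos : 0 < c := by rw [hc]; positivity
  have hΔ : 0 < c ^ 4 * (b1 - bm) := mul_pos (by positivity) (by linarith)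
  obtain ⟨q2, hq2⟩ := exists_nat_ge (10 ^ 4 / (c ^ 4 * (b1 - bm)))
  refine ⟨c1 ^ 25 * (c / 2) * c1 ^ 25, by positivity, max q1 q2,
    le_trans hq1 (le_max_left _ _), ?_⟩
  intro q hq J x hx y hy
  have hqq1 : q1 ≤ q := le_trans (le_max_left _ _) hq
  have hqq2 : q2 ≤ q := le_trans (le_max_right _ _) hq
  have hq1' : 1 ≤ q := le_trans hq1 hqq1
  have hbig : 10 ^ 4 ≤ c ^ 4 * ((4 * q : ℕ) : ℝ) * (b1 - bm) := by
    have h1 : (10 : ℝ) ^ 4 / (c ^ 4 * (b1 - bm)) ≤ q := le_trans hq2 (by exact_mod_cast hqq2)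
    rw [div_le_iff₀ hΔ] at h1
    push_cast
    have h2 : (0 : ℝ) ≤ q := Nat.cast_nonneg q
    nlinarith [h1, mul_nonneg h2 hΔ.le]
  have hMB : ∀ j ≤ J + 1, MB P q bm c (4 * q * 2 ^ j) := by
    intro j _
    have h1 := mb_of_uu P q hq1' bm hbm0 c1 (c1 / 2) hc1.le (by positivity) hCm (q * 2 ^ j)
      (Nat.le_mul_of_pos_right q (Nat.two_pow_pos j)) (hU q hqq1 j)
    have e1 : 4 * (q * 2 ^ j) = 4 * q * 2 ^ j := by ring
    rw [e1] at h1
    exact h1
  have hw := whit P hP q hq1' bm b1 hbm0 hm1 c hcpos (4 * q) (by omega) (by omega) J hMB hbig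
    x y hx hy
  obtain ⟨x', hx', y', hy', hxy⟩ := kk_exists _ b1 (c / 2)
    (s7_ne P q hq1' _ (4 * (4 * q)) (by omega)) (s7_ne P q hq1' _ (4 * (4 * q)) (by omega)) hw
  set n : ℕ := 8 * (4 * q * 2 ^ J) with hn
  have h8 : 8 * (4 * q) ≤ n := by
    rw [hn]
    exact Nat.mul_le_mul_left 8 (Nat.le_mul_of_pos_right (4 * q) (Nat.two_pow_pos J))
  obtain ⟨hxD, hxd⟩ := lr_dist P q (4 * q) n h8 x x' hx hx'
  obtain ⟨hyD, hyd⟩ := lr_dist P q (4 * q) n h8 y y' hy hy'
  have h4q : 4 * q ≤ n := by omega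
  have h1 := walk P q hq1' b1 hb10 c1 hc1.le hC1 n h4q 24 x x' hx hxD (fun k hk => by
    have := hxd k hk
    push_cast at this ⊢
    linarith)
  have h2 := walk P q hq1' b1 hb10 c1 hc1.le hC1 n h4q 24 y' y hyD hy (fun k hk => by
    have := hyd k hk
    rw [abs_sub_comm]
    push_cast at this ⊢
    linarith)
  have h3 := cf_mul_le (Db P q 0 n) b1 hb10 x x' y'
  have h4 := cf_mul_le (Db P q 0 n) b1 hb10 x y' y
  have hp : 0 ≤ c1 ^ 25 := by positivity
  calc c1 ^ 25 * (c / 2) * c1 ^ 25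
      ≤ (cf (Db P q 0 n) b1 x x' * cf (Db P q 0 n) b1 x' y') * cf (Db P q 0 n) b1 y' y := by
        refine mul_le_mul (mul_le_mul h1 hxy (by positivity) (cf_nonneg _ _ hb10 _ _)) h2 hp ?_
        exact mul_nonneg (cf_nonneg _ _ hb10 _ _) (cf_nonneg _ _ hb10 _ _)
    _ ≤ cf (Db P q 0 n) b1 x y' * cf (Db P q 0 n) b1 y' y :=
        mul_le_mul_of_nonneg_right h3 (cf_nonneg _ _ hb10 _ _)
    _ ≤ _ := h4

/-! ## row s8 -/

private lemma s8_scale (m n : ℕ) (hm : 1 ≤ m) (hn : m ≤ n) :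
    ∃ J : ℕ, m * 2 ^ J ≤ n ∧ n < 2 * (m * 2 ^ J) := by
  have h1 : n / m ≠ 0 := by
    have := Nat.div_pos hn hm
    omega
  refine ⟨Nat.log 2 (n / m), ?_, ?_⟩
  · have h2 := Nat.pow_log_le_self 2 h1
    calc m * 2 ^ Nat.log 2 (n / m) ≤ m * (n / m) := Nat.mul_le_mul_left _ h2
      _ ≤ n := Nat.mul_div_le n m
  · have h3 : n / m < 2 ^ (Nat.log 2 (n / m) + 1) := Nat.lt_pow_succ_log_self (by norm_num) _
    have h4 : n < m * 2 ^ (Nat.log 2 (n / m) + 1) := by
      rw [mul_comm]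
      exact (Nat.div_lt_iff_lt_mul hm).1 h3
    rw [pow_succ] at h4
    nlinarith [h4]

private lemma s8_Db (P : Finset (Fin d)) (q s : ℕ) :
    Db P q (0 : Vx d) s = bo (0 : Vx d) (fun k => if k ∈ P then s else 4 * q) := by
  unfold Db
  congr 1
  funext k
  simp

private lemma s8_shift {a x : Vx d} {n : Fin d → ℕ} (hx : x ∈ bo a n) :
    x - a ∈ bo (0 : Vx d) n := by
  rw [mem_bo] at hx ⊢
  intro k
  have h1 := hx k
  simp only [Pi.sub_apply, Pi.zero_apply]
  constructor <;> linarith [h1.1, h1.2]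

private lemma s8_move (c β : ℝ) (n : Fin d → ℕ)
    (h : ∀ x ∈ bo (0 : Vx d) n, ∀ y ∈ bo (0 : Vx d) n, c ≤ cf (bo (0 : Vx d) n) β x y)
    (a : Vx d) : ∀ x ∈ bo a n, ∀ y ∈ bo a n, c ≤ cf (bo a n) β x y := by
  intro x hx y hy
  have h2 := h (x - a) (s8_shift hx) (y - a) (s8_shift hy)
  have h3 := cf_bo_add (0 : Vx d) a n β (x - a) (y - a)
  rw [zero_add, sub_add_cancel, sub_add_cancel] at h3
  rw [h3]
  exact h2

/-- `4 q ≤ n < 32 q`: `walk` with `w = 32`. Otherwise `win` with the sides `8 (4 q 2^J)` in the directions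
of `P` and `4 q` in the others; `cf_bo_add`. -/
theorem slab_gen (P : Finset (Fin d)) (hP : 2 ≤ P.card) (b0 b1 : ℝ) (hb0 : 0 ≤ b0) (hb : b0 < b1)
    (c1 : ℝ) (hc1 : 0 < c1) (hC : CU d b0 c1) : ∃ c : ℝ, 0 < c ∧ ∃ q0 : ℕ, 1 ≤ q0 ∧
      ∀ q : ℕ, q0 ≤ q → ∀ (a : Vx d) (n : ℕ), 4 * q ≤ n →
        ∀ x ∈ bo a (fun k => if k ∈ P then n else 4 * q),
        ∀ y ∈ bo a (fun k => if k ∈ P then n else 4 * q),
          c ≤ cf (bo a (fun k => if k ∈ P then n else 4 * q)) b1 x y := by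
  obtain ⟨c, hc, q0, hq0, H⟩ := slab_pow P hP b0 b1 hb0 hb c1 hc1 hC
  have hb1 : 0 ≤ b1 := hb0.trans hb.le
  have hC1 : CU d b1 c1 := cu_mono b0 b1 hb0 hb.le c1 hC
  refine ⟨min (c ^ 2) (c1 ^ 33), lt_min (pow_pos hc 2) (pow_pos hc1 _), q0, hq0, ?_⟩
  intro q hq a n hn
  have hq1 : 1 ≤ q := hq0.trans hq
  by_cases hnq : n < 32 * q
  · refine s8_move _ b1 _ ?_ a
    intro x hx y hy
    rw [← s8_Db] at hx hy ⊢
    refine (min_le_right _ _).trans ?_
    refine walk P q hq1 b1 hb1 c1 hc1.le hC1 n hn 32 x y hx hy ?_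
    intro k hk
    have h1 := (mem_Db.1 hx k).1 hk
    have h2 := (mem_Db.1 hy k).1 hk
    simp only [Pi.zero_apply] at h1 h2
    rw [abs_le]
    have h3 : (n : ℤ) < 32 * (q : ℤ) := by exact_mod_cast hnq
    constructor <;> push_cast <;> linarith [h1.1, h1.2, h2.1, h2.2]
  · obtain ⟨J, hJ1, hJ2⟩ := s8_scale (32 * q) n (by omega) (by omega)
    have e1 : 32 * q * 2 ^ J = 8 * (4 * q * 2 ^ J) := by ring
    rw [e1] at hJ1 hJ2
    have hpos : 1 ≤ 4 * q * 2 ^ J := Nat.mul_pos (by omega) (pow_pos (by norm_num) J)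
    intro x hx y hy
    refine (min_le_left _ _).trans (win b1 hb1 c hc.le
      (fun k => if k ∈ P then 8 * (4 * q * 2 ^ J) else 4 * q) (fun k => if k ∈ P then n else 4 * q)
      ?_ ?_ a x hx y hy)
    · intro k
      by_cases hk : k ∈ P
      · simp only [hk, if_true]
        exact ⟨by omega, hJ1, hJ2⟩
      · simp only [hk, if_false]
        exact ⟨by omega, le_rfl, by omega⟩
    · refine s8_move c b1 _ ?_
      intro x hx y hy
      rw [← s8_Db] at hx hy ⊢
      exact H q hq J x hx y hy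

/-! ## row s9 -/

/-- `slab_gen` for the sets `P = univ \ {k0}`, the largest `q0`, the smallest `c`, `K = 4 q0`. -/
theorem slab (hd : 3 ≤ d) (b0 b1 : ℝ) (hb0 : 0 ≤ b0) (hb : b0 < b1) (h : CUBE d b0) :
    SLAB d b1 := by
  classical
  obtain ⟨c1, hc1, hC⟩ := h
  have hP : ∀ k0 : Fin d, 2 ≤ (Finset.univ.erase k0).card := by
    intro k0
    rw [Finset.card_erase_of_mem (Finset.mem_univ _), Finset.card_univ, Fintype.card_fin]
    omega
  have H := fun k0 : Fin d => slab_gen (Finset.univ.erase k0) (hP k0) b0 b1 hb0 hb c1 hc1 hC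
  choose c hc q0 hq0 hH using H
  have hne : (Finset.univ : Finset (Fin d)).Nonempty := ⟨⟨0, by omega⟩, Finset.mem_univ _⟩
  refine ⟨Finset.univ.inf' hne c, ?_, 4 * (Finset.univ.sup' hne q0), ?_, ?_⟩
  · rw [Finset.lt_inf'_iff]
    exact fun k _ => hc k
  · have h1 : 1 ≤ Finset.univ.sup' hne q0 := by
      obtain ⟨k, hk⟩ := hne
      exact (hq0 k).trans (Finset.le_sup' q0 hk)
    omega
  · intro k0 a L hL
    have e : (fun k : Fin d => if k ∈ Finset.univ.erase k0 then L else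
        4 * Finset.univ.sup' hne q0) = (fun k : Fin d => if k = k0 then
        4 * Finset.univ.sup' hne q0 else L) := by
      funext k
      by_cases hk : k = k0
      · simp [hk]
      · simp [hk]
    have h2 := hH k0 (Finset.univ.sup' hne q0) (Finset.le_sup' q0 (Finset.mem_univ k0)) a L hL
    rw [e] at h2
    intro x hx y hy
    exact (Finset.inf'_le c (Finset.mem_univ k0)).trans (h2 x hx y hy)

/-! ## row s10 -/

/-- the lower end of a face -/
private def s10_lo (o : Vx d) (r K : ℕ) (k : Fin d) (s : Bool) : ℤ :=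
  if s then o k + r + 1 else o k - r - K

/-- a face of the shell -/
private noncomputable def s10_F (o : Vx d) (r K : ℕ) (k : Fin d) (s : Bool) : Finset (Vx d) :=
  bo (fun l => if l = k then s10_lo o r K k s else o l - (r + K))
    (fun l => if l = k then K else 2 * (r + K) + 1)

private theorem s10_mem {o : Vx d} {r K : ℕ} {k : Fin d} {s : Bool} {x : Vx d} :
    x ∈ s10_F o r K k s ↔ (s10_lo o r K k s ≤ x k ∧ x k < s10_lo o r K k s + K) ∧
      ∀ l, l ≠ k → o l - (r + K) ≤ x l ∧ x l ≤ o l + (r + K) := by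
  unfold s10_F
  rw [mem_bo]
  constructor
  · intro h
    constructor
    · have h1 := h k
      simp only [if_true] at h1
      exact h1
    · intro l hl
      have h1 := h l
      simp only [if_neg hl] at h1
      push_cast at h1
      exact ⟨h1.1, by linarith [h1.2]⟩
  · rintro ⟨h1, h2⟩ l
    by_cases hl : l = k
    · subst hl
      simp only [if_true]
      exact h1
    · simp only [if_neg hl]
      push_cast
      exact ⟨(h2 l hl).1, by linarith [(h2 l hl).2]⟩

private theorem s10_sub (o : Vx d) (r K : ℕ) (k : Fin d) (s : Bool) :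
    s10_F o r K k s ⊆ shell o r K := by
  intro x hx
  rw [s10_mem] at hx
  obtain ⟨h1, h2⟩ := hx
  unfold shell
  rw [Finset.mem_sdiff, mem_cb, mem_cb]
  unfold s10_lo at h1
  constructor
  · intro l
    by_cases hl : l = k
    · subst hl
      push_cast
      cases s
      · simp only [Bool.false_eq_true, if_false] at h1
        constructor <;> linarith [h1.1, h1.2]
      · simp only [if_true] at h1
        constructor <;> linarith [h1.1, h1.2]
    · have h3 := h2 l hl
      push_cast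
      exact h3
  · intro h3
    have h4 := h3 k
    cases s
    · simp only [Bool.false_eq_true, if_false] at h1
      linarith [h1.1, h1.2, h4.1, h4.2]
    · simp only [if_true] at h1
      linarith [h1.1, h1.2, h4.1, h4.2]

private theorem s10_ex {o : Vx d} {r K : ℕ} {x : Vx d} (hx : x ∈ shell o r K) :
    ∃ k s, x ∈ s10_F o r K k s := by
  unfold shell at hx
  rw [Finset.mem_sdiff, mem_cb, mem_cb] at hx
  obtain ⟨h1, h2⟩ := hx
  rw [not_forall] at h2
  obtain ⟨k, hk⟩ := h2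
  have h3 := h1 k
  push_cast at h3
  have h4 : ∀ l, l ≠ k → o l - (r + K) ≤ x l ∧ x l ≤ o l + (r + K) := by
    intro l _
    have h5 := h1 l
    push_cast at h5
    exact h5
  by_cases h5 : o k - r ≤ x k
  · have h6 : o k + r < x k := by
      by_contra h7
      exact hk ⟨h5, not_lt.1 h7⟩
    refine ⟨k, true, s10_mem.2 ⟨?_, h4⟩⟩
    unfold s10_lo
    simp only [if_true]
    constructor
    · linarith
    · linarith [h3.2]
  · refine ⟨k, false, s10_mem.2 ⟨?_, h4⟩⟩
    unfold s10_lo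
    simp only [Bool.false_eq_true, if_false]
    rw [not_le] at h5
    constructor
    · linarith [h3.1]
    · linarith

/-- faces of different directions meet -/
private theorem s10_meet (o : Vx d) (r K : ℕ) (hK : 1 ≤ K) {k k' : Fin d} (hk : k ≠ k')
    (s s' : Bool) : ∃ p, p ∈ s10_F o r K k s ∧ p ∈ s10_F o r K k' s' := by
  have hK' : (1 : ℤ) ≤ K := by exact_mod_cast hK
  have hr : (0 : ℤ) ≤ r := Int.natCast_nonneg r
  have hlo : ∀ (l : Fin d) (u : Bool), o l - (r + K) ≤ s10_lo o r K l u ∧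
      s10_lo o r K l u ≤ o l + (r + K) := by
    intro l u
    unfold s10_lo
    cases u
    · simp only [Bool.false_eq_true, if_false]
      constructor <;> linarith
    · simp only [if_true]
      constructor <;> linarith
  let p : Vx d := fun l => if l = k then s10_lo o r K k s else if l = k' then s10_lo o r K k' s'
    else o l
  have pk : p k = s10_lo o r K k s := if_pos rfl
  have pk' : p k' = s10_lo o r K k' s' := by
    show (if k' = k then s10_lo o r K k s else if k' = k' then s10_lo o r K k' s' else o k') = _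
    rw [if_neg hk.symm, if_pos rfl]
  have pl : ∀ l, o l - (r + K) ≤ p l ∧ p l ≤ o l + (r + K) := by
    intro l
    by_cases h1 : l = k
    · subst h1
      rw [pk]
      exact hlo l s
    · by_cases h2 : l = k'
      · subst h2
        rw [pk']
        exact hlo l s'
      · have h3 : p l = o l := by
          show (if l = k then s10_lo o r K k s else if l = k' then s10_lo o r K k' s' else o l) = _
          rw [if_neg h1, if_neg h2]
        rw [h3]
        constructor <;> linarith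
  refine ⟨p, s10_mem.2 ⟨?_, fun l _ => pl l⟩, s10_mem.2 ⟨?_, fun l _ => pl l⟩⟩
  · rw [pk]
    exact ⟨le_rfl, by linarith⟩
  · rw [pk']
    exact ⟨le_rfl, by linarith⟩

/-- The shell is the union of the `2 d` faces `{o_k + r < x_k ≤ o_k + r + K, |x_l - o_l| ≤ r + K}` and their
mirror images, boxes with side `K` in direction `k` and `2 (r + K) + 1` in the others. Two faces of
different directions meet; the two faces of direction `k` meet a third one. Constant `c³`. -/
theorem shell_of_slab (hd : 2 ≤ d) (β : ℝ) (hβ : 0 ≤ β) (h : SLAB d β) : SHELL d β := by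
  obtain ⟨c, hc, K, hK2, h⟩ := h
  have hK : 1 ≤ K := by omega
  refine ⟨c ^ 3, pow_pos hc 3, K, hK, ?_⟩
  intro o r x hx y hy
  have hF : ∀ k s, ∀ u ∈ s10_F o r K k s, ∀ v ∈ s10_F o r K k s, c ≤ cf (shell o r K) β u v := by
    intro k s u hu v hv
    have h1 : c ≤ cf (s10_F o r K k s) β u v := by
      have h2 := h k (fun l => if l = k then s10_lo o r K k s else o l - (r + K))
        (2 * (r + K) + 1) (by omega)
      exact h2 u hu v hv
    exact h1.trans (cf_mono _ _ (s10_sub o r K k s) β β hβ le_rfl u v hu hv)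
  have hm : ∀ u w v : Vx d, ∀ a b : ℝ, 0 ≤ a → 0 ≤ b → a ≤ cf (shell o r K) β u w →
      b ≤ cf (shell o r K) β w v → a * b ≤ cf (shell o r K) β u v := by
    intro u w v a b ha hb h1 h2
    exact (mul_le_mul h1 h2 hb (ha.trans h1)).trans (cf_mul_le _ β hβ u w v)
  obtain ⟨k, s, hxk⟩ := s10_ex hx
  obtain ⟨k', s', hyk⟩ := s10_ex hy
  by_cases hk : k = k'
  · subst hk
    obtain ⟨k2, hk2⟩ := Fintype.exists_ne_of_one_lt_card (by rw [Fintype.card_fin]; omega) k
    obtain ⟨p, hp1, hp2⟩ := s10_meet o r K hK hk2.symm s true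
    obtain ⟨p', hp1', hp2'⟩ := s10_meet o r K hK hk2.symm s' true
    have h1 := hm x p p' c c hc.le hc.le (hF _ _ x hxk p hp1) (hF _ _ p hp2 p' hp2')
    have h2 := hm x p' y (c * c) c (mul_nonneg hc.le hc.le) hc.le h1 (hF _ _ p' hp1' y hyk)
    calc c ^ 3 = c * c * c := by ring
      _ ≤ _ := h2
  · obtain ⟨p, hp1, hp2⟩ := s10_meet o r K hK hk s s'
    have h1 := hm x p y c c hc.le hc.le (hF _ _ x hxk p hp1) (hF _ _ p hp2 y hyk)
    have hc1 : c ≤ 1 := (hF _ _ x hxk p hp1).trans (cf_le_one _ β x p)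
    calc c ^ 3 = c * c * c := by ring
      _ ≤ c * c * 1 := mul_le_mul_of_nonneg_left hc1 (mul_nonneg hc.le hc.le)
      _ = c * c := mul_one _
      _ ≤ _ := h1

/-! ## row s11: walks with windows -/

/- BEGIN s11 (helper83) -/
private lemma s11_step (β : ℝ) (hβ : 0 ≤ β) (c : ℝ) (m n : Fin d → ℕ)
    (hm : ∀ k, 1 ≤ m k ∧ m k ≤ n k)
    (h : ∀ b : Vx d, ∀ x ∈ bo b m, ∀ y ∈ bo b m, c ≤ cf (bo b m) β x y) (a : Vx d)
    (x y : Vx d) (hx : x ∈ bo a n) (hy : y ∈ bo a n)
    (hw : ∀ k, |x k - y k| ≤ (m k : ℤ) - 1) : c ≤ cf (bo a n) β x y := by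
  let b : Vx d := fun k => min (min (x k) (y k)) (a k + n k - m k)
  have hx' := mem_bo.1 hx
  have hy' := mem_bo.1 hy
  have hsub : bo b m ⊆ bo a n := by
    intro z hz
    have hz' := mem_bo.1 hz
    refine mem_bo.2 fun k => ?_
    have h1 := hz' k
    have h2 := hm k
    have h3 := hx' k
    have h4 := hy' k
    simp only [b] at h1
    omega
  have hxb : x ∈ bo b m := by
    refine mem_bo.2 fun k => ?_
    have h2 := hm k
    have h3 := hx' k
    have h4 := hy' k
    have h5 := abs_le.1 (hw k)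
    simp only [b]
    omega
  have hyb : y ∈ bo b m := by
    refine mem_bo.2 fun k => ?_
    have h2 := hm k
    have h3 := hx' k
    have h4 := hy' k
    have h5 := abs_le.1 (hw k)
    simp only [b]
    omega
  exact (h b x hxb y hyb).trans (cf_mono _ _ hsub β β hβ le_rfl _ _ hxb hyb)

/-- The coordinates move by at most `m k - 1` in every step, so that two consecutive points are in a
window (a translate of `bo 0 m` inside `bo a n`). -/
theorem walkb (β : ℝ) (hβ : 0 ≤ β) (c : ℝ) (hc : 0 ≤ c) (m n : Fin d → ℕ)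
    (hm : ∀ k, 1 ≤ m k ∧ m k ≤ n k)
    (h : ∀ b : Vx d, ∀ x ∈ bo b m, ∀ y ∈ bo b m, c ≤ cf (bo b m) β x y) (a : Vx d) (w : ℕ)
    (x y : Vx d) (hx : x ∈ bo a n) (hy : y ∈ bo a n)
    (hw : ∀ k, |x k - y k| ≤ (w : ℤ) * ((m k : ℤ) - 1)) : c ^ (w + 1) ≤ cf (bo a n) β x y := by
  induction w generalizing x with
  | zero =>
    rw [zero_add, pow_one]
    refine s11_step β hβ c m n hm h a x y hx hy fun k => (hw k).trans ?_
    have h1 := (hm k).1
    rw [Nat.cast_zero, zero_mul]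
    omega
  | succ w ih =>
    let x' : Vx d := fun k => if (m k : ℤ) - 1 < y k - x k then x k + ((m k : ℤ) - 1)
      else if (m k : ℤ) - 1 < x k - y k then x k - ((m k : ℤ) - 1) else y k
    have hx1 := mem_bo.1 hx
    have hy1 := mem_bo.1 hy
    have hx' : x' ∈ bo a n := by
      refine mem_bo.2 fun k => ?_
      have h1 := (hm k).1
      have h2 := hx1 k
      have h3 := hy1 k
      simp only [x']
      split_ifs <;> omega
    have h1 : ∀ k, |x k - x' k| ≤ (m k : ℤ) - 1 := by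
      intro k
      have h1 := (hm k).1
      simp only [x']
      rw [abs_le]
      split_ifs <;> constructor <;> omega
    have h2 : ∀ k, |x' k - y k| ≤ (w : ℤ) * ((m k : ℤ) - 1) := by
      intro k
      have h1 := (hm k).1
      have h3 := abs_le.1 (hw k)
      have h4 : ((w + 1 : ℕ) : ℤ) * ((m k : ℤ) - 1) = (w : ℤ) * ((m k : ℤ) - 1) + ((m k : ℤ) - 1) := by
        push_cast
        ring
      rw [h4] at h3
      have h5 : 0 ≤ (w : ℤ) * ((m k : ℤ) - 1) := mul_nonneg (Int.natCast_nonneg w) (by omega)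
      generalize (w : ℤ) * ((m k : ℤ) - 1) = A at *
      simp only [x']
      rw [abs_le]
      split_ifs <;> constructor <;> omega
    have h3 := s11_step β hβ c m n hm h a x x' hx hx' h1
    have h4 := ih x' hx' h2
    calc c ^ (w + 1 + 1) = c * c ^ (w + 1) := pow_succ' c (w + 1)
      _ ≤ cf (bo a n) β x x' * cf (bo a n) β x' y :=
          mul_le_mul h3 h4 (pow_nonneg hc _) (hc.trans h3)
      _ ≤ _ := cf_mul_le _ β hβ _ _ _
/- END s11 -/

/-! ## row s12 -/

-- BEGIN s12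
/-- the cube with the shell -/
private def s12_in (a b : Vx d) (K : ℕ) (x : Vx d) : Prop :=
  ∀ k, a k - (K : ℤ) ≤ x k ∧ x k ≤ b k + (K : ℤ)

/-- the faces -/
private def s12_fc (a b : Vx d) (k : Fin d) (s : Bool) (x : Vx d) : Prop :=
  if s = true then x k < a k else b k < x k

private lemma s12_mem {a b : Vx d} {K : ℕ} {x : Vx d} :
    x ∈ Finset.Icc (fun k => a k - (K : ℤ)) (fun k => b k + (K : ℤ)) \ Finset.Icc a b ↔
      s12_in a b K x ∧ ∃ k s, s12_fc a b k s x := by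
  rw [Finset.mem_sdiff, Finset.mem_Icc, Finset.mem_Icc]
  constructor
  · rintro ⟨⟨h1, h2⟩, h3⟩
    refine ⟨fun k => ⟨h1 k, h2 k⟩, ?_⟩
    by_contra hcon
    refine h3 ⟨fun k => ?_, fun k => ?_⟩
    · by_contra h4
      refine hcon ⟨k, true, ?_⟩
      rw [s12_fc, if_pos rfl]
      exact not_le.1 h4
    · by_contra h4
      refine hcon ⟨k, false, ?_⟩
      rw [s12_fc, if_neg (by simp)]
      exact not_le.1 h4
  · rintro ⟨h1, k, s, h2⟩
    refine ⟨⟨fun l => (h1 l).1, fun l => (h1 l).2⟩, ?_⟩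
    rintro ⟨h3, h4⟩
    have h5 : a k ≤ x k := h3 k
    have h6 : x k ≤ b k := h4 k
    cases s
    · rw [s12_fc, if_neg (by simp)] at h2
      omega
    · rw [s12_fc, if_pos rfl] at h2
      omega

/-- two points of one face -/
private lemma s12_face {β : ℝ} (hβ : 0 ≤ β) {c : ℝ} (hc : 0 < c) {K : ℕ} (hK : 2 ≤ K)
    (h : ∀ (k0 : Fin d) (a : Vx d) (L : ℕ), K ≤ L →
      ∀ x ∈ bo a (fun k => if k = k0 then K else L), ∀ y ∈ bo a (fun k => if k = k0 then K else L),
      c ≤ cf (bo a (fun k => if k = k0 then K else L)) β x y)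
    (M : ℕ) (a b : Vx d) (L : ℕ) (hL : K ≤ L)
    (hab : ∀ k, (L : ℤ) ≤ b k - a k ∧ b k - a k ≤ (M : ℤ) * L) (k : Fin d) (s : Bool)
    (x y : Vx d) (hx : s12_in a b K x) (hxs : s12_fc a b k s x) (hy : s12_in a b K y)
    (hys : s12_fc a b k s y) :
    c ^ (2 * (M + 3) + 1) ≤
      cf (Finset.Icc (fun k => a k - (K : ℤ)) (fun k => b k + (K : ℤ)) \ Finset.Icc a b) β x y := by
  let A : Vx d := fun l => if l = k then (if s = true then a k - K else b k + 1) else a l - K
  let N : Fin d → ℕ := fun l => if l = k then K else (b l - a l + 2 * K + 1).toNat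
  have hA1 : A k = if s = true then a k - K else b k + 1 := if_pos rfl
  have hA2 : ∀ l, l ≠ k → A l = a l - K := fun l hl => if_neg hl
  have hN1 : N k = K := if_pos rfl
  have hN2 : ∀ l, l ≠ k → (N l : ℤ) = b l - a l + 2 * K + 1 := by
    intro l hl
    have h1 : N l = (b l - a l + 2 * K + 1).toNat := if_neg hl
    rw [h1, Int.toNat_of_nonneg]
    have h2 := (hab l).1
    omega
  -- the face is the box `bo A N`
  have hmem : ∀ z : Vx d, z ∈ bo A N ↔ s12_in a b K z ∧ s12_fc a b k s z := by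
    intro z
    rw [mem_bo]
    constructor
    · intro hz
      have hk := hz k
      rw [hA1, hN1] at hk
      have hs : s12_fc a b k s z := by
        cases s
        · rw [s12_fc, if_neg (by simp)]
          rw [if_neg (by simp)] at hk
          omega
        · rw [s12_fc, if_pos rfl]
          rw [if_pos rfl] at hk
          omega
      refine ⟨fun l => ?_, hs⟩
      by_cases hl : l = k
      · subst hl
        have h2 := (hab l).1
        cases s
        · rw [if_neg (by simp)] at hk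
          omega
        · rw [if_pos rfl] at hk
          omega
      · have h1 := hz l
        rw [hA2 l hl, hN2 l hl] at h1
        omega
    · rintro ⟨h1, h2⟩ l
      by_cases hl : l = k
      · subst hl
        have h3 := h1 l
        rw [hA1, hN1]
        cases s
        · rw [s12_fc, if_neg (by simp)] at h2
          rw [if_neg (by simp)]
          omega
        · rw [s12_fc, if_pos rfl] at h2
          rw [if_pos rfl]
          omega
      · have h3 := h1 l
        rw [hA2 l hl, hN2 l hl]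
        omega
  have hsub : bo A N ⊆
      Finset.Icc (fun k => a k - (K : ℤ)) (fun k => b k + (K : ℤ)) \ Finset.Icc a b := by
    intro z hz
    rw [hmem] at hz
    exact s12_mem.2 ⟨hz.1, k, s, hz.2⟩
  have hxm : x ∈ bo A N := (hmem x).2 ⟨hx, hxs⟩
  have hym : y ∈ bo A N := (hmem y).2 ⟨hy, hys⟩
  refine le_trans ?_ (cf_mono _ _ hsub β β hβ le_rfl x y hxm hym)
  refine walkb β hβ c hc.le (fun l => if l = k then K else L) N ?_
    (fun b' x' hx' y' hy' => h k b' L hL x' hx' y' hy') A (2 * (M + 3)) x y hxm hym ?_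
  · intro l
    by_cases hl : l = k
    · subst hl
      rw [if_pos rfl, hN1]
      omega
    · rw [if_neg hl]
      have h1 := hN2 l hl
      have h2 := (hab l).1
      omega
  · intro l
    by_cases hl : l = k
    · subst hl
      rw [if_pos rfl]
      have h1 := mem_bo.1 hxm l
      have h2 := mem_bo.1 hym l
      rw [hN1] at h1 h2
      have h3 : |x l - y l| ≤ (K : ℤ) - 1 := by
        rw [abs_le]
        omega
      have h4 : (1 : ℤ) * ((K : ℤ) - 1) ≤ ((2 * (M + 3) : ℕ) : ℤ) * ((K : ℤ) - 1) :=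
        mul_le_mul_of_nonneg_right (by push_cast; omega) (by omega)
      linarith
    · rw [if_neg hl]
      have h1 := mem_bo.1 hxm l
      have h2 := mem_bo.1 hym l
      rw [hN2 l hl] at h1 h2
      have h5 := hab l
      have h3 : |x l - y l| ≤ (M : ℤ) * L + 2 * K := by
        rw [abs_le]
        constructor <;> linarith [h1.1, h1.2, h2.1, h2.2, h5.2]
      have h6 : (K : ℤ) ≤ L := by exact_mod_cast hL
      have h7 : (2 : ℤ) ≤ K := by exact_mod_cast hK
      have h8 : (0 : ℤ) ≤ M := by positivity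
      push_cast
      nlinarith [mul_nonneg h8 (by linarith : (0 : ℤ) ≤ L - 2)]

/-- the point with prescribed coordinates `k`, `l` -/
private lemma s12_meet {a b : Vx d} {K : ℕ} (hK : 2 ≤ K) {L : ℕ}
    (hab : ∀ k, (L : ℤ) ≤ b k - a k) {k l : Fin d} (hkl : k ≠ l) (s t : Bool) :
    ∃ z : Vx d, s12_in a b K z ∧ s12_fc a b k s z ∧ s12_fc a b l t z := by
  let v : Bool → Fin d → ℤ := fun u j => if u = true then a j - 1 else b j + 1
  refine ⟨fun j => if j = k then v s k else if j = l then v t l else a j, ?_, ?_, ?_⟩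
  · have hv : ∀ u j, a j - (K : ℤ) ≤ v u j ∧ v u j ≤ b j + (K : ℤ) := by
      intro u j
      have h1 := hab j
      have h2 : (0 : ℤ) ≤ L := by positivity
      cases u
      · have h3 : v false j = b j + 1 := if_neg (by simp)
        rw [h3]
        omega
      · have h3 : v true j = a j - 1 := if_pos rfl
        rw [h3]
        omega
    intro j
    show a j - (K : ℤ) ≤ (if j = k then v s k else if j = l then v t l else a j) ∧
      (if j = k then v s k else if j = l then v t l else a j) ≤ b j + (K : ℤ)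
    have h1 := hab j
    have h2 : (0 : ℤ) ≤ L := by positivity
    split_ifs with h3 h4
    · subst h3
      exact hv s j
    · subst h4
      exact hv t j
    · omega
  · cases s
    · rw [s12_fc, if_neg (by simp)]
      show b k < (if k = k then v false k else _)
      rw [if_pos rfl]
      show b k < b k + 1
      omega
    · rw [s12_fc, if_pos rfl]
      show (if k = k then v true k else _) < a k
      rw [if_pos rfl]
      show a k - 1 < a k
      omega
  · cases t
    · rw [s12_fc, if_neg (by simp)]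
      show b l < (if l = k then v s k else if l = l then v false l else _)
      rw [if_neg hkl.symm, if_pos rfl]
      show b l < b l + 1
      omega
    · rw [s12_fc, if_pos rfl]
      show (if l = k then v s k else if l = l then v true l else _) < a l
      rw [if_neg hkl.symm, if_pos rfl]
      show a l - 1 < a l
      omega

/-- As `shell_of_slab`: the faces of the shell are boxes with side `K` in one direction `k0` and sides
between `L` and `(M + 3) L` in the other ones; inside a face `walkb` with windows of side `K` in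
direction `k0` and `L` in the others (`w = 2 (M + 3)`, `L ≥ 2`). -/
theorem shellp_of_slab (hd : 2 ≤ d) (β : ℝ) (hβ : 0 ≤ β) (h : SLAB d β) : SHELLP d β := by
  obtain ⟨c, hc, K, hK, hS⟩ := h
  refine ⟨K, hK, fun M => ⟨(c ^ (2 * (M + 3) + 1)) ^ 3, pow_pos (pow_pos hc _) 3, ?_⟩⟩
  intro a b L hL hab x hx y hy
  obtain ⟨hx1, k, s, hxs⟩ := s12_mem.1 hx
  obtain ⟨hy1, l, t, hyt⟩ := s12_mem.1 hy
  have hF := fun (k : Fin d) (s : Bool) (x y : Vx d) =>
    s12_face hβ hc hK hS M a b L hL hab k s x y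
  have hm := fun (k l : Fin d) (hkl : k ≠ l) (s t : Bool) =>
    s12_meet hK (fun k => (hab k).1) hkl s t
  have he0 : 0 < c ^ (2 * (M + 3) + 1) := pow_pos hc _
  have he1 : c ^ (2 * (M + 3) + 1) ≤ 1 := (hF k s x x hx1 hxs hx1 hxs).trans (cf_le_one _ _ _ _)
  generalize c ^ (2 * (M + 3) + 1) = e at hF he0 he1 ⊢
  generalize Finset.Icc (fun k => a k - (K : ℤ)) (fun k => b k + (K : ℤ)) \ Finset.Icc a b = S
    at hF hx hy ⊢
  have h12 : e ^ 3 ≤ e ^ 2 := pow_le_pow_of_le_one he0.le he1 (by norm_num)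
  -- two points in faces of different directions
  have h2 : ∀ (k l : Fin d) (s t : Bool) (x y : Vx d), k ≠ l → s12_in a b K x →
      s12_fc a b k s x → s12_in a b K y → s12_fc a b l t y → e ^ 2 ≤ cf S β x y := by
    intro k l s t x y hkl hx1 hxs hy1 hyt
    obtain ⟨z, hz, hz1, hz2⟩ := hm k l hkl s t
    calc e ^ 2 = e * e := sq e
      _ ≤ cf S β x z * cf S β z y := mul_le_mul (hF k s x z hx1 hxs hz hz1)
        (hF l t z y hz hz2 hy1 hyt) he0.le (cf_nonneg _ _ hβ _ _)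
      _ ≤ _ := cf_mul_le _ _ hβ _ _ _
  by_cases hkl : k = l
  · subst hkl
    have : ∃ l : Fin d, k ≠ l := by
      have : Nontrivial (Fin d) := Fin.nontrivial_iff_two_le.2 hd
      obtain ⟨l, hl⟩ := exists_ne k
      exact ⟨l, hl.symm⟩
    obtain ⟨l, hl⟩ := this
    obtain ⟨z, hz, hz1, hz2⟩ := hm k l hl s true
    calc e ^ 3 = e * e ^ 2 := pow_succ' e 2
      _ ≤ cf S β x z * cf S β z y := mul_le_mul (hF k s x z hx1 hxs hz hz1)
        (h2 l k true t z y hl.symm hz hz2 hy1 hyt) (pow_nonneg he0.le 2) (cf_nonneg _ _ hβ _ _)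
      _ ≤ _ := cf_mul_le _ _ hβ _ _ _
  · exact h12.trans (h2 k l s t x y hkl hx1 hxs hy1 hyt)
-- END s12

/-! ## The end of block B2 -/

theorem main (hd : 3 ≤ d) (b0 b1 : ℝ) (hb0 : 0 ≤ b0) (hb : b0 < b1) (h : LRO d b0) :
    CUBE d b1 ∧ SLAB d b1 ∧ SHELL d b1 ∧ SHELLP d b1 := by
  have h1 : b0 < (b0 + b1) / 2 := by linarith
  have h2 : (b0 + b1) / 2 < b1 := by linarith
  have hc := cube (by omega : 2 ≤ d) b0 ((b0 + b1) / 2) hb0 h1 h
  have hs := slab hd ((b0 + b1) / 2) b1 (by linarith) h2 hc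
  exact ⟨cube (by omega) b0 b1 hb0 hb h, hs, shell_of_slab (by omega) b1 (by linarith) hs,
    shellp_of_slab (by omega) b1 (by linarith) hs⟩

end Pool.Agent.Slb
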