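import Pool.Agent.Slb.Defs

/-!
# Slb: basic facts on the free two-point function, sums over boxes, derivative (rows b1..b6, l1..l3)
-/

set_option autoImplicit false

namespace Pool.Agent.Slb

open Finset Pool.Agent.SRC Pool.Agent.TC

variable {d : ℕ}

/-! ## row b1: trivial bounds and Griffiths' inequalities -/

-- BEGIN b1
private lemma b1_pos (S : Finset (Vx d)) (E : Finset (Ed d)) (β : ℝ) :
    0 < GI S E β (fun _ => 1) := by
  unfold GI
  refine Finset.sum_pos (fun T _ => ?_) ⟨∅, Finset.empty_mem_powerset S⟩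
  rw [one_mul]
  exact Real.exp_pos _

private lemma b1_sq (T : Finset (Vx d)) (u : Vx d) : spin T u * spin T u = 1 := by
  unfold spin
  split_ifs <;> norm_num

private lemma b1_bond (e : Ed d) : IsChar (bond e : Finset (Vx d) → ℝ) :=
  isChar_mul (fun T => spin T e.1) (fun T => spin T (tip e)) (isChar_spin e.1) (isChar_spin (tip e))

private lemma b1_char (u v : Vx d) : IsChar (fun T : Finset (Vx d) => spin T u * spin T v) :=
  isChar_mul _ _ (isChar_spin u) (isChar_spin v)

private lemma b1_GI (S : Finset (Vx d)) (E : Finset (Ed d)) (β : ℝ) (f : Finset (Vx d) → ℝ) :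
    GI S E β f = GZ S E bond (fun _ => β) f := by
  unfold GI GZ
  simp only [Finset.mul_sum]

lemma cf_comm (S : Finset (Vx d)) (β : ℝ) (u v : Vx d) : cf S β u v = cf S β v u := by
  unfold cf
  congr 1
  funext T
  exact mul_comm _ _

lemma cf_self (S : Finset (Vx d)) (β : ℝ) (u : Vx d) : cf S β u u = 1 := by
  unfold cf av
  simp only [b1_sq]
  exact div_self (b1_pos S _ β).ne'

/-- `griffiths1` -/
lemma cf_nonneg (S : Finset (Vx d)) (β : ℝ) (hβ : 0 ≤ β) (u v : Vx d) : 0 ≤ cf S β u v := by
  unfold cf av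
  refine div_nonneg ?_ (b1_pos S _ β).le
  rw [b1_GI]
  exact griffiths1 S (edg S) bond (fun e _ => b1_bond e) _ (fun _ _ => hβ) _ (b1_char u v)

lemma cf_le_one (S : Finset (Vx d)) (β : ℝ) (u v : Vx d) : cf S β u v ≤ 1 := by
  unfold cf av
  rw [div_le_one (b1_pos S _ β)]
  unfold GI
  refine Finset.sum_le_sum fun T _ => ?_
  refine mul_le_mul_of_nonneg_right ?_ (Real.exp_pos _).le
  change spin T u * spin T v ≤ 1
  rcases (b1_char u v).1 T with h | h <;> simp only at h <;> rw [h]
  norm_num

/-- Griffiths II: `ginibre` (TC.L1) with `S' = S`, `J' = J`, `A = spin u * spin w`,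
`B = spin w * spin v`, `s = -1` -/
lemma cf_mul_le (S : Finset (Vx d)) (β : ℝ) (hβ : 0 ≤ β) (u w v : Vx d) :
    cf S β u w * cf S β w v ≤ cf S β u v := by
  have h := ginibre S S (Finset.Subset.refl S) (edg S) bond (fun e _ => b1_bond e) (fun _ => β)
    (fun _ => β) (fun _ _ => hβ) (fun _ _ => Or.inl le_rfl)
    (fun T : Finset (Vx d) => spin T u * spin T w) (fun T => spin T w * spin T v)
    (b1_char u w) (b1_char w v) (-1) (Or.inr rfl)
  simp only [← b1_GI] at h
  have e : (fun T : Finset (Vx d) => spin T u * spin T w * (spin T w * spin T v)) =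
      fun T => spin T u * spin T v := by
    funext T
    have := b1_sq T w
    calc spin T u * spin T w * (spin T w * spin T v)
        = spin T u * spin T v * (spin T w * spin T w) := by ring
      _ = _ := by rw [this, mul_one]
  rw [e] at h
  have hp := b1_pos S (edg S) β
  unfold cf av
  rw [div_mul_div_comm, div_le_div_iff₀ (mul_pos hp hp) hp]
  nlinarith [mul_nonneg hp.le hp.le]
-- END b1

/-! ## row b3: sums (`kk`, `mm`); only b1 and `cf_mono` -/

-- BEGIN b3
lemma mm_nonneg (S : Finset (Vx d)) (β : ℝ) (hβ : 0 ≤ β) (A : Finset (Vx d)) (i : Vx d) :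
    0 ≤ mm S β A i :=
  Finset.sum_nonneg fun x _ => cf_nonneg S β hβ i x

lemma mm_mono (S : Finset (Vx d)) (β : ℝ) (hβ : 0 ≤ β) {A A' : Finset (Vx d)} (h : A ⊆ A')
    (i : Vx d) : mm S β A i ≤ mm S β A' i :=
  Finset.sum_le_sum_of_subset_of_nonneg h fun x _ _ => cf_nonneg S β hβ i x

lemma mm_dom {S S' : Finset (Vx d)} (hS : S ⊆ S') {β β' : ℝ} (hβ : 0 ≤ β) (hβ' : β ≤ β')
    {A : Finset (Vx d)} (hA : A ⊆ S) {i : Vx d} (hi : i ∈ S) : mm S β A i ≤ mm S' β' A i :=
  Finset.sum_le_sum fun x hx => cf_mono S S' hS β β' hβ hβ' i x hi (hA hx)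

lemma mm_le (S : Finset (Vx d)) (β : ℝ) (A : Finset (Vx d)) (i : Vx d) :
    mm S β A i ≤ (A.card : ℝ) := by
  calc mm S β A i ≤ ∑ _x ∈ A, (1 : ℝ) := Finset.sum_le_sum fun x _ => cf_le_one S β i x
    _ = (A.card : ℝ) := by simp

lemma kk_comm (S : Finset (Vx d)) (β : ℝ) (A B : Finset (Vx d)) : kk S β A B = kk S β B A := by
  unfold kk mm
  rw [Finset.sum_comm]
  exact Finset.sum_congr rfl fun x _ => Finset.sum_congr rfl fun y _ => cf_comm S β y x

lemma kk_nonneg (S : Finset (Vx d)) (β : ℝ) (hβ : 0 ≤ β) (A B : Finset (Vx d)) :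
    0 ≤ kk S β A B :=
  Finset.sum_nonneg fun x _ => mm_nonneg S β hβ B x

lemma kk_dom {S S' : Finset (Vx d)} (hS : S ⊆ S') {β β' : ℝ} (hβ : 0 ≤ β) (hβ' : β ≤ β')
    {A B : Finset (Vx d)} (hA : A ⊆ S) (hB : B ⊆ S) : kk S β A B ≤ kk S' β' A B :=
  Finset.sum_le_sum fun _ hx => mm_dom hS hβ hβ' hB (hA hx)

lemma kk_mono (S : Finset (Vx d)) (β : ℝ) (hβ : 0 ≤ β) {A A' B B' : Finset (Vx d)} (h : A ⊆ A')
    (h' : B ⊆ B') : kk S β A B ≤ kk S β A' B' :=
  (Finset.sum_le_sum fun x _ => mm_mono S β hβ h' x).trans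
    (Finset.sum_le_sum_of_subset_of_nonneg h fun x _ _ => mm_nonneg S β hβ B' x)

lemma kk_le (S : Finset (Vx d)) (β : ℝ) (A B : Finset (Vx d)) :
    kk S β A B ≤ (A.card : ℝ) * (B.card : ℝ) := by
  calc kk S β A B ≤ ∑ _x ∈ A, (B.card : ℝ) := Finset.sum_le_sum fun x _ => mm_le S β B x
    _ = (A.card : ℝ) * (B.card : ℝ) := by simp

/-- some pair of points is correlated at least as well as the average -/
lemma kk_exists (S : Finset (Vx d)) (β c : ℝ) {A B : Finset (Vx d)} (hA : A.Nonempty)
    (hB : B.Nonempty) (h : c * (A.card : ℝ) * (B.card : ℝ) ≤ kk S β A B) :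
    ∃ x ∈ A, ∃ y ∈ B, c ≤ cf S β x y := by
  by_contra hcon
  push Not at hcon
  have h1 : kk S β A B < c * (A.card : ℝ) * (B.card : ℝ) := by
    calc kk S β A B < ∑ _x ∈ A, ∑ _y ∈ B, c :=
          Finset.sum_lt_sum_of_nonempty hA fun x hx =>
            Finset.sum_lt_sum_of_nonempty hB (hcon x hx)
      _ = c * (A.card : ℝ) * (B.card : ℝ) := by
          simp only [Finset.sum_const, nsmul_eq_mul]
          ring
  exact absurd h (not_le.mpr h1)

lemma kk_of_mm (S : Finset (Vx d)) (β c : ℝ) (A : Finset (Vx d))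
    (h : ∀ i ∈ A, c * (A.card : ℝ) ≤ mm S β A i) : c * (A.card : ℝ) ^ 2 ≤ kk S β A A := by
  calc c * (A.card : ℝ) ^ 2 = ∑ _i ∈ A, c * (A.card : ℝ) := by
        simp only [Finset.sum_const, nsmul_eq_mul]
        ring
    _ ≤ kk S β A A := Finset.sum_le_sum h

/-- some point of `A` is correlated with `A` at least as well as the average -/
lemma mm_exists (S : Finset (Vx d)) (β u : ℝ) {A : Finset (Vx d)} (hA : A.Nonempty)
    (h : u * (A.card : ℝ) ^ 2 ≤ kk S β A A) : ∃ i ∈ A, u * (A.card : ℝ) ≤ mm S β A i := by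
  by_contra hcon
  push Not at hcon
  have h1 : kk S β A A < u * (A.card : ℝ) ^ 2 := by
    calc kk S β A A < ∑ _i ∈ A, u * (A.card : ℝ) :=
          Finset.sum_lt_sum_of_nonempty hA hcon
      _ = u * (A.card : ℝ) ^ 2 := by
          simp only [Finset.sum_const, nsmul_eq_mul]
          ring
  exact absurd h (not_le.mpr h1)
-- END b3

/-! ## row b4: translations -/

lemma bo_image_add (a b : Vx d) (n : Fin d → ℕ) :
    (bo a n).image (fun z => z + b) = bo (a + b) n := by
  ext x
  rw [Finset.mem_image, mem_bo]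
  constructor
  · rintro ⟨z, hz, rfl⟩ k
    have h := mem_bo.1 hz k
    simp only [Pi.add_apply]
    constructor
    · linarith [h.1]
    · linarith [h.2]
  · intro h
    refine ⟨x - b, mem_bo.2 fun k => ?_, sub_add_cancel x b⟩
    have h1 := h k
    simp only [Pi.add_apply] at h1
    simp only [Pi.sub_apply]
    constructor
    · linarith [h1.1]
    · linarith [h1.2]

lemma cf_bo_add (a b : Vx d) (n : Fin d → ℕ) (β : ℝ) (u v : Vx d) :
    cf (bo (a + b) n) β (u + b) (v + b) = cf (bo a n) β u v := by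
  rw [← bo_image_add]
  exact (cf_shift (bo a n) β u v b).1

/-- translation in the directions of `P` -/
lemma cf_Db_add (P : Finset (Fin d)) (q : ℕ) (a b : Vx d) (hb : ∀ k, k ∉ P → b k = 0) (s : ℕ)
    (β : ℝ) (u v : Vx d) :
    cf (Db P q (fun k => a k + b k) s) β (u + b) (v + b) = cf (Db P q a s) β u v := by
  have h : Db P q (fun k => a k + b k) s =
      bo ((fun k => if k ∈ P then a k else 0) + b) (fun k => if k ∈ P then s else 4 * q) := by
    unfold Db
    congr 1
    funext k
    simp only [Pi.add_apply]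
    split_ifs with hk
    · rfl
    · rw [hb k hk, add_zero]
  rw [h, cf_bo_add]
  rfl

/-! ## row b5: reflections -/

/-- the reflection `x_k ↦ c - x_k` -/
def rf (k : Fin d) (c : ℤ) (x : Vx d) : Vx d := Function.update x k (c - x k)

lemma rf_rf (k : Fin d) (c : ℤ) (x : Vx d) : rf k c (rf k c x) = x := by
  unfold rf
  rw [Function.update_self, Function.update_idem, sub_sub_cancel, Function.update_eq_self]

private lemma b5_inj (k : Fin d) (c : ℤ) : Function.Injective (rf k c) := fun x y h => by
  rw [← rf_rf k c x, h, rf_rf]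

private lemma b5_spin (k : Fin d) (c : ℤ) (T : Finset (Vx d)) (v : Vx d) :
    spin (T.image (rf k c)) (rf k c v) = spin T v := by
  have h : rf k c v ∈ T.image (rf k c) ↔ v ∈ T := (b5_inj k c).mem_finset_image
  unfold spin
  simp only [h]

/-- the reflected edge -/
private def b5_re (k : Fin d) (c : ℤ) (e : Ed d) : Ed d :=
  if e.2 = k then (rf k c (tip e), k) else (rf k c e.1, e.2)

private lemma b5_add (k : Fin d) (c : ℤ) (v : Vx d) : rf k c (v + uv k) + uv k = rf k c v := by
  funext i
  by_cases hi : i = k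
  · subst hi
    simp only [Pi.add_apply, rf, Function.update_self, uv, Pi.single_eq_same]
    ring
  · simp only [Pi.add_apply, rf, Function.update_of_ne hi, uv, Pi.single_eq_of_ne hi, add_zero]

private lemma b5_add_ne {k j : Fin d} (h : j ≠ k) (c : ℤ) (v : Vx d) :
    rf k c v + uv j = rf k c (v + uv j) := by
  funext i
  by_cases hi : i = k
  · subst hi
    simp only [Pi.add_apply, rf, Function.update_self, uv, Pi.single_eq_of_ne h.symm, add_zero]
  · simp only [Pi.add_apply, rf, Function.update_of_ne hi]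

private lemma b5_ends (k : Fin d) (c : ℤ) (e : Ed d) :
    ((b5_re k c e).1 = rf k c e.1 ∧ tip (b5_re k c e) = rf k c (tip e)) ∨
      ((b5_re k c e).1 = rf k c (tip e) ∧ tip (b5_re k c e) = rf k c e.1) := by
  obtain ⟨v, j⟩ := e
  by_cases h : j = k
  · subst h
    right
    unfold b5_re
    rw [if_pos rfl]
    refine ⟨rfl, ?_⟩
    unfold tip
    exact b5_add j c v
  · left
    unfold b5_re
    rw [if_neg h]
    refine ⟨rfl, ?_⟩
    unfold tip
    exact b5_add_ne h c v

private lemma b5_re_re (k : Fin d) (c : ℤ) (e : Ed d) : b5_re k c (b5_re k c e) = e := by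
  obtain ⟨v, j⟩ := e
  by_cases h : j = k
  · subst h
    unfold b5_re
    rw [if_pos rfl, if_pos rfl]
    unfold tip
    simp only
    rw [b5_add, rf_rf]
  · unfold b5_re
    rw [if_neg h, if_neg h]
    simp only
    rw [rf_rf]

private lemma b5_bond (k : Fin d) (c : ℤ) (T : Finset (Vx d)) (e : Ed d) :
    bond (b5_re k c e) (T.image (rf k c)) = bond e T := by
  unfold bond
  rcases b5_ends k c e with ⟨h1, h2⟩ | ⟨h1, h2⟩
  · rw [h1, h2, b5_spin, b5_spin]
  · rw [h1, h2, b5_spin, b5_spin, mul_comm]

private lemma b5_re_mem {S : Finset (Vx d)} {k : Fin d} {c : ℤ} (hS : ∀ x ∈ S, rf k c x ∈ S)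
    {e : Ed d} (he : e ∈ edg S) : b5_re k c e ∈ edg S := by
  rw [mem_edg] at he ⊢
  rcases b5_ends k c e with ⟨h1, h2⟩ | ⟨h1, h2⟩
  · rw [h1, h2]
    exact ⟨hS _ he.1, hS _ he.2⟩
  · rw [h1, h2]
    exact ⟨hS _ he.2, hS _ he.1⟩

private lemma b5_sum {S : Finset (Vx d)} {k : Fin d} {c : ℤ} (hS : ∀ x ∈ S, rf k c x ∈ S)
    (T : Finset (Vx d)) :
    ∑ e ∈ edg S, bond e (T.image (rf k c)) = ∑ e ∈ edg S, bond e T := by
  symm
  refine Finset.sum_bij' (fun e _ => b5_re k c e) (fun e _ => b5_re k c e)
    (fun e he => b5_re_mem hS he) (fun e he => b5_re_mem hS he) (fun e _ => b5_re_re k c e)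
    (fun e _ => b5_re_re k c e) fun e _ => (b5_bond k c T e).symm

private lemma b5_GI {S : Finset (Vx d)} {k : Fin d} {c : ℤ} (hS : ∀ x ∈ S, rf k c x ∈ S) (β : ℝ)
    (F : Finset (Vx d) → ℝ) :
    GI S (edg S) β F = GI S (edg S) β (fun T => F (T.image (rf k c))) := by
  have him : ∀ T : Finset (Vx d), (T.image (rf k c)).image (rf k c) = T := by
    intro T
    rw [Finset.image_image]
    have : rf k c ∘ rf k c = id := funext fun x => rf_rf k c x
    rw [this, Finset.image_id]
  have hsub : ∀ T ∈ S.powerset, T.image (rf k c) ∈ S.powerset := by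
    intro T hT
    rw [Finset.mem_powerset] at hT ⊢
    intro x hx
    obtain ⟨y, hy, rfl⟩ := Finset.mem_image.1 hx
    exact hS y (hT hy)
  unfold GI
  symm
  refine Finset.sum_bij' (fun T _ => T.image (rf k c)) (fun T _ => T.image (rf k c))
    hsub hsub (fun T _ => him T) (fun T _ => him T) fun T _ => ?_
  rw [b5_sum hS]

/-- as `cf_shift` in TC.L6: `rf k c` maps the edges in `S` to the edges in the image (for the edge
`(v, k)` the image is `(rf k c (tip (v, k)), k)`) -/
lemma cf_rf (S : Finset (Vx d)) (β : ℝ) (k : Fin d) (c : ℤ) (hS : ∀ x ∈ S, rf k c x ∈ S)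
    (u v : Vx d) : cf S β (rf k c u) (rf k c v) = cf S β u v := by
  unfold cf av
  rw [b5_GI hS]
  simp only [b5_spin]

/-! ## row b6: finite energy -/

private lemma b6a_edg (u : Vx d) (k : Fin d) : edg ({u, u + uv k} : Finset (Vx d)) = {(u, k)} := by
  ext e
  obtain ⟨v, j⟩ := e
  rw [mem_edg, Finset.mem_singleton]
  unfold tip
  simp only [Finset.mem_insert, Finset.mem_singleton, Prod.mk.injEq]
  constructor
  · rintro ⟨h1 | h1, h2 | h2⟩
    · exfalso
      rw [h1] at h2
      have h3 := congrFun h2 j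
      simp [uv] at h3
    · refine ⟨h1, ?_⟩
      rw [h1] at h2
      have h3 := congrFun (add_left_cancel h2) j
      by_contra h4
      simp [uv, h4] at h3
    · exfalso
      rw [h1] at h2
      have h3 := congrFun h2 j
      by_cases h4 : j = k
      · subst h4
        simp [uv] at h3
        omega
      · simp [uv, h4] at h3
    · exfalso
      rw [h1] at h2
      have h3 := congrFun h2 j
      simp [uv] at h3
  · rintro ⟨rfl, rfl⟩
    exact ⟨Or.inl rfl, Or.inr rfl⟩

private lemma b6a_GI (u : Vx d) (k : Fin d) (β : ℝ) (F : Finset (Vx d) → ℝ) :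
    GI ({u, u + uv k} : Finset (Vx d)) {(u, k)} β F =
      F ∅ * Real.exp β + F {u + uv k} * Real.exp (-β) +
        (F {u} * Real.exp (-β) + F {u, u + uv k} * Real.exp β) := by
  have hne : u ≠ u + uv k := by
    intro h
    have h1 := congrFun h k
    simp [uv] at h1
  unfold GI
  have h1 : ({u, u + uv k} : Finset (Vx d)).powerset = (insert u (insert (u + uv k) ∅) : Finset (Vx d)).powerset := by
    rw [insert_empty_eq]
  rw [h1, Finset.sum_powerset_insert (by simp [hne]),
    Finset.sum_powerset_insert (Finset.notMem_empty _),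
    Finset.sum_powerset_insert (Finset.notMem_empty _)]
  simp only [Finset.powerset_empty, Finset.sum_singleton, insert_empty_eq]
  have b0 : bond (u, k) (∅ : Finset (Vx d)) = 1 := by simp [bond, spin]
  have b1 : bond (u, k) ({u + uv k} : Finset (Vx d)) = -1 := by
    simp [bond, spin, tip, hne]
  have b2 : bond (u, k) ({u} : Finset (Vx d)) = -1 := by
    simp [bond, spin, tip, hne.symm]
  have b3 : bond (u, k) ({u, u + uv k} : Finset (Vx d)) = 1 := by
    simp [bond, spin, tip]
  rw [b0, b1, b2, b3]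
  simp

private lemma b6a_cf (u : Vx d) (k : Fin d) (β : ℝ) :
    cf ({u, u + uv k} : Finset (Vx d)) β u (u + uv k) = Real.tanh β := by
  have hne : u ≠ u + uv k := by
    intro h
    have h1 := congrFun h k
    simp [uv] at h1
  unfold cf av
  rw [b6a_edg, b6a_GI, b6a_GI, Real.tanh_eq_sinh_div_cosh, Real.sinh_eq, Real.cosh_eq]
  have s0 : spin (∅ : Finset (Vx d)) u * spin (∅ : Finset (Vx d)) (u + uv k) = 1 := by simp [spin]
  have s1 : spin ({u + uv k} : Finset (Vx d)) u * spin ({u + uv k} : Finset (Vx d)) (u + uv k)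
      = -1 := by simp [spin, hne]
  have s2 : spin ({u} : Finset (Vx d)) u * spin ({u} : Finset (Vx d)) (u + uv k) = -1 := by
    simp [spin, hne.symm]
  have s3 : spin ({u, u + uv k} : Finset (Vx d)) u * spin ({u, u + uv k} : Finset (Vx d)) (u + uv k)
      = 1 := by simp [spin]
  rw [s0, s1, s2, s3]
  have e1 := Real.exp_pos β
  have e2 := Real.exp_pos (-β)
  rw [div_eq_div_iff (by positivity) (by positivity)]
  ring

/-- on the set `{u, u + e_k}` the two-point function is `tanh β`; `cf_mono` -/
lemma cf_adj (S : Finset (Vx d)) (β : ℝ) (hβ : 0 ≤ β) (u : Vx d) (k : Fin d) (hu : u ∈ S)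
    (hv : u + uv k ∈ S) : Real.tanh β ≤ cf S β u (u + uv k) := by
  rw [← b6a_cf u k β]
  refine cf_mono _ S ?_ β β hβ le_rfl u (u + uv k) (by simp) (by simp)
  intro x hx
  rw [Finset.mem_insert, Finset.mem_singleton] at hx
  rcases hx with rfl | rfl
  · exact hu
  · exact hv

-- BEGIN b6b
private lemma b6b_tanh {β : ℝ} (hβ : 0 ≤ β) : 0 ≤ Real.tanh β := by
  rw [Real.tanh_eq_sinh_div_cosh]
  exact div_nonneg (Real.sinh_nonneg_iff.2 hβ) (Real.cosh_pos β).le

private lemma b6b_ind (a : Vx d) (n : Fin d → ℕ) (β : ℝ) (hβ : 0 ≤ β) (y : Vx d)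
    (hy : y ∈ bo a n) : ∀ (N : ℕ) (x : Vx d), x ∈ bo a n → (∑ k, (x k - y k).natAbs) = N →
      Real.tanh β ^ N ≤ cf (bo a n) β x y := by
  intro N
  induction N with
  | zero =>
    intro x _ h
    have h1 : x = y := by
      funext k
      have h2 := (Finset.sum_eq_zero_iff.1 h) k (Finset.mem_univ k)
      omega
    rw [h1, cf_self, pow_zero]
  | succ N ih =>
    intro x hx h
    have h1 : ∃ k, x k ≠ y k := by
      by_contra hcon
      push Not at hcon
      have h2 : (∑ k, (x k - y k).natAbs) = 0 :=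
        Finset.sum_eq_zero fun k _ => by rw [hcon k, sub_self]; rfl
      omega
    obtain ⟨k, hk⟩ := h1
    have hstep : ∀ x' : Vx d, x' ∈ bo a n → (∀ l, l ≠ k → x' l = x l) →
        (x' k - y k).natAbs + 1 = (x k - y k).natAbs → Real.tanh β ≤ cf (bo a n) β x x' →
        Real.tanh β ^ (N + 1) ≤ cf (bo a n) β x y := by
      intro x' hx' hl hk' hc
      have hN : (∑ l, (x' l - y l).natAbs) = N := by
        have h2 : (x k - y k).natAbs + ∑ l ∈ Finset.univ.erase k, (x l - y l).natAbs =
            ∑ l, (x l - y l).natAbs :=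
          Finset.add_sum_erase _ (fun l => (x l - y l).natAbs) (Finset.mem_univ k)
        have h3 : (x' k - y k).natAbs + ∑ l ∈ Finset.univ.erase k, (x' l - y l).natAbs =
            ∑ l, (x' l - y l).natAbs :=
          Finset.add_sum_erase _ (fun l => (x' l - y l).natAbs) (Finset.mem_univ k)
        have h4 : ∑ l ∈ Finset.univ.erase k, (x' l - y l).natAbs =
            ∑ l ∈ Finset.univ.erase k, (x l - y l).natAbs :=
          Finset.sum_congr rfl fun l hl' => by rw [hl l (Finset.ne_of_mem_erase hl')]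
        omega
      calc Real.tanh β ^ (N + 1) = Real.tanh β * Real.tanh β ^ N := pow_succ' _ _
        _ ≤ cf (bo a n) β x x' * cf (bo a n) β x' y :=
          mul_le_mul hc (ih x' hx' hN) (pow_nonneg (b6b_tanh hβ) N) (cf_nonneg _ _ hβ _ _)
        _ ≤ _ := cf_mul_le _ _ hβ _ _ _
    have hx0 := mem_bo.1 hx
    have hy0 := mem_bo.1 hy
    have hyk := hy0 k
    have hxk := hx0 k
    rcases lt_or_gt_of_ne hk with hlt | hgt
    · have e1 : (x + uv k) k = x k + 1 := by simp [uv]
      have e2 : ∀ l, l ≠ k → (x + uv k) l = x l := fun l hl => by simp [uv, hl]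
      have hm : x + uv k ∈ bo a n := by
        rw [mem_bo]
        intro l
        by_cases hl : l = k
        · subst hl
          rw [e1]
          omega
        · rw [e2 l hl]
          exact hx0 l
      refine hstep (x + uv k) hm e2 (by rw [e1]; omega) (cf_adj _ _ hβ _ _ hx hm)
    · have e1 : (x - uv k) k = x k - 1 := by simp [uv]
      have e2 : ∀ l, l ≠ k → (x - uv k) l = x l := fun l hl => by simp [uv, hl]
      have hm : x - uv k ∈ bo a n := by
        rw [mem_bo]
        intro l
        by_cases hl : l = k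
        · subst hl
          rw [e1]
          omega
        · rw [e2 l hl]
          exact hx0 l
      have h5 : Real.tanh β ≤ cf (bo a n) β (x - uv k) (x - uv k + uv k) :=
        cf_adj _ _ hβ _ _ hm (by rw [sub_add_cancel]; exact hx)
      rw [sub_add_cancel, cf_comm] at h5
      exact hstep (x - uv k) hm e2 (by rw [e1]; omega) h5

/-- `cf_mul_le` along a lattice path in the box -/
lemma cf_path (a : Vx d) (n : Fin d → ℕ) (β : ℝ) (hβ : 0 ≤ β) (x y : Vx d) (hx : x ∈ bo a n)
    (hy : y ∈ bo a n) : Real.tanh β ^ (∑ k, (x k - y k).natAbs) ≤ cf (bo a n) β x y := by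
  exact b6b_ind a n β hβ y hy _ x hx rfl
-- END b6b

/-! ## row l1: the inequality of Lebowitz and Percus -/

private theorem l1_bij (S : Finset (Vx d)) (T : Finset (Vx d)) (hT : T ⊆ S)
    (f : Finset (Vx d) → ℝ) : ∑ U ∈ S.powerset, f (symmDiff T U) = ∑ U ∈ S.powerset, f U := by
  have hsub : ∀ U ⊆ S, symmDiff T U ⊆ S := by
    intro U hU x hx
    rw [Finset.mem_symmDiff] at hx
    rcases hx with h | h
    · exact hT h.1
    · exact hU h.1
  refine Finset.sum_bij' (fun U _ => symmDiff T U) (fun U _ => symmDiff T U) ?_ ?_ ?_ ?_ ?_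
  · intro U hU
    rw [mem_powerset] at hU ⊢
    exact hsub U hU
  · intro U hU
    rw [mem_powerset] at hU ⊢
    exact hsub U hU
  · intro U _
    simp
  · intro U _
    simp
  · intro U _
    rfl

private theorem l1_bond (e : Ed d) : IsChar (bond e) :=
  isChar_mul _ _ (isChar_spin e.1) (isChar_spin (tip e))

private theorem l1_spin (v : Vx d) (T U : Finset (Vx d)) :
    spin (symmDiff T U) v = spin T v * spin U v := (isChar_spin v).2 T U

private theorem l1_odd (S : Finset (Vx d)) (β : ℝ) (i : Vx d) (hi : i ∈ S) :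
    GI S (edg S) β (fun T => spin T i) = 0 := by
  have h1 : GI S (edg S) β (fun T => spin T i) = - GI S (edg S) β (fun T => spin T i) := by
    unfold GI
    conv_lhs => rw [← l1_bij S S (Subset.refl S)]
    rw [← Finset.sum_neg_distrib]
    refine Finset.sum_congr rfl fun T _ => ?_
    have h2 : spin (symmDiff S T) i = - spin T i := by
      rw [l1_spin i S T]
      unfold spin
      by_cases h : i ∈ T <;> simp [hi, h]
    have h3 : ∀ e ∈ edg S, bond e (symmDiff S T) = bond e T := by
      intro e he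
      rw [mem_edg] at he
      rw [(l1_bond e).2 S T]
      have : bond e S = 1 := by
        unfold bond spin
        simp [he.1, he.2]
      rw [this, one_mul]
    show spin (symmDiff S T) i * _ = _
    rw [h2, Finset.sum_congr rfl h3]
    ring
  linarith

private theorem l1_key (S : Finset (Vx d)) (β : ℝ) (hβ : 0 ≤ β) (i j w g : Vx d) (hi : i ∈ S)
    (hj : j ∈ S) (hw : w ∈ S) (hg : g ∈ S) :
    0 ≤ GI S (edg S) β (fun T => spin T i * spin T j * (spin T w * spin T g)) *
        GI S (edg S) β (fun _ => 1) +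
      GI S (edg S) β (fun T => spin T i * spin T g) * GI S (edg S) β (fun T => spin T j * spin T w) -
      GI S (edg S) β (fun T => spin T i * spin T j) * GI S (edg S) β (fun T => spin T w * spin T g) -
      GI S (edg S) β (fun T => spin T i * spin T w) *
        GI S (edg S) β (fun T => spin T j * spin T g) := by
  have hmul : ∀ f h : Finset (Vx d) → ℝ, GI S (edg S) β f * GI S (edg S) β h =
      ∑ T ∈ S.powerset, ∑ U ∈ S.powerset,
        f T * h U * (Real.exp (β * ∑ e ∈ edg S, bond e T) * Real.exp (β * ∑ e ∈ edg S, bond e U)) := by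
    intro f h
    unfold GI
    rw [Finset.sum_mul_sum]
    refine Finset.sum_congr rfl fun T _ => Finset.sum_congr rfl fun U _ => ?_
    ring
  have oi := l1_odd S β i hi
  have oj := l1_odd S β j hj
  have ow := l1_odd S β w hw
  have og := l1_odd S β g hg
  -- the full expansion
  have h1 : 2 * (GI S (edg S) β (fun T => spin T i * spin T j * (spin T w * spin T g)) *
        GI S (edg S) β (fun _ => 1) +
      GI S (edg S) β (fun T => spin T i * spin T g) * GI S (edg S) β (fun T => spin T j * spin T w) -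
      GI S (edg S) β (fun T => spin T i * spin T j) * GI S (edg S) β (fun T => spin T w * spin T g) -
      GI S (edg S) β (fun T => spin T i * spin T w) *
        GI S (edg S) β (fun T => spin T j * spin T g)) =
      ∑ T ∈ S.powerset, ∑ U ∈ S.powerset,
        (spin T i + spin U i) * (spin T g + spin U g) * (spin T j - spin U j) *
          (spin T w - spin U w) * (Real.exp (β * ∑ e ∈ edg S, bond e T) *
            Real.exp (β * ∑ e ∈ edg S, bond e U)) := by
    have e1 : 2 * (GI S (edg S) β (fun T => spin T i * spin T j * (spin T w * spin T g)) *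
        GI S (edg S) β (fun _ => 1) +
      GI S (edg S) β (fun T => spin T i * spin T g) * GI S (edg S) β (fun T => spin T j * spin T w) -
      GI S (edg S) β (fun T => spin T i * spin T j) * GI S (edg S) β (fun T => spin T w * spin T g) -
      GI S (edg S) β (fun T => spin T i * spin T w) *
        GI S (edg S) β (fun T => spin T j * spin T g)) =
      GI S (edg S) β (fun T => spin T i * spin T j * (spin T w * spin T g)) *
        GI S (edg S) β (fun _ => 1)
      - GI S (edg S) β (fun T => spin T i * spin T g * spin T j) * GI S (edg S) β (fun T => spin T w)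
      - GI S (edg S) β (fun T => spin T i * spin T g * spin T w) * GI S (edg S) β (fun T => spin T j)
      + GI S (edg S) β (fun T => spin T i * spin T g) * GI S (edg S) β (fun T => spin T j * spin T w)
      + GI S (edg S) β (fun T => spin T i * spin T j * spin T w) * GI S (edg S) β (fun T => spin T g)
      - GI S (edg S) β (fun T => spin T i * spin T j) * GI S (edg S) β (fun T => spin T w * spin T g)
      - GI S (edg S) β (fun T => spin T i * spin T w) * GI S (edg S) β (fun T => spin T j * spin T g)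
      + GI S (edg S) β (fun T => spin T i) * GI S (edg S) β (fun T => spin T g * spin T j * spin T w)
      + GI S (edg S) β (fun T => spin T g * spin T j * spin T w) * GI S (edg S) β (fun T => spin T i)
      - GI S (edg S) β (fun T => spin T j * spin T g) * GI S (edg S) β (fun T => spin T i * spin T w)
      - GI S (edg S) β (fun T => spin T w * spin T g) * GI S (edg S) β (fun T => spin T i * spin T j)
      + GI S (edg S) β (fun T => spin T g) * GI S (edg S) β (fun T => spin T i * spin T j * spin T w)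
      + GI S (edg S) β (fun T => spin T j * spin T w) * GI S (edg S) β (fun T => spin T i * spin T g)
      - GI S (edg S) β (fun T => spin T j) * GI S (edg S) β (fun T => spin T i * spin T g * spin T w)
      - GI S (edg S) β (fun T => spin T w) * GI S (edg S) β (fun T => spin T i * spin T g * spin T j)
      + GI S (edg S) β (fun _ => 1) *
        GI S (edg S) β (fun T => spin T i * spin T j * (spin T w * spin T g)) := by
      rw [oi, oj, ow, og]
      ring
    rw [e1]
    simp only [hmul, ← Finset.sum_add_distrib, ← Finset.sum_sub_distrib]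
    refine Finset.sum_congr rfl fun T _ => Finset.sum_congr rfl fun U _ => ?_
    ring
  have h2 : 0 ≤ ∑ T ∈ S.powerset, ∑ U ∈ S.powerset,
        (spin T i + spin U i) * (spin T g + spin U g) * (spin T j - spin U j) *
          (spin T w - spin U w) * (Real.exp (β * ∑ e ∈ edg S, bond e T) *
            Real.exp (β * ∑ e ∈ edg S, bond e U)) := by
    have h3 : ∀ T ∈ S.powerset, ∑ U ∈ S.powerset,
        (spin T i + spin U i) * (spin T g + spin U g) * (spin T j - spin U j) *
          (spin T w - spin U w) * (Real.exp (β * ∑ e ∈ edg S, bond e T) *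
            Real.exp (β * ∑ e ∈ edg S, bond e U)) =
        ∑ U ∈ S.powerset, (1 + spin U i) * (1 + spin U g) * (1 - spin U j) * (1 - spin U w) *
          (spin T i * spin T j * (spin T w * spin T g) *
            Real.exp (∑ e ∈ edg S, β * (1 + bond e U) * bond e T)) := by
      intro T hT
      rw [← l1_bij S T (mem_powerset.mp hT)]
      refine Finset.sum_congr rfl fun U _ => ?_
      have h4 : Real.exp (β * ∑ e ∈ edg S, bond e T) *
          Real.exp (β * ∑ e ∈ edg S, bond e (symmDiff T U)) =
          Real.exp (∑ e ∈ edg S, β * (1 + bond e U) * bond e T) := by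
        rw [← Real.exp_add, Finset.mul_sum, Finset.mul_sum, ← Finset.sum_add_distrib]
        congr 1
        refine Finset.sum_congr rfl fun e _ => ?_
        rw [(l1_bond e).2 T U]
        ring
      rw [h4, l1_spin i T U, l1_spin j T U, l1_spin w T U, l1_spin g T U]
      ring
    rw [Finset.sum_congr rfl h3, Finset.sum_comm]
    refine Finset.sum_nonneg fun U _ => ?_
    rw [← Finset.mul_sum]
    have hs : ∀ v : Vx d, 0 ≤ 1 + spin U v ∧ 0 ≤ 1 - spin U v := by
      intro v
      rcases (isChar_spin v).1 U with h | h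
      · simp only at h
        rw [h]
        norm_num
      · simp only at h
        rw [h]
        norm_num
    refine mul_nonneg (mul_nonneg (mul_nonneg (mul_nonneg (hs i).1 (hs g).1) (hs j).2) (hs w).2) ?_
    have h5 := griffiths1 S (edg S) (fun e => bond e) (fun e _ => l1_bond e)
      (fun e => β * (1 + bond e U)) (fun e _ => by
        refine mul_nonneg hβ ?_
        rcases (l1_bond e).1 U with h | h
        · rw [h]
          norm_num
        · rw [h]
          norm_num)
      (fun T => spin T i * spin T j * (spin T w * spin T g))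
      (isChar_mul _ _ (isChar_mul _ _ (isChar_spin i) (isChar_spin j))
        (isChar_mul _ _ (isChar_spin w) (isChar_spin g)))
    exact h5
  linarith

/-- Duplicate variables `s`, `s' = s t`: `E E' (s_i + s'_i)(s_g + s'_g)(s_j - s'_j)(s_w - s'_w) ≥ 0`, because
given `t` the spins `s` are ferromagnetic with couplings `β (1 + t_x t_y)`, and the expectation of
`s_i s_g s_j s_w` is `≥ 0` (`griffiths1`), the other factor is `(1 + t_i)(1 + t_g)(1 - t_j)(1 - t_w) ≥ 0`.
Expanding (odd correlations vanish: all four points are in `S`):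
`⟨ijwg⟩ + ⟨ig⟩⟨jw⟩ - ⟨ij⟩⟨wg⟩ - ⟨iw⟩⟨jg⟩ ≥ 0`; the same with `w` and `g` exchanged. -/
theorem lp4 (S : Finset (Vx d)) (β : ℝ) (hβ : 0 ≤ β) (i j w g : Vx d) (hi : i ∈ S) (hj : j ∈ S)
    (hw : w ∈ S) (hg : g ∈ S) :
    |cf S β i w * cf S β j g - cf S β i g * cf S β j w| ≤
      c4 S β i j w g - cf S β i j * cf S β w g := by
  have hZ : 0 < GI S (edg S) β (fun _ => 1) := by
    unfold GI
    exact Finset.sum_pos (fun T _ => by positivity) ⟨∅, empty_mem_powerset S⟩
  have k1 := l1_key S β hβ i j w g hi hj hw hg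
  have k2 := l1_key S β hβ i j g w hi hj hg hw
  have e1 : (fun T : Finset (Vx d) => spin T i * spin T j * (spin T g * spin T w)) =
      fun T => spin T i * spin T j * (spin T w * spin T g) := by
    funext T
    ring
  have e2 : (fun T : Finset (Vx d) => spin T g * spin T w) = fun T => spin T w * spin T g := by
    funext T
    ring
  rw [e1, e2] at k2
  unfold c4 cf av
  set Z := GI S (edg S) β (fun _ => 1)
  have d2 : ∀ p q r s : ℝ, p / Z * (q / Z) - r / Z * (s / Z) = (p * q - r * s) / (Z * Z) := by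
    intro p q r s
    field_simp
  have d3 : ∀ p q r : ℝ, p / Z - q / Z * (r / Z) = (p * Z - q * r) / (Z * Z) := by
    intro p q r
    field_simp
  rw [d2, d3, abs_le]
  have hZZ : 0 < Z * Z := mul_pos hZ hZ
  constructor
  · rw [← neg_div, div_le_div_iff_of_pos_right hZZ]
    linarith
  · rw [div_le_div_iff_of_pos_right hZZ]
    linarith

/-! ## row l2: the derivative of the two-point function -/

-- BEGIN l2
private lemma l2_pos (S : Finset (Vx d)) (E : Finset (Ed d)) (β : ℝ) :
    0 < GI S E β (fun _ => 1) := by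
  unfold GI
  refine Finset.sum_pos (fun T _ => ?_) ⟨∅, Finset.empty_mem_powerset S⟩
  rw [one_mul]
  exact Real.exp_pos _

private lemma l2_GI (S : Finset (Vx d)) (E : Finset (Ed d)) (β : ℝ) (f : Finset (Vx d) → ℝ) :
    HasDerivAt (fun b => GI S E b f) (∑ e ∈ E, GI S E β (fun T => bond e T * f T)) β := by
  have h1 : ∀ T ∈ S.powerset, HasDerivAt (fun b : ℝ => f T * Real.exp (b * ∑ e ∈ E, bond e T))
      (f T * (Real.exp (β * ∑ e ∈ E, bond e T) * ∑ e ∈ E, bond e T)) β := fun T _ =>
    (((hasDerivAt_id β).mul_const (∑ e ∈ E, bond e T)).exp.const_mul (f T)).congr_deriv (by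
      simp)
  have h2 := HasDerivAt.fun_sum h1
  refine h2.congr_deriv ?_
  unfold GI
  rw [Finset.sum_comm]
  refine Finset.sum_congr rfl fun T _ => ?_
  rw [Finset.mul_sum, Finset.mul_sum]
  refine Finset.sum_congr rfl fun e _ => ?_
  ring

theorem hasDerivAt_cf (S : Finset (Vx d)) (β : ℝ) (u v : Vx d) :
    HasDerivAt (fun b => cf S b u v)
      (∑ e ∈ edg S, (c4 S β e.1 (tip e) u v - cf S β e.1 (tip e) * cf S β u v)) β := by
  have hp := l2_pos S (edg S) β
  have h := (l2_GI S (edg S) β (fun T => spin T u * spin T v)).fun_div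
    (l2_GI S (edg S) β (fun _ => 1)) hp.ne'
  refine h.congr_deriv ?_
  rw [Finset.sum_sub_distrib, ← Finset.sum_mul]
  have e1 : ∑ e ∈ edg S, c4 S β e.1 (tip e) u v =
      (∑ e ∈ edg S, GI S (edg S) β (fun T => bond e T * (spin T u * spin T v))) /
        GI S (edg S) β (fun _ => 1) := by
    rw [Finset.sum_div]
    rfl
  have e2 : ∑ e ∈ edg S, cf S β e.1 (tip e) =
      (∑ e ∈ edg S, GI S (edg S) β (fun T => bond e T * 1)) / GI S (edg S) β (fun _ => 1) := by
    rw [Finset.sum_div]
    simp only [mul_one]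
    rfl
  have e3 : cf S β u v =
      GI S (edg S) β (fun T => spin T u * spin T v) / GI S (edg S) β (fun _ => 1) := rfl
  rw [e1, e2, e3]
  have hne := hp.ne'
  field_simp
-- END l2

/-! ## row l3: (LP') -/

-- BEGIN l3
/-- Sum `lp4` over `x ∈ A`, `y ∈ B` for every edge. -/
theorem kk_deriv (S : Finset (Vx d)) (β : ℝ) (hβ : 0 ≤ β) (A B : Finset (Vx d)) (hA : A ⊆ S)
    (hB : B ⊆ S) : ∃ D : ℝ, HasDerivAt (fun b => kk S b A B) D β ∧
      ∑ e ∈ edg S, |mm S β A e.1 * mm S β B (tip e) - mm S β A (tip e) * mm S β B e.1| ≤ D := by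
  refine ⟨∑ x ∈ A, ∑ y ∈ B, ∑ e ∈ edg S,
    (c4 S β e.1 (tip e) x y - cf S β e.1 (tip e) * cf S β x y), ?_, ?_⟩
  · unfold kk mm
    exact HasDerivAt.fun_sum fun x _ => HasDerivAt.fun_sum fun y _ => hasDerivAt_cf S β x y
  · have h1 : ∑ x ∈ A, ∑ y ∈ B, ∑ e ∈ edg S,
        (c4 S β e.1 (tip e) x y - cf S β e.1 (tip e) * cf S β x y) =
        ∑ e ∈ edg S, ∑ x ∈ A, ∑ y ∈ B,
          (c4 S β e.1 (tip e) x y - cf S β e.1 (tip e) * cf S β x y) := by
      rw [Finset.sum_comm]
      rw [Finset.sum_congr rfl fun y _ => Finset.sum_comm]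
      rw [Finset.sum_comm]
      exact Finset.sum_congr rfl fun e _ => Finset.sum_comm
    rw [h1]
    refine Finset.sum_le_sum fun e he => ?_
    rw [mem_edg] at he
    have h2 : mm S β A e.1 * mm S β B (tip e) - mm S β A (tip e) * mm S β B e.1 =
        ∑ x ∈ A, ∑ y ∈ B, (cf S β e.1 x * cf S β (tip e) y - cf S β e.1 y * cf S β (tip e) x) := by
      unfold mm
      rw [Finset.sum_mul_sum, Finset.sum_mul_sum, ← Finset.sum_sub_distrib]
      refine Finset.sum_congr rfl fun x _ => ?_
      rw [← Finset.sum_sub_distrib]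
      refine Finset.sum_congr rfl fun y _ => ?_
      ring
    rw [h2]
    refine (Finset.abs_sum_le_sum_abs _ _).trans (Finset.sum_le_sum fun x hx => ?_)
    refine (Finset.abs_sum_le_sum_abs _ _).trans (Finset.sum_le_sum fun y hy => ?_)
    exact lp4 S β hβ e.1 (tip e) x y he.1 he.2 (hA hx) (hB hy)
-- END l3

end Pool.Agent.Slb
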