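import Pool.Agent.Slb.Bas

/-!
# Slb: reflection into an orthant (rows o1..o3)
-/

set_option autoImplicit false

namespace Pool.Agent.Slb

open Finset Pool.Agent.SRC Pool.Agent.TC

variable {d : ℕ}

/-- `y` reflected at `i` in the directions of `P` into the orthant with signs `ε` -/
def fold (P : Finset (Fin d)) (ε : Fin d → ℤ) (i y : Vx d) : Vx d :=
  fun k => if k ∈ P then i k + ε k * |y k - i k| else y k

/-! ## row o1 -/

/-- one more direction -/
private lemma o1_insert (Q : Finset (Fin d)) (ε : Fin d → ℤ) (i y : Vx d) (k : Fin d)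
    (hk : k ∉ Q) (hε : ε k = 1 ∨ ε k = -1) :
    fold (insert k Q) ε i y = fold Q ε i y ∨
      fold (insert k Q) ε i y = rf k (2 * i k) (fold Q ε i y) := by
  have h0 : i k + ε k * |y k - i k| = y k ∨ i k + ε k * |y k - i k| = 2 * i k - y k := by
    rcases hε with h | h <;> rcases abs_cases (y k - i k) with ⟨h1, _⟩ | ⟨h1, _⟩ <;>
      rw [h, h1] <;> [left; right; right; left] <;> ring
  rcases h0 with h0 | h0
  · left
    funext l
    unfold fold
    by_cases hl : l = k
    · subst hl
      simp only [Finset.mem_insert, true_or, if_true, hk, if_false]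
      exact h0
    · simp only [Finset.mem_insert, hl, false_or]
  · right
    funext l
    unfold rf
    by_cases hl : l = k
    · subst hl
      rw [Function.update_self]
      unfold fold
      simp only [Finset.mem_insert, true_or, if_true, hk, if_false]
      exact h0
    · rw [Function.update_of_ne hl]
      unfold fold
      simp only [Finset.mem_insert, hl, false_or]

/-- induction over the set of directions -/
private lemma o1_aux (P : Finset (Fin d)) (ε : Fin d → ℤ) (hε : ∀ k, ε k = 1 ∨ ε k = -1)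
    (Λ : Finset (Vx d)) (i : Vx d) (hΛ : ∀ k ∈ P, ∀ x ∈ Λ, rf k (2 * i k) x ∈ Λ) (β : ℝ)
    (y : Vx d) (hy : y ∈ Λ) (Q : Finset (Fin d)) : Q ⊆ P →
      fold Q ε i y ∈ Λ ∧ cf Λ β i (fold Q ε i y) = cf Λ β i y := by
  induction Q using Finset.induction_on with
  | empty =>
    intro _
    have h1 : fold (∅ : Finset (Fin d)) ε i y = y := by
      funext l
      simp [fold]
    rw [h1]
    exact ⟨hy, rfl⟩
  | insert k Q hk ih =>
    intro hQ
    have h1 := ih ((Finset.subset_insert k Q).trans hQ)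
    have hkP : k ∈ P := hQ (Finset.mem_insert_self k Q)
    rcases o1_insert Q ε i y k hk (hε k) with h | h
    · rw [h]
      exact h1
    · rw [h]
      refine ⟨hΛ k hkP _ h1.1, ?_⟩
      have h2 : rf k (2 * i k) i = i := by
        funext l
        unfold rf
        by_cases hl : l = k
        · subst hl
          rw [Function.update_self]
          ring
        · rw [Function.update_of_ne hl]
      have h3 := cf_rf Λ β k (2 * i k) (hΛ k hkP) i (fold Q ε i y)
      rw [h2] at h3
      rw [h3]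
      exact h1.2

/-- If `Λ` is invariant under the reflections at `i` in the directions of `P`. Induction over `P`: one
reflection `rf k (2 * i k)` if `ε k * (y k - i k) < 0` (`cf_rf`, it fixes `i`). -/
lemma cf_fold (P : Finset (Fin d)) (ε : Fin d → ℤ) (hε : ∀ k, ε k = 1 ∨ ε k = -1)
    (Λ : Finset (Vx d)) (i : Vx d) (hΛ : ∀ k ∈ P, ∀ x ∈ Λ, rf k (2 * i k) x ∈ Λ) (β : ℝ)
    (y : Vx d) (hy : y ∈ Λ) : fold P ε i y ∈ Λ ∧ cf Λ β i (fold P ε i y) = cf Λ β i y := by
  exact o1_aux P ε hε Λ i hΛ β y hy P (Finset.Subset.refl P)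

/-- at most `2 ^ |P|` points have the same image -/
lemma card_fold (P : Finset (Fin d)) (ε : Fin d → ℤ) (hε : ∀ k, ε k = 1 ∨ ε k = -1) (i z : Vx d)
    (Y : Finset (Vx d)) : (Y.filter (fun y => fold P ε i y = z)).card ≤ 2 ^ P.card := by
  rw [← Finset.card_powerset]
  apply Finset.card_le_card_of_injOn (fun y => P.filter (fun k => i k ≤ y k))
  · intro y _
    exact Finset.mem_coe.mpr (Finset.mem_powerset.mpr (Finset.filter_subset _ _))
  · intro y hy y' hy' h
    rw [Finset.mem_coe, Finset.mem_filter] at hy hy'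
    have h1 : fold P ε i y = fold P ε i y' := hy.2.trans hy'.2.symm
    funext k
    have h2 := congrFun h1 k
    unfold fold at h2
    by_cases hk : k ∈ P
    · simp only [hk, if_true] at h2
      have h3 : i k ≤ y k ↔ i k ≤ y' k := by
        have h4 := congrArg (fun s : Finset (Fin d) => k ∈ s) h
        simp only [Finset.mem_filter, hk, true_and, eq_iff_iff] at h4
        exact h4
      have h5 : |y k - i k| = |y' k - i k| := by
        rcases hε k with h4 | h4 <;> rw [h4] at h2 <;> omega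
      rcases abs_cases (y k - i k) with ⟨h6, _⟩ | ⟨h6, _⟩ <;>
        rcases abs_cases (y' k - i k) with ⟨h7, _⟩ | ⟨h7, _⟩ <;> omega
    · simp only [hk, if_false] at h2
      exact h2

/-! ## row o2 -/

/-- `B` contains the orthant part. `cf_fold`, `card_fold`, `Finset.sum_fiberwise_of_maps_to`. -/
theorem orth (P : Finset (Fin d)) (ε : Fin d → ℤ) (hε : ∀ k, ε k = 1 ∨ ε k = -1)
    (Λ : Finset (Vx d)) (i : Vx d) (hΛ : ∀ k ∈ P, ∀ x ∈ Λ, rf k (2 * i k) x ∈ Λ)
    (β : ℝ) (hβ : 0 ≤ β) (Y B : Finset (Vx d)) (hY : Y ⊆ Λ) (hB : ∀ y ∈ Y, fold P ε i y ∈ B) :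
    ∑ y ∈ Y, cf Λ β i y ≤ 2 ^ P.card * mm Λ β B i := by
  have h1 : ∑ y ∈ Y, cf Λ β i y = ∑ y ∈ Y, cf Λ β i (fold P ε i y) :=
    Finset.sum_congr rfl fun y hy => ((cf_fold P ε hε Λ i hΛ β y (hY hy)).2).symm
  rw [h1, ← Finset.sum_fiberwise_of_maps_to hB]
  unfold mm
  rw [Finset.mul_sum]
  refine Finset.sum_le_sum fun z _ => ?_
  have h2 : ∑ y ∈ Y with fold P ε i y = z, cf Λ β i (fold P ε i y) =
      ((Y.filter (fun y => fold P ε i y = z)).card : ℝ) * cf Λ β i z := by
    rw [Finset.sum_congr rfl (g := fun _ => cf Λ β i z) (fun y hy => by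
      rw [(Finset.mem_filter.1 hy).2]), Finset.sum_const, nsmul_eq_mul]
  rw [h2]
  refine mul_le_mul_of_nonneg_right ?_ (cf_nonneg Λ β hβ i z)
  exact_mod_cast card_fold P ε hε i z Y

/-! ## row o3 -/

/-- the neighbourhood of `i`, symmetric in the directions of `P` -/
noncomputable def Lam (P : Finset (Fin d)) (q : ℕ) (i : Vx d) (t : ℕ) : Finset (Vx d) :=
  Db P q (fun k => i k - (t : ℤ)) (2 * t + 1)

/-- the points of the core with `|y_k - i_k| < t` for `k ∈ P` -/
noncomputable def Ysh (P : Finset (Fin d)) (q : ℕ) (i : Vx d) (t : ℕ) : Finset (Vx d) :=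
  Cb P q (fun k => i k - ((t : ℤ) - 1)) (2 * t - 1)

/- BEGIN o3 (helper83) -/
/-- `orth` with `Λ = Lam P q i t`, `ε k = 1` if `i k < a k + t` and `-1` otherwise, `Y = Ysh P q i t`,
`B = Cb P q a (2 t) ∩ Λ`; then `mm_mono`, `mm_dom` (`Λ ⊆ Db P q (a - t) (4 t)`). -/
theorem mb_of_point (P : Finset (Fin d)) (q : ℕ) (hq : 1 ≤ q) (β : ℝ) (hβ : 0 ≤ β) (t : ℕ)
    (ht : 1 ≤ t) (c : ℝ) (h : ∀ i : Vx d, (∀ k, k ∉ P → (q : ℤ) ≤ i k ∧ i k < 3 * q) →
      2 ^ P.card * c * ((2 * t : ℝ) ^ P.card * (2 * q : ℝ) ^ (d - P.card)) ≤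
        ∑ y ∈ Ysh P q i t, cf (Lam P q i t) β i y) : MB P q β c t := by
  classical
  intro a i hi
  have hi' := mem_Cb.1 hi
  let ε : Fin d → ℤ := fun k => if i k < a k + t then 1 else -1
  have hε : ∀ k, ε k = 1 ∨ ε k = -1 := by
    intro k
    simp only [ε]
    split_ifs
    · exact Or.inl rfl
    · exact Or.inr rfl
  have h2t : ((2 * t - 1 : ℕ) : ℤ) = 2 * t - 1 := by omega
  have hΛ : ∀ k ∈ P, ∀ x ∈ Lam P q i t, rf k (2 * i k) x ∈ Lam P q i t := by
    intro k hk x hx
    have hx' := mem_Db.1 hx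
    refine mem_Db.2 fun l => ?_
    by_cases hl : l = k
    · subst hl
      have h1 := (hx' l).1 hk
      have h2 : rf l (2 * i l) x l = 2 * i l - x l := Function.update_self _ _ _
      rw [h2]
      refine ⟨fun _ => ?_, fun h3 => absurd hk h3⟩
      push_cast at h1 ⊢
      constructor <;> linarith [h1.1, h1.2]
    · have h2 : rf k (2 * i k) x l = x l := Function.update_of_ne hl _ _
      rw [h2]
      exact hx' l
  let B : Finset (Vx d) := Cb P q a (2 * t) ∩ Lam P q i t
  have hY : Ysh P q i t ⊆ Lam P q i t := by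
    intro y hy
    have hy' := mem_Cb.1 hy
    refine mem_Db.2 fun k => ⟨fun hk => ?_, fun hk => ?_⟩
    · have h1 := (hy' k).1 hk
      rw [h2t] at h1
      push_cast
      constructor <;> linarith [h1.1, h1.2]
    · have h1 := (hy' k).2 hk
      constructor <;> linarith [h1.1, h1.2]
  have hB : ∀ y ∈ Ysh P q i t, fold P ε i y ∈ B := by
    intro y hy
    have hy' := mem_Cb.1 hy
    refine Finset.mem_inter.2 ⟨mem_Cb.2 fun k => ⟨fun hk => ?_, fun hk => ?_⟩,
      mem_Db.2 fun k => ⟨fun hk => ?_, fun hk => ?_⟩⟩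
    · have h1 := (hy' k).1 hk
      have h3 := (hi' k).1 hk
      rw [h2t] at h1
      have h4 : |y k - i k| ≤ t - 1 := abs_le.2 ⟨by linarith [h1.1], by linarith [h1.2]⟩
      have h5 := abs_nonneg (y k - i k)
      simp only [fold, if_pos hk, ε]
      push_cast at h3 ⊢
      split_ifs with h6
      · constructor <;> linarith [h3.1, h3.2]
      · have h7 : a k + t ≤ i k := not_lt.1 h6
        constructor <;> linarith [h3.1, h3.2]
    · simp only [fold, if_neg hk]
      exact (hy' k).2 hk
    · have h1 := (hy' k).1 hk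
      rw [h2t] at h1
      have h4 : |y k - i k| ≤ t - 1 := abs_le.2 ⟨by linarith [h1.1], by linarith [h1.2]⟩
      have h5 := abs_nonneg (y k - i k)
      simp only [fold, if_pos hk, ε]
      push_cast
      split_ifs with h6
      · constructor <;> linarith
      · constructor <;> linarith
    · simp only [fold, if_neg hk]
      have h1 := (hy' k).2 hk
      constructor <;> linarith [h1.1, h1.2]
  have h1 := orth P ε hε (Lam P q i t) i hΛ β hβ (Ysh P q i t) B hY hB
  have hiΛ : i ∈ Lam P q i t := by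
    refine mem_Db.2 fun k => ⟨fun hk => ?_, fun hk => ?_⟩
    · push_cast
      constructor <;> linarith [(Int.natCast_nonneg t : (0 : ℤ) ≤ t)]
    · have h2 := (hi' k).2 hk
      constructor <;> linarith [h2.1, h2.2]
  have hsub : Lam P q i t ⊆ Db P q (fun k => a k - (t : ℤ)) (4 * t) := by
    intro x hx
    have hx' := mem_Db.1 hx
    refine mem_Db.2 fun k => ⟨fun hk => ?_, (hx' k).2⟩
    have h2 := (hx' k).1 hk
    have h3 := (hi' k).1 hk
    push_cast at h2 h3 ⊢
    constructor <;> linarith [h2.1, h2.2, h3.1, h3.2]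
  have h2 : mm (Lam P q i t) β B i ≤
      mm (Db P q (fun k => a k - (t : ℤ)) (4 * t)) β (Cb P q a (2 * t)) i :=
    (mm_dom hsub hβ le_rfl Finset.inter_subset_right hiΛ).trans
      (mm_mono _ β hβ Finset.inter_subset_left i)
  have h3 := h i fun k hk => (hi' k).2 hk
  have h4 : (0 : ℝ) < 2 ^ P.card := by positivity
  rw [card_Cb]
  push_cast
  have h5 : 2 ^ P.card * (c * ((2 * t : ℝ) ^ P.card * (2 * q : ℝ) ^ (d - P.card))) ≤
      2 ^ P.card * mm (Db P q (fun k => a k - (t : ℤ)) (4 * t)) β (Cb P q a (2 * t)) i := by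
    rw [← mul_assoc]
    exact h3.trans (h1.trans (mul_le_mul_of_nonneg_left h2 h4.le))
  exact le_of_mul_le_mul_left h5 h4
/- END o3 -/

end Pool.Agent.Slb
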