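import Pool.Agent.Slb.Whit
import Pool.Agent.Slb.Orth

/-!
# Slb: cubes (rows w1..w4)
-/

set_option autoImplicit false

namespace Pool.Agent.Slb

open Finset Pool.Agent.SRC Pool.Agent.TC

variable {d : ℕ}

/-! ## row w1 -/

/- BEGIN w1 (helper83) -/
/-- `mb_of_point` with `P = univ`, `q = 1`: `Lam univ 1 i t = cb i t`, `Ysh univ 1 i t = cb i (t - 1)`; the sum
is at least `c0 (t - 1)^d ≥ c0 (t / 2)^d` (translate `LRO` from `0` to `i`, `cf_mono`). -/
theorem mb_cube (β : ℝ) (hβ : 0 ≤ β) (h : LRO d β) :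
    ∃ c : ℝ, 0 < c ∧ ∃ t0 : ℕ, 1 ≤ t0 ∧ ∀ t : ℕ, t0 ≤ t → MB (Finset.univ : Finset (Fin d)) 1 β c t := by
  classical
  obtain ⟨c0, hc0, R0, hR⟩ := h
  refine ⟨c0 / 8 ^ d, by positivity, max (R0 + 1) 2, le_max_of_le_right (by norm_num),
    fun t ht => ?_⟩
  have ht1 : R0 + 1 ≤ t := (le_max_left _ _).trans ht
  have ht2 : 2 ≤ t := (le_max_right _ _).trans ht
  refine mb_of_point Finset.univ 1 le_rfl β hβ t (by omega) _ fun i _ => ?_
  have e1 : Lam (Finset.univ : Finset (Fin d)) 1 i t = cb i t := by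
    ext x
    unfold Lam
    rw [mem_Db, mem_cb]
    refine forall_congr' fun k => ?_
    simp only [Finset.mem_univ, true_imp_iff, not_true_eq_false, false_imp_iff, and_true]
    omega
  have e2 : Ysh (Finset.univ : Finset (Fin d)) 1 i t = cb i (t - 1) := by
    ext x
    unfold Ysh
    rw [mem_Cb, mem_cb]
    refine forall_congr' fun k => ?_
    simp only [Finset.mem_univ, true_imp_iff, not_true_eq_false, false_imp_iff, and_true]
    omega
  have h1 := hR (t - 1) (by omega)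
  have hsub : cb i (t - 1) ⊆ cb i t := by
    intro x hx
    have hx' := mem_cb.1 hx
    refine mem_cb.2 fun k => ?_
    have h2 := hx' k
    omega
  have e3 : (cb (0 : Vx d) (t - 1)).image (fun z => z + i) = cb i (t - 1) := by
    ext x
    rw [Finset.mem_image, mem_cb]
    constructor
    · rintro ⟨z, hz, rfl⟩ k
      have h2 := mem_cb.1 hz k
      have h3 : (0 : Vx d) k = 0 := rfl
      rw [h3] at h2
      show i k - _ ≤ z k + i k ∧ z k + i k ≤ i k + _
      constructor <;> linarith [h2.1, h2.2]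
    · intro hx
      refine ⟨x - i, mem_cb.2 fun k => ?_, sub_add_cancel x i⟩
      have h2 := hx k
      show (0 : ℤ) - _ ≤ x k - i k ∧ x k - i k ≤ 0 + _
      constructor <;> linarith [h2.1, h2.2]
  have hi : i ∈ cb i (t - 1) := mem_cb.2 fun k => by
    have := Int.natCast_nonneg (t - 1)
    constructor <;> linarith
  have h2 : ∑ y ∈ cb (0 : Vx d) (t - 1), cf (cb (0 : Vx d) (t - 1)) β 0 y ≤
      ∑ y ∈ cb i (t - 1), cf (cb i t) β i y := by
    rw [← e3, Finset.sum_image fun _ _ _ _ hab => add_right_cancel hab]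
    refine Finset.sum_le_sum fun y hy => ?_
    have h3 := (cf_shift (cb (0 : Vx d) (t - 1)) β 0 y i).1
    rw [e3, zero_add] at h3
    rw [← h3]
    have hy' : y + i ∈ cb i (t - 1) := by
      rw [← e3]
      exact Finset.mem_image.2 ⟨y, hy, rfl⟩
    exact cf_mono _ _ hsub β β hβ le_rfl _ _ hi hy'
  rw [e1, e2, Finset.card_univ, Fintype.card_fin, Nat.sub_self, pow_zero, mul_one]
  refine le_trans ?_ (h1.trans h2)
  have h3 : (t : ℝ) / 2 ≤ ((t - 1 : ℕ) : ℝ) := by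
    rw [Nat.cast_sub (by omega)]
    have : (2 : ℝ) ≤ t := by exact_mod_cast ht2
    push_cast
    linarith
  have h4 : ((t : ℝ) / 2) ^ d ≤ ((t - 1 : ℕ) : ℝ) ^ d := pow_le_pow_left₀ (by positivity) h3 d
  calc (2 : ℝ) ^ d * (c0 / 8 ^ d) * (2 * t) ^ d = c0 * ((t : ℝ) / 2) ^ d := by
        rw [mul_pow, div_pow, show (8 : ℝ) = 2 * 2 * 2 by norm_num, mul_pow, mul_pow]
        field_simp
    _ ≤ _ := mul_le_mul_of_nonneg_left h4 hc0.le
/- END w1 -/

/-! ## row w2 -/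

private lemma w2_Db (q n : ℕ) : Db (Finset.univ : Finset (Fin d)) q 0 n = bo (0 : Vx d) (fun _ => n) := by
  ext x
  rw [mem_Db, mem_bo]
  refine forall_congr' fun k => ?_
  simp

private lemma w2_ne (P : Finset (Fin d)) (q : ℕ) (hq : 1 ≤ q) (a : Vx d) (s : ℕ) (hs : 1 ≤ s) :
    (Cb P q a s).Nonempty := by
  refine ⟨fun k => if k ∈ P then a k else (q : ℤ), ?_⟩
  rw [mem_Cb]
  intro k
  by_cases hk : k ∈ P
  · simp only [hk, if_true, true_imp_iff, not_true_eq_false, false_imp_iff, and_true]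
    constructor
    · exact le_refl _
    · have : (1 : ℤ) ≤ s := by exact_mod_cast hs
      linarith
  · simp only [hk, if_false, false_imp_iff, not_false_eq_true, true_imp_iff, true_and]
    have : (1 : ℤ) ≤ q := by exact_mod_cast hq
    constructor
    · exact le_refl _
    · linarith

private lemma w2_tanh {b : ℝ} (hb : 0 < b) : 0 < Real.tanh b ∧ Real.tanh b ≤ 1 := by
  constructor
  · rw [Real.tanh_eq_sinh_div_cosh]
    exact div_pos (Real.sinh_pos_iff.mpr hb) (Real.cosh_pos b)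
  · rw [Real.tanh_eq_sinh_div_cosh, div_le_one (Real.cosh_pos b)]
    exact (Real.sinh_lt_cosh b).le

/-- `whit` with `P = univ`, `q = 1`, `t` large; `kk_exists` gives `x'`, `y'` near `x`, `y` (`lr_dist`) with
`cf x' y' ≥ c / 2`; `cf_path` for `x, x'` and `y', y`; `cf_mul_le`. -/
theorem cube_pow (hd : 2 ≤ d) (b0 b1 : ℝ) (hb0 : 0 ≤ b0) (hb : b0 < b1) (h : LRO d b0) :
    ∃ c : ℝ, 0 < c ∧ ∃ t : ℕ, 1 ≤ t ∧ ∀ J : ℕ, ∀ x ∈ bo (0 : Vx d) (fun _ => 8 * (t * 2 ^ J)),
      ∀ y ∈ bo (0 : Vx d) (fun _ => 8 * (t * 2 ^ J)),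
        c ≤ cf (bo (0 : Vx d) (fun _ => 8 * (t * 2 ^ J))) b1 x y := by
  obtain ⟨c, hc, t0, ht0, hMB⟩ := mb_cube b0 hb0 h
  have hΔ : 0 < c ^ 4 * (b1 - b0) := mul_pos (by positivity) (by linarith)
  obtain ⟨t1, ht1⟩ := exists_nat_ge (10 ^ 4 / (c ^ 4 * (b1 - b0)))
  have hb1 : 0 < b1 := lt_of_le_of_lt hb0 hb
  obtain ⟨hth0, hth1⟩ := w2_tanh hb1
  set t : ℕ := max t0 t1 with ht
  have htt0 : t0 ≤ t := le_max_left _ _
  have htt1 : t1 ≤ t := le_max_right _ _
  have ht1' : 1 ≤ t := le_trans ht0 htt0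
  have hbig : 10 ^ 4 ≤ c ^ 4 * t * (b1 - b0) := by
    have h1 : (10 : ℝ) ^ 4 / (c ^ 4 * (b1 - b0)) ≤ t := le_trans ht1 (by exact_mod_cast htt1)
    rw [div_le_iff₀ hΔ] at h1
    nlinarith [h1]
  refine ⟨Real.tanh b1 ^ (d * (6 * t)) * (c / 2) * Real.tanh b1 ^ (d * (6 * t)), by positivity,
    t, ht1', ?_⟩
  intro J x hx y hy
  rw [← w2_Db 1] at hx hy ⊢
  set n : ℕ := 8 * (t * 2 ^ J) with hn
  have h8 : 8 * t ≤ n := by
    rw [hn]
    have : 1 ≤ 2 ^ J := Nat.one_le_two_pow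
    nlinarith
  have hw := whit (Finset.univ : Finset (Fin d)) (by simpa using hd) 1 le_rfl b0 b1 hb0 hb c hc t
    ht1' (by omega) J (fun j _ => hMB (t * 2 ^ j) (by
      have : 1 ≤ 2 ^ j := Nat.one_le_two_pow
      nlinarith)) hbig x y hx hy
  obtain ⟨x', hx', y', hy', hxy⟩ := kk_exists _ b1 (c / 2)
    (w2_ne _ 1 le_rfl _ (4 * t) (by omega)) (w2_ne _ 1 le_rfl _ (4 * t) (by omega)) hw
  obtain ⟨hxD, hxd⟩ := lr_dist _ 1 t n h8 x x' hx hx'
  obtain ⟨hyD, hyd⟩ := lr_dist _ 1 t n h8 y y' hy hy'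
  have hpath : ∀ u v : Vx d, u ∈ Db (Finset.univ : Finset (Fin d)) 1 0 n →
      v ∈ Db (Finset.univ : Finset (Fin d)) 1 0 n → (∀ k, |u k - v k| ≤ 6 * t) →
      Real.tanh b1 ^ (d * (6 * t)) ≤ cf (Db (Finset.univ : Finset (Fin d)) 1 0 n) b1 u v := by
    intro u v hu hv huv
    rw [w2_Db] at hu hv ⊢
    refine le_trans ?_ (cf_path (0 : Vx d) (fun _ => n) b1 hb1.le u v hu hv)
    refine pow_le_pow_of_le_one hth0.le hth1 ?_
    calc ∑ k, (u k - v k).natAbs ≤ ∑ _k : Fin d, 6 * t := by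
          refine Finset.sum_le_sum fun k _ => ?_
          have := abs_le.mp (huv k)
          omega
      _ = d * (6 * t) := by simp
  have h1 := hpath x x' hx hxD (fun k => hxd k (Finset.mem_univ k))
  have h2 := hpath y' y hyD hy (fun k => by
    have := hyd k (Finset.mem_univ k)
    rw [abs_sub_comm]
    exact this)
  have h3 := cf_mul_le (Db (Finset.univ : Finset (Fin d)) 1 0 n) b1 hb1.le x x' y'
  have h4 := cf_mul_le (Db (Finset.univ : Finset (Fin d)) 1 0 n) b1 hb1.le x y' y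
  have hp : 0 ≤ Real.tanh b1 ^ (d * (6 * t)) := by positivity
  calc Real.tanh b1 ^ (d * (6 * t)) * (c / 2) * Real.tanh b1 ^ (d * (6 * t))
      ≤ (cf (Db (Finset.univ : Finset (Fin d)) 1 0 n) b1 x x' *
          cf (Db (Finset.univ : Finset (Fin d)) 1 0 n) b1 x' y') *
          cf (Db (Finset.univ : Finset (Fin d)) 1 0 n) b1 y' y := by
        refine mul_le_mul (mul_le_mul h1 hxy (by positivity) (cf_nonneg _ _ hb1.le _ _)) h2 hp ?_
        exact mul_nonneg (cf_nonneg _ _ hb1.le _ _) (cf_nonneg _ _ hb1.le _ _)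
    _ ≤ cf (Db (Finset.univ : Finset (Fin d)) 1 0 n) b1 x y' *
          cf (Db (Finset.univ : Finset (Fin d)) 1 0 n) b1 y' y :=
        mul_le_mul_of_nonneg_right h3 (cf_nonneg _ _ hb1.le _ _)
    _ ≤ _ := h4

/-! ## row w3: boxes which are not much larger -/

/- BEGIN w3 (helper83) -/
/-- The point `z_k = a_k + m_k - 1` is in the window `[a_k, a_k + m_k)` and in the window
`[a_k + n_k - m_k, a_k + n_k)`; every coordinate of `x` is in one of the two windows. -/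
theorem win (β : ℝ) (hβ : 0 ≤ β) (c : ℝ) (hc : 0 ≤ c) (m n : Fin d → ℕ)
    (hm : ∀ k, 1 ≤ m k ∧ m k ≤ n k ∧ n k < 2 * m k)
    (h : ∀ b : Vx d, ∀ x ∈ bo b m, ∀ y ∈ bo b m, c ≤ cf (bo b m) β x y) (a : Vx d) :
    ∀ x ∈ bo a n, ∀ y ∈ bo a n, c ^ 2 ≤ cf (bo a n) β x y := by
  have key : ∀ x ∈ bo a n, c ≤ cf (bo a n) β x (fun k => a k + m k - 1) := by
    intro x hx
    have hx' := mem_bo.1 hx
    let b : Vx d := fun k => if x k < a k + m k then a k else a k + n k - m k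
    have hsub : bo b m ⊆ bo a n := by
      intro y hy
      have hy' := mem_bo.1 hy
      refine mem_bo.2 fun k => ?_
      have h1 := hy' k
      have h2 := hm k
      simp only [b] at h1
      split_ifs at h1 <;> omega
    have hxb : x ∈ bo b m := by
      refine mem_bo.2 fun k => ?_
      have h1 := hx' k
      have h2 := hm k
      simp only [b]
      split_ifs <;> omega
    have hzb : (fun k => a k + m k - 1 : Vx d) ∈ bo b m := by
      refine mem_bo.2 fun k => ?_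
      have h2 := hm k
      simp only [b]
      split_ifs <;> omega
    exact (h b x hxb _ hzb).trans (cf_mono _ _ hsub β β hβ le_rfl _ _ hxb hzb)
  intro x hx y hy
  have h1 := key x hx
  have h2 := key y hy
  rw [cf_comm] at h2
  calc c ^ 2 = c * c := sq c
    _ ≤ cf (bo a n) β x (fun k => a k + m k - 1) * cf (bo a n) β (fun k => a k + m k - 1) y :=
        mul_le_mul h1 h2 hc (hc.trans h1)
    _ ≤ _ := cf_mul_le _ β hβ _ _ _
/- END w3 -/

/-! ## row w4 -/

private lemma w4_tanh_pos {b : ℝ} (hb : 0 < b) : 0 < Real.tanh b := by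
  rw [Real.tanh_eq_sinh_div_cosh]
  exact div_pos (Real.sinh_pos_iff.2 hb) (Real.cosh_pos b)

private lemma w4_scale (m n : ℕ) (hm : 1 ≤ m) (hn : m ≤ n) :
    ∃ J : ℕ, m * 2 ^ J ≤ n ∧ n < 2 * (m * 2 ^ J) := by
  have h1 : n / m ≠ 0 := by
    have := Nat.div_pos hn hm
    omega
  refine ⟨Nat.log 2 (n / m), ?_, ?_⟩
  · have h2 := Nat.pow_log_le_self 2 h1
    calc m * 2 ^ Nat.log 2 (n / m) ≤ m * (n / m) := Nat.mul_le_mul_left _ h2
      _ ≤ n := Nat.mul_div_le n m
  · have h3 : n / m < 2 ^ (Nat.log 2 (n / m) + 1) := Nat.lt_pow_succ_log_self (by norm_num) _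
    have h4 : n < m * 2 ^ (Nat.log 2 (n / m) + 1) := by
      rw [mul_comm]
      exact (Nat.div_lt_iff_lt_mul hm).1 h3
    rw [pow_succ] at h4
    nlinarith [h4]

/-- `n < 8 t`: `cf_path`. Otherwise `8 t 2^J ≤ n < 2 · 8 t 2^J` for some `J`: `cube_pow`, `cf_bo_add`, `win`. -/
theorem cube (hd : 2 ≤ d) (b0 b1 : ℝ) (hb0 : 0 ≤ b0) (hb : b0 < b1) (h : LRO d b0) :
    CUBE d b1 := by
  obtain ⟨c, hc, t, ht, H⟩ := cube_pow hd b0 b1 hb0 hb h
  have hb1' : 0 < b1 := lt_of_le_of_lt hb0 hb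
  have hb1 : 0 ≤ b1 := hb1'.le
  have hth : 0 < Real.tanh b1 := w4_tanh_pos hb1'
  have hth1 : Real.tanh b1 ≤ 1 := (Real.tanh_lt_one b1).le
  refine ⟨min (c ^ 2) (Real.tanh b1 ^ (d * (8 * t))), lt_min (pow_pos hc 2) (pow_pos hth _), ?_⟩
  intro a n hn x hx y hy
  by_cases hnt : n < 8 * t
  · refine (min_le_right _ _).trans (le_trans ?_ (cf_path a (fun _ => n) b1 hb1 x y hx hy))
    refine pow_le_pow_of_le_one hth.le hth1 ?_
    rw [mem_bo] at hx hy
    calc ∑ k, (x k - y k).natAbs ≤ ∑ _k : Fin d, 8 * t := by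
          refine Finset.sum_le_sum fun k _ => ?_
          have h1 := hx k
          have h2 := hy k
          omega
      _ = d * (8 * t) := by simp
  · obtain ⟨J, hJ1, hJ2⟩ := w4_scale (8 * t) n (by omega) (by omega)
    have e1 : 8 * t * 2 ^ J = 8 * (t * 2 ^ J) := by ring
    rw [e1] at hJ1 hJ2
    have hpos : 1 ≤ 8 * (t * 2 ^ J) := by
      have : 1 ≤ t * 2 ^ J := Nat.mul_pos ht (pow_pos (by norm_num) J)
      omega
    refine (min_le_left _ _).trans (win b1 hb1 c hc.le (fun _ => 8 * (t * 2 ^ J)) (fun _ => n)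
      (fun _ => ⟨hpos, hJ1, hJ2⟩) ?_ a x hx y hy)
    intro b x hx y hy
    have hx' : x - b ∈ bo (0 : Vx d) (fun _ => 8 * (t * 2 ^ J)) := by
      rw [mem_bo] at hx ⊢
      intro k
      have h1 := hx k
      simp only [Pi.sub_apply, Pi.zero_apply]
      constructor <;> linarith [h1.1, h1.2]
    have hy' : y - b ∈ bo (0 : Vx d) (fun _ => 8 * (t * 2 ^ J)) := by
      rw [mem_bo] at hy ⊢
      intro k
      have h1 := hy k
      simp only [Pi.sub_apply, Pi.zero_apply]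
      constructor <;> linarith [h1.1, h1.2]
    have h2 := H J (x - b) hx' (y - b) hy'
    have h3 := cf_bo_add (0 : Vx d) b (fun _ => 8 * (t * 2 ^ J)) b1 (x - b) (y - b)
    rw [zero_add, sub_add_cancel, sub_add_cancel] at h3
    rw [h3]
    exact h2

end Pool.Agent.Slb
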