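import Pool.Agent.Slb.Defs

/-!
# Slb: the Poincaré inequality on boxes (rows p1..p4)
-/

set_option autoImplicit false

namespace Pool.Agent.Slb

open Finset Pool.Agent.SRC Pool.Agent.TC

variable {d : ℕ}

/-- the total variation of `f` on the line of the box through `x` in direction `k` -/
noncomputable def ltv (a : Vx d) (n : Fin d → ℕ) (f : Vx d → ℝ) (k : Fin d) (x : Vx d) : ℝ :=
  ∑ t ∈ Finset.Ico (a k) (a k + n k - 1),
    |f (Function.update x k t) - f (Function.update x k (t + 1))|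

/-! ## row p1 -/

private lemma p1_tel (g : ℤ → ℝ) (s : ℤ) (m : ℕ) :
    |g s - g (s + m)| ≤ ∑ u ∈ Finset.Ico s (s + m), |g u - g (u + 1)| := by
  induction m with
  | zero => simp
  | succ m ih =>
    have e : Finset.Ico s (s + ((m + 1 : ℕ) : ℤ)) = insert (s + m) (Finset.Ico s (s + m)) := by
      ext u
      simp only [Finset.mem_insert, Finset.mem_Ico]
      push_cast
      omega
    have h1 : (s + (m : ℤ)) ∉ Finset.Ico s (s + m) := by simp
    rw [e, Finset.sum_insert h1]
    have h2 : g s - g (s + ((m + 1 : ℕ) : ℤ)) =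
        (g s - g (s + m)) + (g (s + m) - g (s + m + 1)) := by
      push_cast
      rw [← add_assoc]
      ring
    rw [h2]
    calc |(g s - g (s + m)) + (g (s + m) - g (s + m + 1))|
        ≤ |g s - g (s + m)| + |g (s + m) - g (s + m + 1)| := abs_add_le _ _
      _ ≤ |g (s + m) - g (s + m + 1)| + ∑ u ∈ Finset.Ico s (s + m), |g u - g (u + 1)| := by
        linarith

private lemma p1_le (g : ℤ → ℝ) {lo hi s t : ℤ} (h1 : lo ≤ s) (h2 : s ≤ t) (h3 : t ≤ hi) :
    |g s - g t| ≤ ∑ u ∈ Finset.Ico lo hi, |g u - g (u + 1)| := by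
  obtain ⟨m, hm⟩ := Int.le.dest h2
  have h := p1_tel g s m
  rw [hm] at h
  refine h.trans (Finset.sum_le_sum_of_subset_of_nonneg ?_ fun u _ _ => abs_nonneg _)
  exact Finset.Ico_subset_Ico h1 h3

lemma ltv_bound (a : Vx d) (n : Fin d → ℕ) (f : Vx d → ℝ) (k : Fin d) (x : Vx d)
    (hx : x ∈ bo a n) (t : ℤ) (ht : t ∈ Finset.Ico (a k) (a k + n k)) :
    |f x - f (Function.update x k t)| ≤ ltv a n f k x := by
  have hxk : x k ∈ Finset.Ico (a k) (a k + n k) := by
    have := mem_bo.1 hx k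
    rw [Finset.mem_Ico]
    omega
  rw [Finset.mem_Ico] at ht hxk
  have e : f x = f (Function.update x k (x k)) := by rw [Function.update_eq_self]
  unfold ltv
  rw [e]
  rcases le_total (x k) t with h | h
  · exact p1_le (fun u => f (Function.update x k u)) (by omega) h (by omega)
  · rw [abs_sub_comm]
    exact p1_le (fun u => f (Function.update x k u)) (by omega) h (by omega)

/-! ## row p2 -/

-- BEGIN p2
private lemma p2_upd {a : Vx d} {n : Fin d → ℕ} {x : Vx d} (hx : x ∈ bo a n) (k : Fin d) {t : ℤ}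
    (ht : t ∈ Finset.Ico (a k) (a k + n k)) : Function.update x k t ∈ bo a n := by
  rw [mem_bo] at hx ⊢
  intro j
  by_cases h : j = k
  · subst h
    rw [Function.update_self]
    rw [Finset.mem_Ico] at ht
    exact ht
  · rw [Function.update_of_ne h]
    exact hx j

/-- every line is counted `n k` times -/
lemma sum_ltv (a : Vx d) (n : Fin d → ℕ) (f : Vx d → ℝ) (k : Fin d) :
    ∑ x ∈ bo a n, ltv a n f k x ≤
      (n k : ℝ) * ∑ e ∈ (edg (bo a n)).filter (fun e => e.2 = k), |f e.1 - f (tip e)| := by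
  classical
  set I : Finset ℤ := Finset.Ico (a k) (a k + n k) with hI
  set I' : Finset ℤ := Finset.Ico (a k) (a k + n k - 1) with hI'
  set B : Finset (Ed d) := (edg (bo a n)).filter (fun e => e.2 = k) with hB
  have hI'I : ∀ t ∈ I', t ∈ I ∧ t + 1 ∈ I := by
    intro t ht
    rw [hI', Finset.mem_Ico] at ht
    rw [hI, Finset.mem_Ico, Finset.mem_Ico]
    omega
  have htip : ∀ y : Vx d, tip ((y, k) : Ed d) = Function.update y k (y k + 1) := by
    intro y
    funext j
    by_cases h : j = k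
    · subst h
      simp [tip, uv]
    · simp [tip, uv, h]
  -- the sum over pairs
  have h1 : ∑ x ∈ bo a n, ltv a n f k x =
      ∑ p ∈ bo a n ×ˢ I', |f (Function.update p.1 k p.2) - f (Function.update p.1 k (p.2 + 1))| := by
    rw [Finset.sum_product]
    rfl
  have h2 : (n k : ℝ) * ∑ e ∈ B, |f e.1 - f (tip e)| =
      ∑ q ∈ B ×ˢ I, |f q.1.1 - f (tip q.1)| := by
    rw [Finset.sum_product]
    simp only [Finset.sum_const]
    rw [Finset.mul_sum]
    refine Finset.sum_congr rfl fun e _ => ?_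
    rw [hI, Int.card_Ico, nsmul_eq_mul]
    congr 1
    simp
  rw [h1, h2]
  have hinj : Set.InjOn (fun p : Vx d × ℤ => (((Function.update p.1 k p.2, k) : Ed d), p.1 k))
      (bo a n ×ˢ I' : Finset (Vx d × ℤ)) := by
    rintro ⟨x, t⟩ _ ⟨x', t'⟩ _ h
    simp only [Prod.mk.injEq, and_true] at h
    obtain ⟨h3, h4⟩ := h
    have h5 : t = t' := by
      have := congrFun h3 k
      simpa using this
    have h6 : x = x' := by
      funext j
      by_cases hj : j = k
      · rw [hj]; exact h4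
      · have := congrFun h3 j
        simpa [hj] using this
    rw [h5, h6]
  have e1 : ∑ p ∈ bo a n ×ˢ I', |f (Function.update p.1 k p.2) - f (Function.update p.1 k (p.2 + 1))| =
      ∑ q ∈ (bo a n ×ˢ I').image (fun p : Vx d × ℤ => (((Function.update p.1 k p.2, k) : Ed d), p.1 k)),
        |f q.1.1 - f (tip q.1)| := by
    rw [Finset.sum_image hinj]
    refine Finset.sum_congr rfl fun p _ => ?_
    rw [htip, Function.update_self, Function.update_idem]
  rw [e1]
  refine Finset.sum_le_sum_of_subset_of_nonneg ?_ fun _ _ _ => abs_nonneg _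
  intro q hq
  rw [Finset.mem_image] at hq
  obtain ⟨⟨x, t⟩, hp, rfl⟩ := hq
  rw [Finset.mem_product] at hp
  obtain ⟨hx, ht⟩ := hp
  rw [Finset.mem_product, hB, Finset.mem_filter]
  refine ⟨⟨?_, rfl⟩, ?_⟩
  · rw [mem_edg]
    refine ⟨p2_upd hx k (hI'I t ht).1, ?_⟩
    rw [htip, Function.update_self, Function.update_idem]
    exact p2_upd hx k (hI'I t ht).2
  · rw [hI, Finset.mem_Ico]
    rw [mem_bo] at hx
    exact hx k
-- END p2

/-! ## row p3 -/

-- BEGIN p3
private noncomputable def p3_mix (s : Finset (Fin d)) (i j : Vx d) : Vx d :=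
  fun k => if k ∈ s then j k else i k

private lemma p3_mem {a : Vx d} {n : Fin d → ℕ} (s : Finset (Fin d)) {i j : Vx d}
    (hi : i ∈ bo a n) (hj : j ∈ bo a n) : p3_mix s i j ∈ bo a n := by
  rw [mem_bo] at hi hj ⊢
  intro k
  unfold p3_mix
  split_ifs
  · exact hj k
  · exact hi k

private lemma p3_invol (a : Vx d) (n : Fin d → ℕ) (s : Finset (Fin d)) (h : Vx d → ℝ) :
    ∑ p ∈ bo a n ×ˢ bo a n, h (p3_mix s p.1 p.2) = ∑ p ∈ bo a n ×ˢ bo a n, h p.1 := by
  refine Finset.sum_nbij' (fun p => (p3_mix s p.1 p.2, p3_mix s p.2 p.1))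
    (fun p => (p3_mix s p.1 p.2, p3_mix s p.2 p.1)) ?_ ?_ ?_ ?_ ?_
  · rintro ⟨i, j⟩ hp
    rw [Finset.mem_product] at hp ⊢
    exact ⟨p3_mem s hp.1 hp.2, p3_mem s hp.2 hp.1⟩
  · rintro ⟨i, j⟩ hp
    rw [Finset.mem_product] at hp ⊢
    exact ⟨p3_mem s hp.1 hp.2, p3_mem s hp.2 hp.1⟩
  · rintro ⟨i, j⟩ _
    refine Prod.ext ?_ ?_
    · funext k
      simp only [p3_mix]
      split_ifs <;> rfl
    · funext k
      simp only [p3_mix]
      split_ifs <;> rfl
  · rintro ⟨i, j⟩ _
    refine Prod.ext ?_ ?_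
    · funext k
      simp only [p3_mix]
      split_ifs <;> rfl
    · funext k
      simp only [p3_mix]
      split_ifs <;> rfl
  · rintro ⟨i, j⟩ _
    rfl

private lemma p3_step (a : Vx d) (n : Fin d → ℕ) (f : Vx d → ℝ) (s : Finset (Fin d)) :
    ∑ p ∈ bo a n ×ˢ bo a n, |f p.1 - f (p3_mix s p.1 p.2)| ≤
      ((bo a n).card : ℝ) * ∑ k ∈ s, ∑ x ∈ bo a n, ltv a n f k x := by
  classical
  induction s using Finset.induction_on with
  | empty =>
    have h : ∀ p : Vx d × Vx d, p3_mix (∅ : Finset (Fin d)) p.1 p.2 = p.1 := by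
      intro p
      funext k
      simp [p3_mix]
    simp [h]
  | insert k s hk ih =>
    have h1 : ∀ p ∈ bo a n ×ˢ bo a n, |f p.1 - f (p3_mix (insert k s) p.1 p.2)| ≤
        |f p.1 - f (p3_mix s p.1 p.2)| + ltv a n f k (p3_mix s p.1 p.2) := by
      rintro ⟨i, j⟩ hp
      rw [Finset.mem_product] at hp
      have h2 : p3_mix (insert k s) i j = Function.update (p3_mix s i j) k (j k) := by
        funext l
        by_cases hl : l = k
        · subst hl
          simp [p3_mix]
        · rw [Function.update_of_ne hl]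
          simp only [p3_mix, Finset.mem_insert, hl, false_or]
      have h3 : j k ∈ Finset.Ico (a k) (a k + n k) := by
        rw [Finset.mem_Ico]
        exact (mem_bo.mp hp.2) k
      have h4 := ltv_bound a n f k (p3_mix s i j) (p3_mem s hp.1 hp.2) (j k) h3
      rw [← h2] at h4
      exact (abs_sub_le _ (f (p3_mix s i j)) _).trans (by linarith)
    refine (Finset.sum_le_sum h1).trans ?_
    rw [Finset.sum_add_distrib, p3_invol a n s (fun x => ltv a n f k x), Finset.sum_insert hk,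
      Finset.sum_product, mul_add]
    have h5 : ∑ x ∈ bo a n, ∑ _y ∈ bo a n, ltv a n f k (x, _y).1 =
        ((bo a n).card : ℝ) * ∑ x ∈ bo a n, ltv a n f k x := by
      simp only [Finset.sum_const, nsmul_eq_mul]
      rw [Finset.mul_sum]
    have h6 : ∑ p ∈ bo a n ×ˢ bo a n, ltv a n f k p.1 =
        ((bo a n).card : ℝ) * ∑ x ∈ bo a n, ltv a n f k x := by
      rw [Finset.sum_product]
      exact h5
    rw [h6]
    rw [Finset.sum_product] at ih
    linarith

/-- Induction over a set `s` of coordinates for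
`∑_{i,j} |f i - f (mix s i j)| ≤ |R| ∑_{k ∈ s} ∑_x ltv k x`, `mix s i j k = if k ∈ s then j k else i k`. Step:
`|f (mix s i j) - f (mix (insert k s) i j)| ≤ ltv k (mix s i j)` (`ltv_bound`), and
`(i, j) ↦ (mix s i j, mix s j i)` is an involution of `R × R`. -/
lemma sum_sum_ltv (a : Vx d) (n : Fin d → ℕ) (f : Vx d → ℝ) :
    ∑ i ∈ bo a n, ∑ j ∈ bo a n, |f i - f j| ≤
      ((bo a n).card : ℝ) * ∑ k, ∑ x ∈ bo a n, ltv a n f k x := by
  have h := p3_step a n f Finset.univ
  have h1 : ∀ p : Vx d × Vx d, p3_mix (Finset.univ : Finset (Fin d)) p.1 p.2 = p.2 := by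
    intro p
    funext k
    simp [p3_mix]
  simp only [h1] at h
  rw [Finset.sum_product] at h
  exact h
-- END p3

/-! ## row p4 -/

theorem poincare (a : Vx d) (n : Fin d → ℕ) (N : ℕ) (hN : ∀ k, n k ≤ N) (f : Vx d → ℝ) :
    ∑ i ∈ bo a n, ∑ j ∈ bo a n, |f i - f j| ≤
      (N : ℝ) * ((bo a n).card : ℝ) * ∑ e ∈ edg (bo a n), |f e.1 - f (tip e)| := by
  -- BEGIN p4
  have h0 : ∀ k : Fin d, 0 ≤ ∑ e ∈ (edg (bo a n)).filter (fun e => e.2 = k), |f e.1 - f (tip e)| :=
    fun k => Finset.sum_nonneg fun e _ => abs_nonneg _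
  have h1 : ∑ k, ∑ x ∈ bo a n, ltv a n f k x ≤
      (N : ℝ) * ∑ e ∈ edg (bo a n), |f e.1 - f (tip e)| := by
    have h2 : ∑ k : Fin d, ∑ e ∈ (edg (bo a n)).filter (fun e => e.2 = k), |f e.1 - f (tip e)| =
        ∑ e ∈ edg (bo a n), |f e.1 - f (tip e)| :=
      Finset.sum_fiberwise (edg (bo a n)) (fun e => e.2) (fun e => |f e.1 - f (tip e)|)
    rw [← h2, Finset.mul_sum]
    refine Finset.sum_le_sum fun k _ => (sum_ltv a n f k).trans ?_
    exact mul_le_mul_of_nonneg_right (by exact_mod_cast hN k) (h0 k)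
  calc ∑ i ∈ bo a n, ∑ j ∈ bo a n, |f i - f j|
      ≤ ((bo a n).card : ℝ) * ∑ k, ∑ x ∈ bo a n, ltv a n f k x := sum_sum_ltv a n f
    _ ≤ ((bo a n).card : ℝ) * ((N : ℝ) * ∑ e ∈ edg (bo a n), |f e.1 - f (tip e)|) :=
        mul_le_mul_of_nonneg_left h1 (Nat.cast_nonneg _)
    _ = (N : ℝ) * ((bo a n).card : ℝ) * ∑ e ∈ edg (bo a n), |f e.1 - f (tip e)| := by ring
  -- END p4

end Pool.Agent.Slb
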