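import Pool.Agent.Slb.Bas
import Pool.Agent.Slb.Poi

/-!
# Slb: the basic inequality for a set in a box, the Gram representation, the mean value lemma
(rows q1..q4)
-/

set_option autoImplicit false

namespace Pool.Agent.Slb

open Finset Pool.Agent.SRC Pool.Agent.TC

variable {d : ℕ}

/-! ## row q1 -/

/-- Write `R = bo a n`, `a_i = mm A i`, `b_i = mm R i`, `s_i = a_i + b_i`, `f_i = a_i / s_i`, `V_A V_R - K² =
∑_{i ∈ A, j ∈ R} (a_i b_j - a_j b_i)` and `a_i b_j - a_j b_i = s_i s_j (f_i - f_j)`; `s_i ≤ |A| + |R| ≤ 2 |R|`, so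
`V_A V_R - K² ≤ 4 |R|² ∑_{i, j ∈ R} |f_i - f_j| ≤ 4 |R|³ N ∑_{e ∈ edg R} |f - f|` (`poincare`), and on the edges of
`R` one has `s_i s_j ≥ c² |R|²`, hence `|f_i - f_j| ≤ |a_i b_j - a_j b_i| / (c² |R|²)`; `kk_deriv`. -/
theorem pair_ineq (S : Finset (Vx d)) (β : ℝ) (hβ : 0 ≤ β) (a : Vx d) (n : Fin d → ℕ) (N : ℕ)
    (hN : ∀ k, n k ≤ N) (A : Finset (Vx d)) (hA : A ⊆ bo a n) (hR : bo a n ⊆ S) (c : ℝ)
    (hc : 0 < c) (hm : ∀ i ∈ bo a n, c * ((bo a n).card : ℝ) ≤ mm S β (bo a n) i) :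
    ∃ D : ℝ, HasDerivAt (fun b => kk S b A (bo a n)) D β ∧ 0 ≤ D ∧
      kk S β A A * kk S β (bo a n) (bo a n) - kk S β A (bo a n) ^ 2 ≤
        4 * (N : ℝ) * ((bo a n).card : ℝ) / c ^ 2 * D := by
  classical
  obtain ⟨D, hD, hsum⟩ := kk_deriv S β hβ A (bo a n) (hA.trans hR) hR
  have hD0 : 0 ≤ D := (Finset.sum_nonneg fun e _ => abs_nonneg _).trans hsum
  refine ⟨D, hD, hD0, ?_⟩
  set f : Vx d → ℝ := fun i => mm S β A i / (mm S β A i + mm S β (bo a n) i) with hf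
  have ha0 : ∀ i, 0 ≤ mm S β A i := fun i => mm_nonneg S β hβ A i
  have hab : ∀ i, mm S β A i ≤ mm S β (bo a n) i := fun i => mm_mono S β hβ hA i
  have hbR : ∀ i, mm S β (bo a n) i ≤ ((bo a n).card : ℝ) := fun i => mm_le S β (bo a n) i
  have hRpos : ∀ i ∈ bo a n, 0 < ((bo a n).card : ℝ) := fun i hi => by
    exact_mod_cast Finset.card_pos.2 ⟨i, hi⟩
  have hspos : ∀ i ∈ bo a n, 0 < mm S β A i + mm S β (bo a n) i := fun i hi => by
    have h1 := hm i hi
    have h2 := mul_pos hc (hRpos i hi)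
    have h3 := ha0 i
    linarith
  have hdiff : ∀ i ∈ bo a n, ∀ j ∈ bo a n,
      mm S β A i * mm S β (bo a n) j - mm S β A j * mm S β (bo a n) i =
      (mm S β A i + mm S β (bo a n) i) * (mm S β A j + mm S β (bo a n) j) * (f i - f j) := by
    intro i hi j hj
    have h1 := (hspos i hi).ne'
    have h2 := (hspos j hj).ne'
    simp only [hf]
    field_simp
    ring
  have hVV : kk S β A A * kk S β (bo a n) (bo a n) - kk S β A (bo a n) ^ 2 =
      ∑ i ∈ A, ∑ j ∈ bo a n,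
        (mm S β A i * mm S β (bo a n) j - mm S β A j * mm S β (bo a n) i) := by
    have h1 : kk S β A (bo a n) ^ 2 = kk S β A (bo a n) * kk S β (bo a n) A := by
      rw [kk_comm S β (bo a n) A]; ring
    rw [h1]
    unfold kk
    rw [Finset.sum_mul_sum, Finset.sum_mul_sum, ← Finset.sum_sub_distrib]
    refine Finset.sum_congr rfl fun i _ => ?_
    rw [← Finset.sum_sub_distrib]
    refine Finset.sum_congr rfl fun j _ => ?_
    ring
  have h1 : kk S β A A * kk S β (bo a n) (bo a n) - kk S β A (bo a n) ^ 2 ≤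
      ∑ i ∈ bo a n, ∑ j ∈ bo a n, 4 * ((bo a n).card : ℝ) ^ 2 * |f i - f j| := by
    rw [hVV]
    calc ∑ i ∈ A, ∑ j ∈ bo a n,
        (mm S β A i * mm S β (bo a n) j - mm S β A j * mm S β (bo a n) i)
        ≤ ∑ i ∈ A, ∑ j ∈ bo a n, 4 * ((bo a n).card : ℝ) ^ 2 * |f i - f j| := by
          refine Finset.sum_le_sum fun i hi => Finset.sum_le_sum fun j hj => ?_
          rw [hdiff i (hA hi) j hj]
          have h2 : mm S β A i + mm S β (bo a n) i ≤ 2 * ((bo a n).card : ℝ) := by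
            have := hab i; have := hbR i; linarith
          have h3 : mm S β A j + mm S β (bo a n) j ≤ 2 * ((bo a n).card : ℝ) := by
            have := hab j; have := hbR j; linarith
          have h4 := (hspos i (hA hi)).le
          have h5 := (hspos j hj).le
          have h6 : (mm S β A i + mm S β (bo a n) i) * (mm S β A j + mm S β (bo a n) j) ≤
              4 * ((bo a n).card : ℝ) ^ 2 := by
            calc _ ≤ (2 * ((bo a n).card : ℝ)) * (2 * ((bo a n).card : ℝ)) :=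
                  mul_le_mul h2 h3 h5 (by positivity)
              _ = _ := by ring
          calc _ ≤ (mm S β A i + mm S β (bo a n) i) * (mm S β A j + mm S β (bo a n) j) *
                |f i - f j| :=
                mul_le_mul_of_nonneg_left (le_abs_self _) (mul_nonneg h4 h5)
            _ ≤ _ := mul_le_mul_of_nonneg_right h6 (abs_nonneg _)
      _ ≤ _ := by
          refine Finset.sum_le_sum_of_subset_of_nonneg hA fun i _ _ => ?_
          exact Finset.sum_nonneg fun j _ => by positivity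
  have h2 : ∑ i ∈ bo a n, ∑ j ∈ bo a n, 4 * ((bo a n).card : ℝ) ^ 2 * |f i - f j| =
      4 * ((bo a n).card : ℝ) ^ 2 * ∑ i ∈ bo a n, ∑ j ∈ bo a n, |f i - f j| := by
    rw [Finset.mul_sum]
    refine Finset.sum_congr rfl fun i _ => ?_
    rw [Finset.mul_sum]
  have h3 := poincare a n N hN f
  have h4 : (c ^ 2 * ((bo a n).card : ℝ) ^ 2) * ∑ e ∈ edg (bo a n), |f e.1 - f (tip e)| ≤ D := by
    refine le_trans ?_ hsum
    have hsub : edg (bo a n) ⊆ edg S := by
      intro e he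
      unfold edg at *
      simp only [Finset.mem_filter, Finset.mem_product, Finset.mem_univ, and_true] at *
      exact ⟨hR he.1, hR he.2⟩
    refine le_trans ?_ (Finset.sum_le_sum_of_subset_of_nonneg hsub fun e _ _ => abs_nonneg _)
    rw [Finset.mul_sum]
    refine Finset.sum_le_sum fun e he => ?_
    have he' : e.1 ∈ bo a n ∧ tip e ∈ bo a n := by
      unfold edg at he
      simpa only [Finset.mem_filter, Finset.mem_product, Finset.mem_univ, and_true] using he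
    rw [hdiff e.1 he'.1 (tip e) he'.2, abs_mul]
    refine mul_le_mul_of_nonneg_right ?_ (abs_nonneg _)
    have hR0 : (0 : ℝ) ≤ ((bo a n).card : ℝ) := by positivity
    have h5 : c * ((bo a n).card : ℝ) ≤ mm S β A e.1 + mm S β (bo a n) e.1 := by
      have := hm _ he'.1; have := ha0 e.1; linarith
    have h6 : c * ((bo a n).card : ℝ) ≤ mm S β A (tip e) + mm S β (bo a n) (tip e) := by
      have := hm _ he'.2; have := ha0 (tip e); linarith
    have h7 : 0 ≤ c * ((bo a n).card : ℝ) := by positivity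
    calc c ^ 2 * ((bo a n).card : ℝ) ^ 2 = (c * ((bo a n).card : ℝ)) * (c * ((bo a n).card : ℝ)) := by
          ring
      _ ≤ _ := mul_le_mul h5 h6 h7 (h7.trans h5)
      _ ≤ _ := le_abs_self _
  rw [h2] at h1
  rcases eq_or_lt_of_le (show (0 : ℝ) ≤ ((bo a n).card : ℝ) by positivity) with hz | hz
  · rw [← hz] at h1 ⊢
    simp only [ne_eq, OfNat.ofNat_ne_zero, not_false_eq_true, zero_pow, mul_zero, zero_mul,
      zero_div] at h1 ⊢
    exact h1
  · calc _ ≤ 4 * ((bo a n).card : ℝ) ^ 2 * ∑ i ∈ bo a n, ∑ j ∈ bo a n, |f i - f j| := h1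
      _ ≤ 4 * ((bo a n).card : ℝ) ^ 2 * ((N : ℝ) * ((bo a n).card : ℝ) *
            ∑ e ∈ edg (bo a n), |f e.1 - f (tip e)|) := by gcongr
      _ = 4 * (N : ℝ) * ((bo a n).card : ℝ) / c ^ 2 * ((c ^ 2 * ((bo a n).card : ℝ) ^ 2) *
            ∑ e ∈ edg (bo a n), |f e.1 - f (tip e)|) := by
          field_simp
      _ ≤ _ := by gcongr

/-! ## row q2 -/

/-- the correlation of `M_A` and `M_B` -/
noncomputable def cor (S : Finset (Vx d)) (β : ℝ) (A B : Finset (Vx d)) : ℝ :=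
  kk S β A B / (Real.sqrt (kk S β A A) * Real.sqrt (kk S β B B))

/-- `F A` = the function `T ↦ √(p T) M_A(T)` on the spin configurations -/
theorem gram (S : Finset (Vx d)) (β : ℝ) :
    ∃ F : Finset (Vx d) → EuclideanSpace ℝ {T : Finset (Vx d) // T ∈ S.powerset},
      ∀ A B, inner ℝ (F A) (F B) = kk S β A B := by
  classical
  set Z : ℝ := GI S (edg S) β (fun _ => 1) with hZ
  have hZpos : 0 < Z := by
    rw [hZ]
    unfold GI
    refine Finset.sum_pos (fun T _ => by positivity) ⟨∅, by simp⟩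
  set p : Finset (Vx d) → ℝ := fun T => Real.exp (β * ∑ e ∈ edg S, bond e T) / Z with hp
  have hp0 : ∀ T, 0 ≤ p T := fun T => by simp only [hp]; positivity
  refine ⟨fun A => WithLp.toLp 2 fun T => Real.sqrt (p T.1) * ∑ x ∈ A, spin T.1 x, ?_⟩
  intro A B
  rw [PiLp.inner_apply]
  have h1 : ∀ T : {T : Finset (Vx d) // T ∈ S.powerset},
      inner ℝ (Real.sqrt (p T.1) * ∑ x ∈ A, spin T.1 x)
        (Real.sqrt (p T.1) * ∑ x ∈ B, spin T.1 x) =
      ∑ x ∈ A, ∑ y ∈ B, spin T.1 x * spin T.1 y * p T.1 := by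
    intro T
    have h2 : Real.sqrt (p T.1) * Real.sqrt (p T.1) = p T.1 := Real.mul_self_sqrt (hp0 _)
    have h3 : inner ℝ (Real.sqrt (p T.1) * ∑ x ∈ A, spin T.1 x)
        (Real.sqrt (p T.1) * ∑ x ∈ B, spin T.1 x)
        = (Real.sqrt (p T.1) * Real.sqrt (p T.1)) *
            ((∑ x ∈ A, spin T.1 x) * ∑ x ∈ B, spin T.1 x) := by
      simp only [RCLike.inner_apply, conj_trivial]
      ring
    rw [h3, h2, Finset.sum_mul_sum, Finset.mul_sum]
    refine Finset.sum_congr rfl fun x _ => ?_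
    rw [Finset.mul_sum]
    refine Finset.sum_congr rfl fun y _ => ?_
    ring
  simp only [h1]
  unfold kk mm cf av GI
  rw [Finset.sum_comm]
  refine Finset.sum_congr rfl fun x _ => ?_
  rw [Finset.sum_comm]
  refine Finset.sum_congr rfl fun y _ => ?_
  rw [Finset.sum_div, ← Finset.sum_coe_sort S.powerset]
  refine Finset.sum_congr rfl fun T _ => ?_
  simp only [hp, hZ]
  unfold GI
  ring

/-- Cauchy-Schwarz -/
lemma cor_le_one (S : Finset (Vx d)) (β : ℝ) (A B : Finset (Vx d)) : cor S β A B ≤ 1 := by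
  obtain ⟨F, hF⟩ := gram S β
  unfold cor
  have h1 : ∀ A, Real.sqrt (kk S β A A) = ‖F A‖ := fun A => by
    rw [← hF A A, real_inner_self_eq_norm_sq, Real.sqrt_sq (norm_nonneg _)]
  rw [h1, h1, ← hF A B]
  exact (le_abs_self _).trans (abs_real_inner_div_norm_mul_norm_le_one _ _)

lemma cor_nonneg (S : Finset (Vx d)) (β : ℝ) (hβ : 0 ≤ β) (A B : Finset (Vx d)) :
    0 ≤ cor S β A B := by
  unfold cor
  have := kk_nonneg S β hβ A B
  positivity

/-- A walk `B_0, …, B_m` with `∑ √(1 - cor²) ≤ 1/√2`: `cor (B_0, B_m) ≥ 1/2`. The unit vectors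
`z_B = F B / √(kk B B)` satisfy `|z_A - z_B|² = 2 - 2 cor ≤ 2 (1 - cor²)`. -/
theorem cor_walk (S : Finset (Vx d)) (β : ℝ) (hβ : 0 ≤ β) (m : ℕ) (B : ℕ → Finset (Vx d))
    (hpos : ∀ j ≤ m, 0 < kk S β (B j) (B j))
    (h : ∑ j ∈ Finset.range m, Real.sqrt (1 - cor S β (B j) (B (j + 1)) ^ 2) ≤
      Real.sqrt (1 / 2)) : 1 / 2 ≤ cor S β (B 0) (B m) := by
  obtain ⟨F, hF⟩ := gram S β
  have h1 : ∀ A, Real.sqrt (kk S β A A) = ‖F A‖ := fun A => by
    rw [← hF A A, real_inner_self_eq_norm_sq, Real.sqrt_sq (norm_nonneg _)]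
  have hn : ∀ j ≤ m, 0 < ‖F (B j)‖ := fun j hj => by
    rw [← h1]
    exact Real.sqrt_pos.2 (hpos j hj)
  set z : ℕ → EuclideanSpace ℝ {T : Finset (Vx d) // T ∈ S.powerset} :=
    fun j => (‖F (B j)‖)⁻¹ • F (B j) with hz
  have hz1 : ∀ j ≤ m, ‖z j‖ = 1 := fun j hj => by
    simp only [hz, norm_smul, norm_inv, norm_norm]
    exact inv_mul_cancel₀ (hn j hj).ne'
  have hzz : ∀ i j, inner ℝ (z i) (z j) = cor S β (B i) (B j) := fun i j => by
    simp only [hz, inner_smul_left, inner_smul_right, conj_trivial]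
    unfold cor
    rw [h1, h1, hF, div_eq_mul_inv, mul_inv]
    ring
  have hd : ∀ i ≤ m, ∀ j ≤ m, ‖z i - z j‖ ^ 2 = 2 - 2 * cor S β (B i) (B j) := by
    intro i hi j hj
    rw [norm_sub_sq_real, hz1 i hi, hz1 j hj, hzz]
    ring
  have hstep : ∀ j ∈ Finset.range m, ‖z j - z (j + 1)‖ ≤
      Real.sqrt 2 * Real.sqrt (1 - cor S β (B j) (B (j + 1)) ^ 2) := by
    intro j hj
    rw [Finset.mem_range] at hj
    rw [← Real.sqrt_mul (by norm_num)]
    refine Real.le_sqrt_of_sq_le ?_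
    rw [hd j (by omega) (j + 1) (by omega)]
    have h2 := cor_nonneg S β hβ (B j) (B (j + 1))
    have h3 := cor_le_one S β (B j) (B (j + 1))
    nlinarith [mul_nonneg h2 (sub_nonneg.2 h3)]
  have hsum : ‖z 0 - z m‖ ≤ 1 := by
    have h4 : ‖z 0 - z m‖ ≤ ∑ j ∈ Finset.range m, ‖z j - z (j + 1)‖ := by
      have := dist_le_range_sum_dist z m
      simpa only [dist_eq_norm] using this
    refine h4.trans ((Finset.sum_le_sum hstep).trans ?_)
    rw [← Finset.mul_sum]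
    calc Real.sqrt 2 * ∑ j ∈ Finset.range m, Real.sqrt (1 - cor S β (B j) (B (j + 1)) ^ 2)
        ≤ Real.sqrt 2 * Real.sqrt (1 / 2) := mul_le_mul_of_nonneg_left h (Real.sqrt_nonneg _)
      _ = 1 := by
        rw [← Real.sqrt_mul (by norm_num)]
        norm_num
  have h5 : ‖z 0 - z m‖ ^ 2 ≤ 1 := by
    have := norm_nonneg (z 0 - z m)
    nlinarith
  rw [hd 0 (Nat.zero_le _) m le_rfl] at h5
  linarith

/-! ## row q3 -/

/-- Mean value theorem for `∑ √(η i) g i`, and Cauchy-Schwarz. -/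
theorem mean_val {ι : Type} (I : Finset ι) (b0 b1 : ℝ) (hb : b0 < b1) (g g' h : ι → ℝ → ℝ)
    (η : ι → ℝ) (hη : ∀ i ∈ I, 0 < η i)
    (hg : ∀ i ∈ I, ∀ b ∈ Set.Icc b0 b1, HasDerivAt (g i) (g' i b) b)
    (h01 : ∀ i ∈ I, ∀ b ∈ Set.Icc b0 b1, 0 ≤ g i b ∧ g i b ≤ 1)
    (hh : ∀ i ∈ I, ∀ b ∈ Set.Icc b0 b1, 0 ≤ h i b ∧ h i b ≤ η i * g' i b) :
    ∃ b ∈ Set.Icc b0 b1, ∑ i ∈ I, Real.sqrt (h i b) ≤
      (∑ i ∈ I, Real.sqrt (η i)) / Real.sqrt (b1 - b0) := by
  have hd : ∀ b ∈ Set.Icc b0 b1, HasDerivAt (fun t => ∑ i ∈ I, Real.sqrt (η i) * g i t)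
      (∑ i ∈ I, Real.sqrt (η i) * g' i b) b := by
    intro b hb'
    exact HasDerivAt.fun_sum fun i hi => (hg i hi b hb').const_mul _
  obtain ⟨b, hbm, hbe⟩ := exists_hasDerivAt_eq_slope (fun t => ∑ i ∈ I, Real.sqrt (η i) * g i t)
    (fun t => ∑ i ∈ I, Real.sqrt (η i) * g' i t) hb
    (fun t ht => (hd t ht).continuousAt.continuousWithinAt)
    (fun t ht => hd t (Set.Ioo_subset_Icc_self ht))
  have hbI : b ∈ Set.Icc b0 b1 := Set.Ioo_subset_Icc_self hbm
  have hpos : 0 < b1 - b0 := by linarith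
  refine ⟨b, hbI, ?_⟩
  have h0 : 0 ≤ ∑ i ∈ I, Real.sqrt (η i) := Finset.sum_nonneg fun i _ => Real.sqrt_nonneg _
  -- the increment is at most the total weight
  have h1 : ∑ i ∈ I, Real.sqrt (η i) * g' i b ≤ (∑ i ∈ I, Real.sqrt (η i)) / (b1 - b0) := by
    rw [hbe]
    apply div_le_div_of_nonneg_right _ hpos.le
    rw [← Finset.sum_sub_distrib]
    apply Finset.sum_le_sum
    intro i hi
    have h2 := (h01 i hi b1 (Set.right_mem_Icc.mpr hb.le)).2
    have h3 := (h01 i hi b0 (Set.left_mem_Icc.mpr hb.le)).1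
    have h4 := Real.sqrt_nonneg (η i)
    nlinarith
  -- Cauchy-Schwarz
  have hg0 : ∀ i ∈ I, 0 ≤ η i * g' i b := fun i hi =>
    (hh i hi b hbI).1.trans (hh i hi b hbI).2
  have hg1 : ∀ i ∈ I, 0 ≤ g' i b := by
    intro i hi
    have h2 := hg0 i hi
    exact nonneg_of_mul_nonneg_right h2 (hη i hi)
  have h2 : (∑ i ∈ I, Real.sqrt (η i * g' i b)) ^ 2 ≤
      (∑ i ∈ I, Real.sqrt (η i)) * ∑ i ∈ I, Real.sqrt (η i) * g' i b := by
    apply Finset.sum_sq_le_sum_mul_sum_of_sq_le_mul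
    · intro i _
      exact Real.sqrt_nonneg _
    · intro i hi
      exact mul_nonneg (Real.sqrt_nonneg _) (hg1 i hi)
    · intro i hi
      rw [Real.sq_sqrt (hg0 i hi), ← mul_assoc, Real.mul_self_sqrt (hη i hi).le]
  have h3 : ∑ i ∈ I, Real.sqrt (h i b) ≤ ∑ i ∈ I, Real.sqrt (η i * g' i b) :=
    Finset.sum_le_sum fun i hi => Real.sqrt_le_sqrt (hh i hi b hbI).2
  refine h3.trans ?_
  apply le_of_sq_le_sq _ (div_nonneg h0 (Real.sqrt_nonneg _))
  rw [div_pow, Real.sq_sqrt hpos.le]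
  refine h2.trans ?_
  calc (∑ i ∈ I, Real.sqrt (η i)) * ∑ i ∈ I, Real.sqrt (η i) * g' i b
      ≤ (∑ i ∈ I, Real.sqrt (η i)) * ((∑ i ∈ I, Real.sqrt (η i)) / (b1 - b0)) :=
        mul_le_mul_of_nonneg_left h1 h0
    _ = (∑ i ∈ I, Real.sqrt (η i)) ^ 2 / (b1 - b0) := by ring

/-! ## row q4 -/

-- BEGIN q4
/-- `pair_ineq` in normalised form, `g = kk A R / (|A| |R|)`. -/
theorem pair_cor (S : Finset (Vx d)) (β : ℝ) (hβ : 0 ≤ β) (a : Vx d) (n : Fin d → ℕ) (N : ℕ)
    (hN : ∀ k, n k ≤ N) (A : Finset (Vx d)) (hA : A ⊆ bo a n) (hne : A.Nonempty)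
    (hR : bo a n ⊆ S) (c v : ℝ) (hc : 0 < c) (hv : 0 < v)
    (hm : ∀ i ∈ bo a n, c * ((bo a n).card : ℝ) ≤ mm S β (bo a n) i)
    (hV : v * (A.card : ℝ) ^ 2 ≤ kk S β A A) (η : ℝ)
    (hη : 4 * (N : ℝ) ≤ η * (c ^ 3 * v * (A.card : ℝ))) :
    ∃ D : ℝ, HasDerivAt (fun b => kk S b A (bo a n) / ((A.card : ℝ) * ((bo a n).card : ℝ))) D β ∧
      0 ≤ 1 - cor S β A (bo a n) ^ 2 ∧ 1 - cor S β A (bo a n) ^ 2 ≤ η * D := by
  obtain ⟨D0, hD, hD0, hle⟩ := pair_ineq S β hβ a n N hN A hA hR c hc hm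
  set R := bo a n with hRdef
  have hAc : (0 : ℝ) < A.card := by exact_mod_cast hne.card_pos
  have hRc : (0 : ℝ) < R.card := by exact_mod_cast (hne.mono hA).card_pos
  have hVR : c * (R.card : ℝ) ^ 2 ≤ kk S β R R := by
    have h1 : ∑ _x ∈ R, c * (R.card : ℝ) ≤ kk S β R R := by
      unfold kk
      exact Finset.sum_le_sum hm
    rw [Finset.sum_const, nsmul_eq_mul] at h1
    linarith [h1, show (R.card : ℝ) * (c * R.card) = c * (R.card : ℝ) ^ 2 by ring]
  have hVA0 : 0 < kk S β A A := lt_of_lt_of_le (by positivity) hV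
  have hVR0 : 0 < kk S β R R := lt_of_lt_of_le (by positivity) hVR
  refine ⟨D0 / ((A.card : ℝ) * (R.card : ℝ)), hD.div_const _, ?_, ?_⟩
  · have h1 := cor_le_one S β A R
    have h2 := cor_nonneg S β hβ A R
    nlinarith
  · have hcor : cor S β A R ^ 2 = kk S β A R ^ 2 / (kk S β A A * kk S β R R) := by
      unfold cor
      rw [div_pow, mul_pow, Real.sq_sqrt hVA0.le, Real.sq_sqrt hVR0.le]
    have h1 : 1 - cor S β A R ^ 2 =
        (kk S β A A * kk S β R R - kk S β A R ^ 2) / (kk S β A A * kk S β R R) := by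
      rw [hcor, sub_div, div_self (by positivity)]
    rw [h1, div_le_iff₀ (by positivity)]
    refine hle.trans ?_
    have h2 : (v * (A.card : ℝ) ^ 2) * (c * (R.card : ℝ) ^ 2) ≤ kk S β A A * kk S β R R :=
      mul_le_mul hV hVR (by positivity) hVA0.le
    have hη0 : 0 ≤ η := by
      by_contra hneg
      push Not at hneg
      have h3 : η * (c ^ 3 * v * (A.card : ℝ)) < 0 := mul_neg_of_neg_of_pos hneg (by positivity)
      have h4 : (0 : ℝ) ≤ 4 * (N : ℝ) := by positivity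
      linarith
    have h5 : η * (D0 / ((A.card : ℝ) * R.card)) * ((v * (A.card : ℝ) ^ 2) * (c * (R.card : ℝ) ^ 2))
        ≤ η * (D0 / ((A.card : ℝ) * R.card)) * (kk S β A A * kk S β R R) :=
      mul_le_mul_of_nonneg_left h2 (by positivity)
    refine le_trans ?_ h5
    have h6 : η * (D0 / ((A.card : ℝ) * R.card)) * ((v * (A.card : ℝ) ^ 2) * (c * (R.card : ℝ) ^ 2))
        = (η * (c ^ 3 * v * (A.card : ℝ))) * ((R.card : ℝ) / c ^ 2 * D0) := by
      field_simp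
    rw [h6]
    have h7 : 4 * (N : ℝ) * (R.card : ℝ) / c ^ 2 * D0 = (4 * (N : ℝ)) * ((R.card : ℝ) / c ^ 2 * D0) := by
      ring
    rw [h7]
    exact mul_le_mul_of_nonneg_right hη (by positivity)
-- END q4

end Pool.Agent.Slb
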