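import Pool.Agent.Slb.Pair

/-!
# Slb: Whitney chains (rows r1..r4)
-/

set_option autoImplicit false

namespace Pool.Agent.Slb

open Finset Pool.Agent.SRC Pool.Agent.TC

variable {d : ℕ}

/-! ## row r1: two chains of boxes with a common last box -/

private lemma r1_cor_comm (S : Finset (Vx d)) (β : ℝ) (A B : Finset (Vx d)) :
    cor S β A B = cor S β B A := by
  unfold cor
  rw [kk_comm S β A B, mul_comm (Real.sqrt _)]

private def r1_w (R A : ℕ → Finset (Vx d)) (i : ℕ) : Finset (Vx d) :=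
  if i % 2 = 0 then R (i / 2) else A (i / 2)

private lemma r1_w_even (R A : ℕ → Finset (Vx d)) (j : ℕ) : r1_w R A (2 * j) = R j := by
  unfold r1_w
  rw [if_pos (by omega), show 2 * j / 2 = j by omega]

private lemma r1_w_odd (R A : ℕ → Finset (Vx d)) (j : ℕ) : r1_w R A (2 * j + 1) = A j := by
  unfold r1_w
  rw [if_neg (by omega), show (2 * j + 1) / 2 = j by omega]

private lemma r1_sum (f : ℕ → ℝ) (J : ℕ) :
    ∑ i ∈ Finset.range (2 * J), f i = ∑ j ∈ Finset.range J, (f (2 * j) + f (2 * j + 1)) := by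
  induction J with
  | zero => simp
  | succ J ih =>
    rw [show 2 * (J + 1) = 2 * J + 1 + 1 by ring, Finset.sum_range_succ, Finset.sum_range_succ, ih,
      Finset.sum_range_succ]
    ring

/-- walk up along `F` and back along `G` -/
private lemma r1_walk (f : Finset (Vx d) → Finset (Vx d) → ℝ) (hf : ∀ A B, f A B = f B A)
    (F G : ℕ → Finset (Vx d)) (m : ℕ) (h : F m = G m) :
    ∑ i ∈ Finset.range (2 * m), f (if i ≤ m then F i else G (2 * m - i))
      (if i + 1 ≤ m then F (i + 1) else G (2 * m - (i + 1))) =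
    ∑ i ∈ Finset.range m, f (F i) (F (i + 1)) + ∑ i ∈ Finset.range m, f (G i) (G (i + 1)) := by
  rw [two_mul, Finset.sum_range_add]
  congr 1
  · refine Finset.sum_congr rfl fun i hi => ?_
    have hi' := Finset.mem_range.1 hi
    rw [if_pos (by omega), if_pos (by omega)]
  · rw [← Finset.sum_range_reflect (fun i => f (G i) (G (i + 1))) m]
    refine Finset.sum_congr rfl fun i hi => ?_
    have hi' := Finset.mem_range.1 hi
    have e1 : (if m + i ≤ m then F (m + i) else G (m + m - (m + i))) = G (m - 1 - i + 1) := by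
      by_cases h0 : i = 0
      · subst h0
        rw [if_pos (by omega), add_zero, h]
        congr 1
        omega
      · rw [if_neg (by omega)]
        congr 1
        omega
    have e2 : (if m + i + 1 ≤ m then F (m + i + 1) else G (m + m - (m + i + 1))) =
        G (m - 1 - i) := by
      rw [if_neg (by omega)]
      congr 1
      omega
    rw [e1, e2, hf]

/-- positivity along the walk -/
private lemma r1_pos {p : Finset (Vx d) → Prop} (F G : ℕ → Finset (Vx d)) (m : ℕ)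
    (hF : ∀ i ≤ m, p (F i)) (hG : ∀ i ≤ m, p (G i)) (i : ℕ) (hi : i ≤ 2 * m) :
    p (if i ≤ m then F i else G (2 * m - i)) := by
  split_ifs with h
  · exact hF i h
  · exact hG _ (by omega)

private lemma r1_wpos {p : Finset (Vx d) → Prop} (R A : ℕ → Finset (Vx d)) (J : ℕ)
    (hR : ∀ j ≤ J, p (R j)) (hA : ∀ j < J, p (A j)) (i : ℕ) (hi : i ≤ 2 * J) :
    p (r1_w R A i) := by
  unfold r1_w
  split_ifs with h
  · exact hR _ (by omega)
  · exact hA _ (by omega)

/-- Chains `R_0 ⊇ A_0 ⊆ R_1 ⊇ A_1 ⊆ … ⊆ R_J` (`R_j = bo (a b j) (n b j)`), one for `b = true`, one for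
`b = false`, with the same `R_J`. `pair_cor` for the pairs `(A_j, R_j)` and `(A_j, R_{j+1})` at all
`β ∈ [b0, b1]` (with `v = c`, the hypotheses hold at all `β ≥ b0` by `mm_dom`, `kk_dom`), `mean_val` for
these `4 J` pairs gives one `β` with `∑ √(1 - cor²) ≤ √(1/2)`, `cor_walk` for the walk
`R^true_0, A^true_0, R^true_1, …, R_J, …, A^false_0, R^false_0` (`4 J` steps), so
`kk (R^true_0, R^false_0) ≥ √(V V') / 2 ≥ (c / 2) |R| |R'|` at this `β`; `kk_dom`. -/
theorem chain_lb (S : Finset (Vx d)) (b0 b1 : ℝ) (hb0 : 0 ≤ b0) (hb : b0 < b1) (c : ℝ)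
    (hc : 0 < c) (J : ℕ) (a : Bool → ℕ → Vx d) (n : Bool → ℕ → Fin d → ℕ)
    (A : Bool → ℕ → Finset (Vx d)) (N : ℕ → ℕ) (η : ℕ → ℝ)
    (hN : ∀ b j k, j ≤ J → n b j k ≤ N j) (hS : ∀ b j, j ≤ J → bo (a b j) (n b j) ⊆ S)
    (hA1 : ∀ b j, j < J → A b j ⊆ bo (a b j) (n b j))
    (hA2 : ∀ b j, j < J → A b j ⊆ bo (a b (j + 1)) (n b (j + 1)))
    (hne : ∀ b j, j < J → (A b j).Nonempty) (hne0 : ∀ b, (bo (a b 0) (n b 0)).Nonempty)
    (hR : ∀ b j, j ≤ J → ∀ i ∈ bo (a b j) (n b j),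
      c * ((bo (a b j) (n b j)).card : ℝ) ≤ mm S b0 (bo (a b j) (n b j)) i)
    (hV : ∀ b j, j < J → c * ((A b j).card : ℝ) ^ 2 ≤ kk S b0 (A b j) (A b j))
    (htop : bo (a true J) (n true J) = bo (a false J) (n false J))
    (hηpos : ∀ j, j < J → 0 < η j)
    (hη : ∀ b j, j < J → 4 * (N j : ℝ) ≤ η j * (c ^ 4 * ((A b j).card : ℝ)) ∧
      4 * (N (j + 1) : ℝ) ≤ η j * (c ^ 4 * ((A b j).card : ℝ)))
    (hsum : 4 * ∑ j ∈ Finset.range J, Real.sqrt (η j) ≤ Real.sqrt ((b1 - b0) / 2)) :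
    c / 2 * ((bo (a true 0) (n true 0)).card : ℝ) * ((bo (a false 0) (n false 0)).card : ℝ) ≤
      kk S b1 (bo (a true 0) (n true 0)) (bo (a false 0) (n false 0)) := by
  set R : Bool → ℕ → Finset (Vx d) := fun b j => bo (a b j) (n b j) with hRd
  have hRe : ∀ b j, bo (a b j) (n b j) = R b j := fun b j => rfl
  have hneR : ∀ b j, j ≤ J → (R b j).Nonempty := by
    intro b j hj
    rcases hj.lt_or_eq with h | h
    · exact (hne b j h).mono (hA1 b j h)
    · rcases Nat.eq_zero_or_pos J with h0 | h0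
      · rw [h, h0]
        exact hne0 b
      · have h1 := hA2 b (J - 1) (by omega)
        have h2 := hne b (J - 1) (by omega)
        rw [show J - 1 + 1 = j by omega] at h1
        exact h2.mono h1
  -- the hypotheses at all `β ≥ b0`
  have hmm : ∀ β, b0 ≤ β → ∀ b j, j ≤ J → ∀ i ∈ R b j,
      c * ((R b j).card : ℝ) ≤ mm S β (R b j) i := by
    intro β hβ b j hj i hi
    exact (hR b j hj i hi).trans
      (mm_dom (Finset.Subset.refl S) hb0 hβ (hS b j hj) (hS b j hj hi))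
  have hkR : ∀ β, b0 ≤ β → ∀ b j, j ≤ J → c * ((R b j).card : ℝ) ^ 2 ≤ kk S β (R b j) (R b j) :=
    fun β hβ b j hj => kk_of_mm S β c (R b j) (hmm β hβ b j hj)
  have hAS : ∀ b j, j < J → A b j ⊆ S := fun b j hj => (hA1 b j hj).trans (hS b j hj.le)
  have hkA : ∀ β, b0 ≤ β → ∀ b j, j < J → c * ((A b j).card : ℝ) ^ 2 ≤ kk S β (A b j) (A b j) := by
    intro β hβ b j hj
    exact (hV b j hj).trans
      (kk_dom (Finset.Subset.refl S) hb0 hβ (hAS b j hj) (hAS b j hj))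
  have hcard : ∀ B : Finset (Vx d), B.Nonempty → (0 : ℝ) < (B.card : ℝ) := by
    intro B hB
    exact_mod_cast Finset.card_pos.2 hB
  -- the pairs
  let Q : Bool × ℕ × Bool → Finset (Vx d) := fun i => cond i.2.2 (R i.1 (i.2.1 + 1)) (R i.1 i.2.1)
  let I : Finset (Bool × ℕ × Bool) := Finset.univ ×ˢ (Finset.range J ×ˢ Finset.univ)
  have key : ∀ i ∈ I, ∀ β ∈ Set.Icc b0 b1, ∃ D : ℝ,
      HasDerivAt (fun b => kk S b (A i.1 i.2.1) (Q i) /
        (((A i.1 i.2.1).card : ℝ) * ((Q i).card : ℝ))) D β ∧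
      0 ≤ 1 - cor S β (A i.1 i.2.1) (Q i) ^ 2 ∧
      1 - cor S β (A i.1 i.2.1) (Q i) ^ 2 ≤ η i.2.1 * D := by
    rintro ⟨b, j, e⟩ hi β hβ
    have hj : j < J := by
      have h1 := (Finset.mem_product.1 hi).2
      exact Finset.mem_range.1 (Finset.mem_product.1 h1).1
    have hβ0 : 0 ≤ β := hb0.trans hβ.1
    cases e with
    | true =>
      have h4 : 4 * (N (j + 1) : ℝ) ≤ η j * (c ^ 3 * c * ((A b j).card : ℝ)) := by
        have h5 := (hη b j hj).2
        have h6 : c ^ 3 * c = c ^ 4 := by ring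
        rw [h6]
        exact h5
      exact pair_cor S β hβ0 (a b (j + 1)) (n b (j + 1)) (N (j + 1))
        (fun k => hN b (j + 1) k hj) (A b j) (hA2 b j hj) (hne b j hj) (hS b (j + 1) hj) c c hc hc
        (hmm β hβ.1 b (j + 1) hj) (hkA β hβ.1 b j hj) (η j) h4
    | false =>
      have h4 : 4 * (N j : ℝ) ≤ η j * (c ^ 3 * c * ((A b j).card : ℝ)) := by
        have h5 := (hη b j hj).1
        have h6 : c ^ 3 * c = c ^ 4 := by ring
        rw [h6]
        exact h5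
      exact pair_cor S β hβ0 (a b j) (n b j) (N j)
        (fun k => hN b j k hj.le) (A b j) (hA1 b j hj) (hne b j hj) (hS b j hj.le) c c hc hc
        (hmm β hβ.1 b j hj.le) (hkA β hβ.1 b j hj) (η j) h4
  obtain ⟨β, hβ, hsβ⟩ := mean_val I b0 b1 hb
    (fun i b => kk S b (A i.1 i.2.1) (Q i) / (((A i.1 i.2.1).card : ℝ) * ((Q i).card : ℝ)))
    (fun i => deriv (fun b => kk S b (A i.1 i.2.1) (Q i) /
      (((A i.1 i.2.1).card : ℝ) * ((Q i).card : ℝ))))
    (fun i b => 1 - cor S b (A i.1 i.2.1) (Q i) ^ 2) (fun i => η i.2.1)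
    (by
      rintro ⟨b, j, e⟩ hi
      exact hηpos j (Finset.mem_range.1 (Finset.mem_product.1 (Finset.mem_product.1 hi).2).1))
    (by
      intro i hi β hβ
      obtain ⟨D, hD, -, -⟩ := key i hi β hβ
      exact hD.differentiableAt.hasDerivAt)
    (by
      intro i hi β hβ
      have h0 : 0 ≤ ((A i.1 i.2.1).card : ℝ) * ((Q i).card : ℝ) :=
        mul_nonneg (Nat.cast_nonneg _) (Nat.cast_nonneg _)
      refine ⟨div_nonneg (kk_nonneg S β (hb0.trans hβ.1) _ _) h0, ?_⟩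
      exact div_le_one_of_le₀ (kk_le S β _ _) h0)
    (by
      intro i hi β hβ
      obtain ⟨D, hD, h1, h2⟩ := key i hi β hβ
      refine ⟨h1, ?_⟩
      show 1 - cor S β (A i.1 i.2.1) (Q i) ^ 2 ≤ η i.2.1 * deriv (fun b =>
        kk S b (A i.1 i.2.1) (Q i) / (((A i.1 i.2.1).card : ℝ) * ((Q i).card : ℝ))) β
      rw [hD.deriv]
      exact h2)
  have hβ0 : 0 ≤ β := hb0.trans hβ.1
  -- the sum over the pairs
  have hIs : ∀ f : Bool × ℕ × Bool → ℝ, ∑ i ∈ I, f i =
      ∑ j ∈ Finset.range J, (f (true, j, false) + f (true, j, true)) +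
      ∑ j ∈ Finset.range J, (f (false, j, false) + f (false, j, true)) := by
    intro f
    show ∑ i ∈ (Finset.univ ×ˢ (Finset.range J ×ˢ Finset.univ) : Finset (Bool × ℕ × Bool)), f i = _
    rw [Finset.sum_product, Fintype.sum_bool]
    congr 1
    · rw [Finset.sum_product]
      refine Finset.sum_congr rfl fun j _ => ?_
      rw [Fintype.sum_bool, add_comm]
    · rw [Finset.sum_product]
      refine Finset.sum_congr rfl fun j _ => ?_
      rw [Fintype.sum_bool, add_comm]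
  have hsum2 : ∑ i ∈ I, Real.sqrt (1 - cor S β (A i.1 i.2.1) (Q i) ^ 2) ≤ Real.sqrt (1 / 2) := by
    refine hsβ.trans ?_
    have hd : 0 < b1 - b0 := sub_pos.2 hb
    have e1 : ∑ i ∈ I, Real.sqrt (η i.2.1) = 4 * ∑ j ∈ Finset.range J, Real.sqrt (η j) := by
      rw [hIs, Finset.mul_sum, ← Finset.sum_add_distrib]
      refine Finset.sum_congr rfl fun j _ => ?_
      ring
    rw [e1, div_le_iff₀ (Real.sqrt_pos.2 hd), ← Real.sqrt_mul (by norm_num)]
    refine hsum.trans (Real.sqrt_le_sqrt (le_of_eq ?_))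
    ring
  -- the walk
  have hwalk := cor_walk S β hβ0 (2 * (2 * J))
    (fun i => if i ≤ 2 * J then r1_w (R true) (A true) i
      else r1_w (R false) (A false) (2 * (2 * J) - i))
    (by
      have h1 : ∀ b j, j ≤ J → 0 < kk S β (R b j) (R b j) := fun b j hj =>
        lt_of_lt_of_le (mul_pos hc (pow_pos (hcard _ (hneR b j hj)) 2)) (hkR β hβ.1 b j hj)
      have h2 : ∀ b j, j < J → 0 < kk S β (A b j) (A b j) := fun b j hj =>
        lt_of_lt_of_le (mul_pos hc (pow_pos (hcard _ (hne b j hj)) 2)) (hkA β hβ.1 b j hj)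
      intro i hi
      exact r1_pos (p := fun B => 0 < kk S β B B) _ _ (2 * J)
        (r1_wpos (p := fun B => 0 < kk S β B B) (R true) (A true) J (h1 true) (h2 true))
        (r1_wpos (p := fun B => 0 < kk S β B B) (R false) (A false) J (h1 false) (h2 false)) i hi)
    (by
      have e0 := r1_walk (fun A B => Real.sqrt (1 - cor S β A B ^ 2))
        (fun A B => by rw [r1_cor_comm])
        (r1_w (R true) (A true)) (r1_w (R false) (A false)) (2 * J)
        (by rw [r1_w_even, r1_w_even]; exact htop)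
      refine e0.le.trans (le_trans (le_of_eq ?_) hsum2)
      rw [hIs, r1_sum, r1_sum]
      congr 1
      · refine Finset.sum_congr rfl fun j _ => ?_
        rw [show 2 * j + 1 + 1 = 2 * (j + 1) by ring, r1_w_even, r1_w_odd, r1_w_even,
          r1_cor_comm S β (R true j)]
        rfl
      · refine Finset.sum_congr rfl fun j _ => ?_
        rw [show 2 * j + 1 + 1 = 2 * (j + 1) by ring, r1_w_even, r1_w_odd, r1_w_even,
          r1_cor_comm S β (R false j)]
        rfl)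
  have e1 : (if 0 ≤ 2 * J then r1_w (R true) (A true) 0
      else r1_w (R false) (A false) (2 * (2 * J) - 0)) = R true 0 := by
    rw [if_pos (Nat.zero_le _)]
    exact r1_w_even _ _ 0
  have e2 : (if 2 * (2 * J) ≤ 2 * J then r1_w (R true) (A true) (2 * (2 * J))
      else r1_w (R false) (A false) (2 * (2 * J) - 2 * (2 * J))) = R false 0 := by
    split_ifs with h
    · have h0 : J = 0 := by omega
      subst h0
      exact (r1_w_even _ _ 0).trans htop
    · rw [Nat.sub_self]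
      exact r1_w_even _ _ 0
  have hcor : 1 / 2 ≤ cor S β (R true 0) (R false 0) := by
    have h0 := hwalk
    simp only [e1, e2] at h0
    exact h0
  have hkT := hkR β hβ.1 true 0 (Nat.zero_le _)
  have hkF := hkR β hβ.1 false 0 (Nat.zero_le _)
  have hT0 := hcard _ (hneR true 0 (Nat.zero_le _))
  have hF0 := hcard _ (hneR false 0 (Nat.zero_le _))
  have hsT : Real.sqrt c * ((R true 0).card : ℝ) ≤ Real.sqrt (kk S β (R true 0) (R true 0)) := by
    refine Real.le_sqrt_of_sq_le ?_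
    rw [mul_pow, Real.sq_sqrt hc.le]
    exact hkT
  have hsF : Real.sqrt c * ((R false 0).card : ℝ) ≤
      Real.sqrt (kk S β (R false 0) (R false 0)) := by
    refine Real.le_sqrt_of_sq_le ?_
    rw [mul_pow, Real.sq_sqrt hc.le]
    exact hkF
  have hsc : 0 < Real.sqrt c := Real.sqrt_pos.2 hc
  have hTp : 0 < Real.sqrt (kk S β (R true 0) (R true 0)) :=
    lt_of_lt_of_le (mul_pos hsc hT0) hsT
  have hFp : 0 < Real.sqrt (kk S β (R false 0) (R false 0)) :=
    lt_of_lt_of_le (mul_pos hsc hF0) hsF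
  have h1 : 1 / 2 * (Real.sqrt (kk S β (R true 0) (R true 0)) *
      Real.sqrt (kk S β (R false 0) (R false 0))) ≤ kk S β (R true 0) (R false 0) := by
    have h2 := hcor
    unfold cor at h2
    rwa [le_div_iff₀ (mul_pos hTp hFp)] at h2
  have h2 : c * (((R true 0).card : ℝ) * ((R false 0).card : ℝ)) ≤
      Real.sqrt (kk S β (R true 0) (R true 0)) * Real.sqrt (kk S β (R false 0) (R false 0)) := by
    have h3 := mul_le_mul hsT hsF (mul_nonneg hsc.le hF0.le) hTp.le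
    have h4 : Real.sqrt c * ((R true 0).card : ℝ) * (Real.sqrt c * ((R false 0).card : ℝ)) =
        c * (((R true 0).card : ℝ) * ((R false 0).card : ℝ)) := by
      have h5 := Real.mul_self_sqrt hc.le
      calc _ = (Real.sqrt c * Real.sqrt c) * (((R true 0).card : ℝ) * ((R false 0).card : ℝ)) := by
            ring
        _ = _ := by rw [h5]
    rwa [h4] at h3
  have h3 : kk S β (R true 0) (R false 0) ≤ kk S b1 (R true 0) (R false 0) :=
    kk_dom (Finset.Subset.refl S) hβ0 hβ.2 (hS true 0 (Nat.zero_le _)) (hS false 0 (Nat.zero_le _))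
  show c / 2 * ((R true 0).card : ℝ) * ((R false 0).card : ℝ) ≤ kk S b1 (R true 0) (R false 0)
  linarith

/-! ## row r2: the geometry of the chain (one coordinate: `omega`) -/

-- BEGIN r2
/-- `x` moved to distance at least `ρ` from the ends of `[0, n]` -/
def cl (ρ n : ℕ) (x : ℤ) : ℤ := max (ρ : ℤ) (min x ((n : ℤ) - ρ))

/-- lower corner of the box `R_j`, of side `4 T` -/
def lr (T n : ℕ) (x : Vx d) : Vx d := fun k => cl (4 * T) n (x k) - 2 * T

/-- lower corner of the set `A_j`, of side `2 T` -/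
def la (T n : ℕ) (x : Vx d) : Vx d := fun k =>
  max (cl (4 * T) n (x k) - 2 * T) (cl (8 * T) n (x k) - 4 * T)

lemma la_sub (P : Finset (Fin d)) (q T n : ℕ) (hn : 16 * T ≤ n) (x : Vx d) :
    Cb P q (la T n x) (2 * T) ⊆ Cb P q (lr T n x) (4 * T) ∧
      Cb P q (la T n x) (2 * T) ⊆ Cb P q (lr (2 * T) n x) (8 * T) := by
  constructor
  · intro y hy
    rw [mem_Cb] at hy ⊢
    intro k
    refine ⟨fun hk => ?_, (hy k).2⟩
    have h := (hy k).1 hk
    simp only [la, lr, cl] at h ⊢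
    push_cast at h ⊢
    omega
  · intro y hy
    rw [mem_Cb] at hy ⊢
    intro k
    refine ⟨fun hk => ?_, (hy k).2⟩
    have h := (hy k).1 hk
    simp only [la, lr, cl] at h ⊢
    push_cast at h ⊢
    omega

/-- the padded boxes are in the domain -/
lemma lr_dom (P : Finset (Fin d)) (q T n : ℕ) (hn : 8 * T ≤ n) (x : Vx d) :
    Db P q (fun k => lr T n x k - ((2 * T : ℕ) : ℤ)) (4 * (2 * T)) ⊆ Db P q 0 n := by
  intro y hy
  rw [mem_Db] at hy ⊢
  intro k
  refine ⟨fun hk => ?_, (hy k).2⟩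
  have h := (hy k).1 hk
  simp only [lr, cl, Pi.zero_apply] at h ⊢
  push_cast at h ⊢
  omega

lemma la_dom (P : Finset (Fin d)) (q T n : ℕ) (hn : 16 * T ≤ n) (x : Vx d) :
    Db P q (fun k => la T n x k - (T : ℤ)) (4 * T) ⊆ Db P q 0 n := by
  intro y hy
  rw [mem_Db] at hy ⊢
  intro k
  refine ⟨fun hk => ?_, (hy k).2⟩
  have h := (hy k).1 hk
  simp only [la, cl, Pi.zero_apply] at h ⊢
  push_cast at h ⊢
  omega

/-- all chains end in the central box -/
lemma lr_top (T : ℕ) (x : Vx d) : lr T (8 * T) x = fun _ => 2 * (T : ℤ) := by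
  funext k
  simp only [lr, cl]
  push_cast
  omega

lemma lr_dist (P : Finset (Fin d)) (q T n : ℕ) (hn : 8 * T ≤ n) (x x' : Vx d)
    (hx : x ∈ Db P q 0 n) (hx' : x' ∈ Cb P q (lr T n x) (4 * T)) :
    x' ∈ Db P q 0 n ∧ ∀ k ∈ P, |x k - x' k| ≤ 6 * T := by
  rw [mem_Db] at hx ⊢
  rw [mem_Cb] at hx'
  constructor
  · intro k
    constructor
    · intro hk
      have h := (hx' k).1 hk
      simp only [lr, cl, Pi.zero_apply] at h ⊢
      push_cast at h ⊢
      omega
    · intro hk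
      have h := (hx' k).2 hk
      omega
  · intro k hk
    have h1 := (hx k).1 hk
    have h := (hx' k).1 hk
    simp only [lr, cl, Pi.zero_apply] at h h1
    push_cast at h h1
    rw [abs_le]
    omega
-- END r2

/-! ## row r3: the sum over the scales -/

/-- `√(8 / (C 2^j)) = √(8 / C) (1/√2)^j`, geometric sum `≤ 4` -/
lemma sum_sqrt (C Δ : ℝ) (hC : 0 < C) (hΔ : 0 < Δ) (h : 10 ^ 4 ≤ C * Δ) (J : ℕ) :
    4 * ∑ j ∈ Finset.range J, Real.sqrt (8 / (C * 2 ^ j)) ≤ Real.sqrt (Δ / 2) := by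
  have h1 : ∀ j : ℕ, Real.sqrt (8 / (C * 2 ^ j)) ≤ Real.sqrt (8 / C) * (3 / 4) ^ j := by
    intro j
    rw [Real.sqrt_le_iff]
    refine ⟨by positivity, ?_⟩
    rw [mul_pow, Real.sq_sqrt (by positivity), ← pow_mul, mul_comm j 2, pow_mul]
    have h2 : 8 / (C * 2 ^ j) = 8 / C * (1 / 2) ^ j := by
      rw [one_div, inv_pow]
      field_simp
    rw [h2]
    refine mul_le_mul_of_nonneg_left (pow_le_pow_left₀ (by norm_num) (by norm_num) j) (by positivity)
  have h2 : (1 - (3 / 4 : ℝ)) * ∑ j ∈ Finset.range J, (3 / 4 : ℝ) ^ j = 1 - (3 / 4) ^ J :=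
    mul_neg_geom_sum _ _
  have h3 : ∑ j ∈ Finset.range J, (3 / 4 : ℝ) ^ j ≤ 4 := by
    have h4 : (0 : ℝ) ≤ (3 / 4) ^ J := by positivity
    linarith
  have h4 : ∑ j ∈ Finset.range J, Real.sqrt (8 / (C * 2 ^ j)) ≤ Real.sqrt (8 / C) * 4 := by
    refine (Finset.sum_le_sum fun j _ => h1 j).trans ?_
    rw [← Finset.mul_sum]
    exact mul_le_mul_of_nonneg_left h3 (Real.sqrt_nonneg _)
  have h5 : 16 * Real.sqrt (8 / C) ≤ Real.sqrt (Δ / 2) := by
    refine Real.le_sqrt_of_sq_le ?_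
    rw [mul_pow, Real.sq_sqrt (by positivity)]
    have h6 : (16 : ℝ) ^ 2 * (8 / C) = 2048 / C := by ring
    rw [h6, div_le_iff₀ hC]
    nlinarith
  linarith

/-! ## row r4: correlations of boxes at arbitrary distance -/

private lemma r4_ne (P : Finset (Fin d)) (q : ℕ) (hq : 1 ≤ q) (a : Vx d) (s : ℕ) (hs : 1 ≤ s) :
    (Cb P q a s).Nonempty := by
  refine ⟨fun k => if k ∈ P then a k else (q : ℤ), ?_⟩
  rw [mem_Cb]
  intro k
  by_cases hk : k ∈ P
  · simp only [hk, if_true, true_imp_iff, not_true_eq_false, false_imp_iff, and_true]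
    constructor
    · exact le_refl _
    · have : (1 : ℤ) ≤ s := by exact_mod_cast hs
      linarith
  · simp only [hk, if_false, false_imp_iff, not_false_eq_true, true_imp_iff, true_and]
    have : (1 : ℤ) ≤ q := by exact_mod_cast hq
    constructor
    · exact le_refl _
    · linarith

private lemma r4_sub (P : Finset (Fin d)) (q : ℕ) (a : Vx d) (u : ℕ) :
    Cb P q a (2 * u) ⊆ Db P q (fun k => a k - (u : ℤ)) (4 * u) := by
  intro x hx
  rw [mem_Cb] at hx
  rw [mem_Db]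
  intro k
  obtain ⟨h1, h2⟩ := hx k
  constructor
  · intro hk
    obtain ⟨h3, h4⟩ := h1 hk
    push_cast at h4 ⊢
    constructor <;> linarith
  · intro hk
    obtain ⟨h3, h4⟩ := h2 hk
    constructor <;> linarith

private lemma r4_card (P : Finset (Fin d)) (hP : 2 ≤ P.card) (q : ℕ) (hq : 1 ≤ q) (a : Vx d)
    (T : ℕ) (hT : 1 ≤ T) : 4 * (T : ℝ) ^ 2 ≤ ((Cb P q a (2 * T)).card : ℝ) := by
  rw [card_Cb]
  have h1 : (1 : ℝ) ≤ T := by exact_mod_cast hT
  have h2 : (1 : ℝ) ≤ q := by exact_mod_cast hq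
  have h3 : (1 : ℝ) ≤ (2 * q : ℝ) ^ (d - P.card) := one_le_pow₀ (by linarith)
  have h4 : ((2 * T : ℕ) : ℝ) ^ 2 ≤ ((2 * T : ℕ) : ℝ) ^ P.card := by
    refine pow_le_pow_right₀ ?_ hP
    push_cast
    linarith
  have h5 : ((2 * T : ℕ) : ℝ) ^ 2 = 4 * (T : ℝ) ^ 2 := by
    push_cast
    ring
  have h6 : 0 ≤ ((2 * T : ℕ) : ℝ) ^ P.card := by positivity
  nlinarith [h3, h4, h5, h6]

/-- `chain_lb` with `R_j = Cb P q (lr (t 2^j) n x) (4 t 2^j)`, `A_j = Cb P q (la (t 2^j) n x) (2 t 2^j)`,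
`n = 8 t 2^J`, `N j = 4 t 2^j`, `η j = 8 / (c⁴ t 2^j)` (`|A_j| ≥ (2 t 2^j)²` as `2 ≤ |P|`, `1 ≤ q`);
`MB` and `kk_of_mm`, `mm_dom`. -/
theorem whit (P : Finset (Fin d)) (hP : 2 ≤ P.card) (q : ℕ) (hq : 1 ≤ q) (b0 b1 : ℝ)
    (hb0 : 0 ≤ b0) (hb : b0 < b1) (c : ℝ) (hc : 0 < c) (t : ℕ) (ht : 1 ≤ t)
    (h2q : 2 * q ≤ 4 * t) (J : ℕ) (hMB : ∀ j ≤ J + 1, MB P q b0 c (t * 2 ^ j))
    (hΔ : 10 ^ 4 ≤ c ^ 4 * t * (b1 - b0)) (x y : Vx d) (hx : x ∈ Db P q 0 (8 * (t * 2 ^ J)))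
    (hy : y ∈ Db P q 0 (8 * (t * 2 ^ J))) :
    c / 2 * ((Cb P q (lr t (8 * (t * 2 ^ J)) x) (4 * t)).card : ℝ) *
        ((Cb P q (lr t (8 * (t * 2 ^ J)) y) (4 * t)).card : ℝ) ≤
      kk (Db P q 0 (8 * (t * 2 ^ J))) b1 (Cb P q (lr t (8 * (t * 2 ^ J)) x) (4 * t))
        (Cb P q (lr t (8 * (t * 2 ^ J)) y) (4 * t)) := by
  set n : ℕ := 8 * (t * 2 ^ J) with hn
  have hT1 : ∀ j : ℕ, 1 ≤ t * 2 ^ j := fun j => Nat.mul_pos ht (Nat.two_pow_pos j)
  have hle : ∀ j, j ≤ J → 8 * (t * 2 ^ j) ≤ n := by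
    intro j hj
    rw [hn]
    exact Nat.mul_le_mul_left 8 (Nat.mul_le_mul_left t (Nat.pow_le_pow_right (by norm_num) hj))
  have hlt : ∀ j, j < J → 16 * (t * 2 ^ j) ≤ n := by
    intro j hj
    have h1 := hle (j + 1) hj
    have h2 : 8 * (t * 2 ^ (j + 1)) = 16 * (t * 2 ^ j) := by ring
    rw [h2] at h1
    exact h1
  have hR : ∀ (z : Vx d) (j : ℕ), j ≤ J → Cb P q (lr (t * 2 ^ j) n z) (4 * (t * 2 ^ j)) ⊆
      Db P q 0 n ∧ ∀ i ∈ Cb P q (lr (t * 2 ^ j) n z) (4 * (t * 2 ^ j)),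
        c * ((Cb P q (lr (t * 2 ^ j) n z) (4 * (t * 2 ^ j))).card : ℝ) ≤
          mm (Db P q 0 n) b0 (Cb P q (lr (t * 2 ^ j) n z) (4 * (t * 2 ^ j))) i := by
    intro z j hj
    have e1 : 4 * (t * 2 ^ j) = 2 * (t * 2 ^ (j + 1)) := by ring
    have e2 : t * 2 ^ (j + 1) = 2 * (t * 2 ^ j) := by ring
    have hD : Db P q (fun k => lr (t * 2 ^ j) n z k - ((t * 2 ^ (j + 1) : ℕ) : ℤ))
        (4 * (t * 2 ^ (j + 1))) ⊆ Db P q 0 n := by
      rw [e2]
      exact lr_dom P q (t * 2 ^ j) n (hle j hj) z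
    have hs := r4_sub P q (lr (t * 2 ^ j) n z) (t * 2 ^ (j + 1))
    rw [e1]
    refine ⟨hs.trans hD, fun i hi => ?_⟩
    refine le_trans (hMB (j + 1) (by omega) (lr (t * 2 ^ j) n z) i hi) ?_
    exact mm_dom hD hb0 le_rfl hs (hs hi)
  have hA : ∀ (z : Vx d) (j : ℕ), j < J →
      c * ((Cb P q (la (t * 2 ^ j) n z) (2 * (t * 2 ^ j))).card : ℝ) ^ 2 ≤
        kk (Db P q 0 n) b0 (Cb P q (la (t * 2 ^ j) n z) (2 * (t * 2 ^ j)))
          (Cb P q (la (t * 2 ^ j) n z) (2 * (t * 2 ^ j))) := by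
    intro z j hj
    have hD := la_dom P q (t * 2 ^ j) n (hlt j hj) z
    have hs := r4_sub P q (la (t * 2 ^ j) n z) (t * 2 ^ j)
    refine le_trans (kk_of_mm _ b0 c _ (hMB j (by omega) (la (t * 2 ^ j) n z))) ?_
    exact kk_dom hD hb0 le_rfl hs hs
  have key := chain_lb (Db P q 0 n) b0 b1 hb0 hb c hc J
    (fun b j k => if k ∈ P then lr (t * 2 ^ j) n (cond b x y) k else (q : ℤ))
    (fun _ j k => if k ∈ P then 4 * (t * 2 ^ j) else 2 * q)
    (fun b j => Cb P q (la (t * 2 ^ j) n (cond b x y)) (2 * (t * 2 ^ j)))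
    (fun j => 4 * (t * 2 ^ j)) (fun j => 8 / (c ^ 4 * t * 2 ^ j))
    (fun b j k _ => by
      show (if k ∈ P then 4 * (t * 2 ^ j) else 2 * q) ≤ 4 * (t * 2 ^ j)
      split_ifs
      · exact le_refl _
      · have h1 : t ≤ t * 2 ^ j := Nat.le_mul_of_pos_right t (Nat.two_pow_pos j)
        omega)
    (fun b j hj => (hR (cond b x y) j hj).1)
    (fun b j hj => (la_sub P q (t * 2 ^ j) n (hlt j hj) (cond b x y)).1)
    (fun b j hj => by
      have h1 := (la_sub P q (t * 2 ^ j) n (hlt j hj) (cond b x y)).2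
      have e2 : t * 2 ^ (j + 1) = 2 * (t * 2 ^ j) := by ring
      have e3 : 4 * (2 * (t * 2 ^ j)) = 8 * (t * 2 ^ j) := by ring
      show Cb P q (la (t * 2 ^ j) n (cond b x y)) (2 * (t * 2 ^ j)) ⊆
        Cb P q (lr (t * 2 ^ (j + 1)) n (cond b x y)) (4 * (t * 2 ^ (j + 1)))
      rw [e2, e3]
      exact h1)
    (fun b j hj => r4_ne P q hq _ _ (by have := hT1 j; omega))
    (fun b => r4_ne P q hq _ (4 * (t * 2 ^ 0)) (by have := hT1 0; omega))
    (fun b j hj => (hR (cond b x y) j hj).2)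
    (fun b j hj => hA (cond b x y) j hj)
    (by
      show Cb P q (lr (t * 2 ^ J) n x) (4 * (t * 2 ^ J)) =
        Cb P q (lr (t * 2 ^ J) n y) (4 * (t * 2 ^ J))
      rw [hn, lr_top, lr_top])
    (fun j hj => by positivity)
    (fun b j hj => by
      have hT : (0 : ℝ) < ((t * 2 ^ j : ℕ) : ℝ) := by exact_mod_cast hT1 j
      have hcard := r4_card P hP q hq (la (t * 2 ^ j) n (cond b x y)) (t * 2 ^ j) (hT1 j)
      have e4 : (8 : ℝ) / (c ^ 4 * t * 2 ^ j) *
          (c ^ 4 * ((Cb P q (la (t * 2 ^ j) n (cond b x y)) (2 * (t * 2 ^ j))).card : ℝ)) =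
          8 * ((Cb P q (la (t * 2 ^ j) n (cond b x y)) (2 * (t * 2 ^ j))).card : ℝ) /
            ((t * 2 ^ j : ℕ) : ℝ) := by
        push_cast at hT ⊢
        field_simp
      have e5 : (32 : ℝ) * ((t * 2 ^ j : ℕ) : ℝ) ≤
          8 * ((Cb P q (la (t * 2 ^ j) n (cond b x y)) (2 * (t * 2 ^ j))).card : ℝ) /
            ((t * 2 ^ j : ℕ) : ℝ) := by
        rw [le_div_iff₀ hT]
        nlinarith [hcard]
      constructor
      · show 4 * ((4 * (t * 2 ^ j) : ℕ) : ℝ) ≤ _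
        rw [e4]
        refine le_trans ?_ e5
        push_cast
        push_cast at hT
        nlinarith [hT]
      · show 4 * ((4 * (t * 2 ^ (j + 1)) : ℕ) : ℝ) ≤ _
        rw [e4]
        refine le_trans (le_of_eq ?_) e5
        push_cast
        ring)
    (sum_sqrt (c ^ 4 * t) (b1 - b0) (by positivity) (by linarith) hΔ J)
  have e0 : t * 2 ^ 0 = t := by ring
  simp only [e0] at key
  exact key

end Pool.Agent.Slb
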